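import Pool.Agent.MP_855f4c_ag.EC.Xa
import Pool.Agent.MP_855f4c_ag.NG.Near
import Pool.Agent.MP_855f4c_ag.EC.E3a
import Pool.Agent.MP_855f4c_ag.EC.Sa

section

/-! Smooth base change and Weil bounds at every prime: top interface. -/

set_option autoImplicit false
set_option backward.isDefEq.respectTransparency false

open CategoryTheory Limits Abelian Opposite AlgebraicGeometry Polynomial

namespace Pool.Agent.MP_855f4c_ag.E.G

open E3 E4

/-- Section B: smooth base change. -/
def SBX_s : Prop := ∀ (l : ℕ) [Fact l.Prime] (X S : Scheme.{0}) (f : X ⟶ S) [Smooth f]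
  [IsProper f] (n : ℕ), Lis l ((Rq f n).obj (Linf l X)).obj (top S)

/-- Section V: upper bounds for the weights and finiteness, at all points. -/
def WTX_s : Prop := ∀ (l : ℕ) [Fact l.Prime] (R : Type) [CommRing R] [Algebra.FiniteType ℤ R]
  (X : Scheme.{0}) (f : X ⟶ Spec (.of R)) [IsProper f] (n : ℕ),
    Wt l n ((Rq f n).obj (Linf l X)) ∧ CofS l ((Rq f n).obj (Linf l X))

/-- The semistable chart `t₁ ⋯ t_j = w`. -/
abbrev Ch {O : Type} [CommRing O] (w : O) (j : ℕ) : Type :=
  MvPolynomial (Fin j) O ⧸ Ideal.span {∏ k : Fin j, MvPolynomial.X k - MvPolynomial.C (σ := Fin j) w}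

open LP in
/-- mw purity near good reduction over the base `A`. -/
def Near (p l : ℕ) [Fact p.Prime] {R : Type} [CommRing R] {X : Scheme.{0}} (f : X ⟶ Spec (.of R))
    (O : Type) {A : Type} [CommRing O] [Algebra O (PadicAlgCl p)] [CommRing A] [Algebra O A]
    [Algebra R A] (s : Set A) : Prop :=
  ∃ r : ℝ, 1 < r ∧ ∀ [Algebra A (PadicAlgCl p)] [IsScalarTower O A (PadicAlgCl p)]
    [Algebra R (PadicAlgCl p)] [IsScalarTower R A (PadicAlgCl p)],
    (∀ a ∈ s, ‖algebraMap A (PadicAlgCl p) a‖ ≤ r) →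
    ∀ (i : ℕ) (φ u : PadicAlgCl p ≃ₐ[R] PadicAlgCl p) (Q : ℕ), 1 < Q →
      Frob ℤ_[p] Q φ → Frob ℤ_[p] 1 u →
      (∃ (n : ℕ) (r : PadicAlgCl p) (o : ℤ_[p]), r ^ l ^ n = algebraMap _ _ o ∧ u r ≠ r) →
      Mw Q i (E.gal f l i φ) (E.gal f l i u)

/-- Semistable bases `A` with the property `P`. -/
def NG (P : ∀ (A : Type) [CommRing A], Prop) : Prop :=
  ∀ (p l : ℕ) [Fact p.Prime] [Fact l.Prime], l ≠ p →
  ∀ (R : Type) [CommRing R] [Algebra.FiniteType ℤ R] (X : Scheme.{0}) (f : X ⟶ Spec (.of R))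
    [Smooth f] [IsProper f] (K : IntermediateField ℚ_[p] (PadicAlgCl p)) [FiniteDimensional ℚ_[p] K]
    (O A : Type) [CommRing O] [Algebra O (PadicAlgCl p)],
    (∀ c, algebraMap O (PadicAlgCl p) c ∈ K ∧ ‖algebraMap O (PadicAlgCl p) c‖ ≤ 1) →
    ∀ w : O, algebraMap O (PadicAlgCl p) w ≠ 0 → ‖algebraMap O (PadicAlgCl p) w‖ < 1 →
    ∀ (j : ℕ) [CommRing A] [Algebra O A] [Algebra (Ch w j) A] [IsScalarTower O (Ch w j) A]
      [Algebra.Smooth (Ch w j) A] [Algebra R A] (s : Set A), Algebra.adjoin O s = ⊤ → P A →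
      Near p l f O s

/-- Section Z2, core: normal domains. -/
def NGS_s : Prop := NG fun A _ => IsDomain A ∧ IsIntegrallyClosed A

/-- Section Z3: all semistable bases. -/
def NGT_s : Prop := NG fun _ _ => True

/-- Row PNORM: the chart over a normal domain is a normal domain. -/
def PNORM_s : Prop := ∀ (O : Type) [CommRing O] [IsDomain O] [IsIntegrallyClosed O] (w : O)
  (j : ℕ), w ≠ 0 → IsDomain (Ch w (j + 1)) ∧ IsIntegrallyClosed (Ch w (j + 1))

/-- Row SMN: a smooth algebra over a normal domain is covered by normal domains. -/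
def SMN_s : Prop := ∀ (P A : Type) [CommRing P] [IsDomain P] [IsIntegrallyClosed P] [CommRing A]
  [Algebra P A] [Algebra.Smooth P A], ∃ t : Finset A, Ideal.span (t : Set A) = ⊤ ∧
    ∀ g ∈ t, IsDomain (Localization.Away g) ∧ IsIntegrallyClosed (Localization.Away g)

open LP in
/-- Smooth bases over `ℤ`: the form used by h12g. -/
def NGL_s : Prop := ∀ (R : Type) [CommRing R] [Algebra.Smooth ℤ R] (s : Set R), s.Finite →
  Algebra.adjoin ℤ s = ⊤ →
  ∀ (X : Scheme.{0}) (f : X ⟶ Spec (.of R)) [Smooth f] [IsProper f] (p l : ℕ) [Fact p.Prime]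
    [Fact l.Prime], l ≠ p → ∃ r : ℝ, 1 < r ∧ ∀ [Algebra R (PadicAlgCl p)],
      (∀ a ∈ s, ‖algebraMap R (PadicAlgCl p) a‖ ≤ r) →
      ∀ (i : ℕ) (φ u : PadicAlgCl p ≃ₐ[R] PadicAlgCl p) (Q : ℕ), 1 < Q →
        Frob ℤ_[p] Q φ → Frob ℤ_[p] 1 u →
        (∃ (n : ℕ) (r : PadicAlgCl p) (o : ℤ_[p]), r ^ l ^ n = algebraMap _ _ o ∧ u r ≠ r) →
        Mw Q i (E.gal f l i φ) (E.gal f l i u)

end Pool.Agent.MP_855f4c_ag.E.G

end

section

/-! Removing the normality hypothesis. -/

set_option autoImplicit false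
set_option backward.isDefEq.respectTransparency false

open CategoryTheory AlgebraicGeometry TensorProduct

namespace Pool.Agent.MP_855f4c_ag.E.G

open LP

variable {p l : ℕ} [Fact p.Prime] {R : Type} [CommRing R] {X : Scheme.{0}}
  {f : X ⟶ Spec (.of R)}

/-- `T` holds near good reduction. -/
def Nr (T : Algebra R (PadicAlgCl p) → Prop) (O : Type) {A : Type} [CommRing O]
    [Algebra O (PadicAlgCl p)] [CommRing A] [Algebra O A] [Algebra R A] (s : Set A) : Prop :=
  ∃ r : ℝ, 1 < r ∧ ∀ [Algebra A (PadicAlgCl p)] [IsScalarTower O A (PadicAlgCl p)]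
    [i : Algebra R (PadicAlgCl p)] [IsScalarTower R A (PadicAlgCl p)],
    (∀ a ∈ s, ‖algebraMap A (PadicAlgCl p) a‖ ≤ r) → T i

/-- mw purity at a point. -/
def Pt (p l : ℕ) [Fact p.Prime] (f : X ⟶ Spec (.of R)) (_ : Algebra R (PadicAlgCl p)) : Prop :=
  ∀ (i : ℕ) (φ u : PadicAlgCl p ≃ₐ[R] PadicAlgCl p) (Q : ℕ), 1 < Q →
    Frob ℤ_[p] Q φ → Frob ℤ_[p] 1 u →
    (∃ (n : ℕ) (r : PadicAlgCl p) (o : ℤ_[p]), r ^ l ^ n = algebraMap _ _ o ∧ u r ≠ r) →
    Mw Q i (E.gal f l i φ) (E.gal f l i u)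

lemma near_iff {O A : Type} [CommRing O] [Algebra O (PadicAlgCl p)] [CommRing A] [Algebra O A]
    [Algebra R A] (s : Set A) : Near p l f O s ↔ Nr (Pt p l f) O s := by
  unfold Near Nr Pt
  rfl

variable {T : Algebra R (PadicAlgCl p) → Prop}

/-- Change of the base. -/
lemma Nr.of_pts {O O' A : Type} [CommRing O] [Algebra O (PadicAlgCl p)] [CommRing O']
    [Algebra O' (PadicAlgCl p)] [CommRing A] [Algebra O A] [Algebra R A] (s : Set A) {k : ℕ}
    (B : Fin k → Type) [∀ i, CommRing (B i)] [∀ i, Algebra O' (B i)] [∀ i, Algebra R (B i)]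
    (t : ∀ i, Set (B i)) (D : ℕ) (h : ∀ i, Nr T O' (t i))
    (hp : ∀ r : ℝ, 1 < r → ∀ x : A →+* PadicAlgCl p, (∀ c, x (algebraMap O A c) = algebraMap O _ c) →
      (∀ a ∈ s, ‖x a‖ ≤ r) → ∃ (i : Fin k) (y : B i →+* PadicAlgCl p),
        (∀ c, y (algebraMap O' _ c) = algebraMap O' _ c) ∧
        (∀ c, y (algebraMap R _ c) = x (algebraMap R A c)) ∧ ∀ b ∈ t i, ‖y b‖ ≤ r ^ D) :
    Nr T O s := by
  choose ρ hρ H using h
  obtain ⟨r, hr, hrR⟩ := near_one ρ hρ fun _ => D
  refine ⟨r, hr, fun hx => ?_⟩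
  obtain ⟨i, y, h1, h2, h3⟩ := hp r hr (algebraMap A _)
    (fun c => (IsScalarTower.algebraMap_apply O A _ c).symm) hx
  let _ := y.toAlgebra
  have : IsScalarTower O' (B i) (PadicAlgCl p) := .of_algebraMap_eq fun c => (h1 c).symm
  have : IsScalarTower R (B i) (PadicAlgCl p) := .of_algebraMap_eq fun c =>
    ((h2 c).trans (IsScalarTower.algebraMap_apply R A _ c).symm).symm
  exact @H i _ _ _ _ fun b hb => (h3 b hb).trans (hrR i)

/-- Local to global. -/
lemma Nr.cover {O A : Type} [CommRing O] [Algebra O (PadicAlgCl p)]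
    (hO : ∀ c, ‖algebraMap O (PadicAlgCl p) c‖ ≤ 1) [CommRing A] [Algebra O A] [Algebra R A]
    (s : Set A) (hs : Algebra.adjoin O s = ⊤) (t : Finset A) (ht : Ideal.span (t : Set A) = ⊤)
    (h : ∀ g ∈ t, Nr T O (A := Localization.Away g)
      (algebraMap A _ '' s ∪ {IsLocalization.Away.invSelf g})) : Nr T O s := by
  obtain ⟨k, c, g, hg⟩ := Submodule.mem_span_set'.mp (show (1 : A) ∈ Submodule.span A (t : Set A) from
    (Ideal.eq_top_iff_one _).1 ht)
  obtain ⟨D, hD⟩ := grow_norm _ (closure_adjoin s hs) c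
  refine Nr.of_pts s (fun i => Localization.Away (g i : A)) _ (D + 1) (fun i => h _ (g i).2)
    fun r hr y hy1 hy2 => ?_
  have hy : ∀ a ∈ Set.range (algebraMap O A) ∪ s, ‖y a‖ ≤ r := by
    rintro a (⟨x, rfl⟩ | ha)
    · rw [hy1]
      exact (hO x).trans hr.le
    · exact hy2 a ha
  obtain ⟨i, hi⟩ := nglf_big (fun i => y (c i) * y (g i)) (by
    simp only [← map_mul, ← map_sum]
    exact (congrArg y hg).trans (map_one y))
  rw [norm_mul] at hi
  have hu : IsUnit (y (g i)) := IsUnit.mk0 _ fun h => by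
    rw [h, norm_zero, mul_zero] at hi
    exact absurd hi (by norm_num)
  let y' : Localization.Away (g i : A) →+* PadicAlgCl p := IsLocalization.Away.lift (g i : A) hu
  have hy' : ∀ a, y' (algebraMap A _ a) = y a := IsLocalization.Away.lift_eq (g i : A) hu
  refine ⟨i, y', fun c => (hy' _).trans (hy1 c), fun c => hy' _, ?_⟩
  rintro b (⟨a, ha, rfl⟩ | rfl)
  · rw [hy']
    exact (hy2 a ha).trans (le_self_pow₀ hr.le (Nat.succ_ne_zero _))
  · have h2 : ‖y (g i)‖ * ‖y' (IsLocalization.Away.invSelf (g i : A))‖ = 1 := by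
      rw [← norm_mul, ← hy', ← map_mul, IsLocalization.Away.mul_invSelf, map_one, norm_one]
    calc ‖y' (IsLocalization.Away.invSelf (g i : A))‖
        ≤ ‖y (c i)‖ * ‖y (g i)‖ * ‖y' (IsLocalization.Away.invSelf (g i : A))‖ :=
          le_mul_of_one_le_left (norm_nonneg _) hi
      _ = ‖y (c i)‖ := by rw [mul_assoc, h2, mul_one]
      _ ≤ r ^ D := hD p r hr.le y hy i
      _ ≤ r ^ (D + 1) := pow_le_pow_right₀ hr.le (Nat.le_succ _)

lemma tow_app {O P A : Type} [CommRing O] [CommRing P] [CommRing A] [Algebra O P] (I : Ideal P)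
    [Algebra O A] [Algebra (P ⧸ I) A] [IsScalarTower O (P ⧸ I) A] (c : O) :
    algebraMap (P ⧸ I) A (algebraMap O (P ⧸ I) c) = algebraMap O A c :=
  (IsScalarTower.algebraMap_apply O (P ⧸ I) A c).symm

lemma tow_of {O P A : Type} [CommRing O] [CommRing P] [CommRing A] [Algebra O P] (I : Ideal P)
    [Algebra O A] [Algebra (P ⧸ I) A]
    (h : ∀ c, algebraMap O A c = algebraMap (P ⧸ I) A (algebraMap O (P ⧸ I) c)) :
    IsScalarTower O (P ⧸ I) A := IsScalarTower.of_algebraMap_eq (R := O) (S := P ⧸ I) (A := A) h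

/-- Maps out of the chart. -/
noncomputable def Ch.lift {O Λ : Type} [CommRing O] [CommRing Λ] {w : O} {j : ℕ} (β : O →+* Λ)
    (τ : Fin j → Λ) (h : ∏ k, τ k = β w) : Ch w j →+* Λ :=
  Ideal.Quotient.lift _ (MvPolynomial.eval₂Hom β τ) fun a ha => by
    obtain ⟨e, rfl⟩ := Ideal.mem_span_singleton.1 ha
    simp [h]

/-- The coordinates of the chart. -/
noncomputable def Ch.t {O : Type} [CommRing O] (w : O) {j : ℕ} (k : Fin j) : Ch w j :=
  Ideal.Quotient.mk _ (MvPolynomial.X k)

lemma Ch.rel {O : Type} [CommRing O] (w : O) (j : ℕ) :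
    ∏ k, Ch.t w k = algebraMap O (Ch w j) w := by
  unfold Ch.t
  rw [← map_prod]
  exact Ideal.Quotient.eq.2 (Ideal.mem_span_singleton_self _)

lemma Ch.lift_c {O Λ : Type} [CommRing O] [CommRing Λ] {w : O} {j : ℕ} (β : O →+* Λ)
    (τ : Fin j → Λ) (h : ∏ k, τ k = β w) (c : O) : Ch.lift β τ h (algebraMap O _ c) = β c :=
  MvPolynomial.eval₂Hom_C β τ c

lemma Ch.lift_t {O Λ : Type} [CommRing O] [CommRing Λ] {w : O} {j : ℕ} (β : O →+* Λ)
    (τ : Fin j → Λ) (h : ∏ k, τ k = β w) (k : Fin j) : Ch.lift β τ h (Ch.t w k) = τ k :=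
  MvPolynomial.eval₂Hom_X' β τ k

lemma Ch.ind {O : Type} [CommRing O] {w : O} {j : ℕ} (S : Subring (Ch w j))
    (h1 : ∀ c, algebraMap O _ c ∈ S) (h2 : ∀ k, Ch.t w k ∈ S) (z : Ch w j) : z ∈ S := by
  obtain ⟨a, rfl⟩ := Ideal.Quotient.mk_surjective z
  induction a using MvPolynomial.induction_on with
  | C a => exact h1 a
  | add f g hf hg => rw [map_add]; exact add_mem hf hg
  | mul_X f i hf => rw [map_mul]; exact mul_mem hf (h2 i)

lemma Ch.ext {O Λ : Type} [CommRing O] [CommRing Λ] {w : O} {j : ℕ} {a b : Ch w j →+* Λ}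
    (h1 : ∀ c, a (algebraMap O _ c) = b (algebraMap O _ c)) (h2 : ∀ k, a (Ch.t w k) = b (Ch.t w k)) :
    a = b := RingHom.ext (Ch.ind (a.eqLocus b) h1 h2)

lemma tens {P P' A : Type} [CommRing P] [CommRing P'] [CommRing A] (κ : P →+* P') [Algebra P A]
    [Algebra.Smooth P A] : ∃ (A' : Type) (_ : CommRing A') (_ : Algebra P' A') (ι : A →+* A'),
      Algebra.Smooth P' A' ∧ (∀ z, ι (algebraMap P A z) = algebraMap P' A' (κ z)) ∧
      (∀ S : Subring A', (∀ a, ι a ∈ S) → (∀ z, algebraMap P' A' z ∈ S) → ∀ z, z ∈ S) ∧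
      ∀ (Λ : Type) [CommRing Λ] (b : P' →+* Λ) (x : A →+* Λ), b.comp κ = x.comp (algebraMap P A) →
        ∃ y : A' →+* Λ, (∀ z, y (algebraMap P' A' z) = b z) ∧ ∀ a, y (ι a) = x a := by
  let _ := κ.toAlgebra
  refine ⟨P' ⊗[P] A, inferInstance, inferInstance,
    (Algebra.TensorProduct.includeRight (R := P)).toRingHom, inferInstance,
    (Algebra.TensorProduct.includeRight (R := P)).commutes, fun S h1 h2 z => ?_,
    fun Λ _ b x hb => ?_⟩
  · induction z using TensorProduct.induction_on with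
    | zero => exact zero_mem _
    | add x y hx hy => exact add_mem hx hy
    | tmul x a => simpa using mul_mem (h2 x) (h1 a)
  · let _ : Algebra P Λ := (x.comp (algebraMap P A)).toAlgebra
    exact ⟨(Algebra.TensorProduct.lift (R := P) (S := P) ⟨b, RingHom.congr_fun hb⟩ ⟨x, fun _ => rfl⟩
      fun _ _ => Commute.all _ _).toRingHom, fun z => by simp, fun a => by simp⟩

lemma Ch.bc {O V A : Type} [CommRing O] [CommRing V] (o : O →+* V) (w : O) (j : ℕ) [CommRing A]
    [Algebra O A] [Algebra (Ch w j) A] [IsScalarTower O (Ch w j) A] [Algebra.Smooth (Ch w j) A]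
    (s : Set A) (hs : Algebra.adjoin O s = ⊤) : ∃ (A' : Type) (_ : CommRing A') (_ : Algebra V A')
      (_ : Algebra (Ch (o w) j) A') (_ : IsScalarTower V (Ch (o w) j) A') (ι : A →+* A'),
      Algebra.Smooth (Ch (o w) j) A' ∧ Algebra.adjoin V (ι '' s) = ⊤ ∧
      ∀ (Λ : Type) [CommRing Λ] (β : V →+* Λ) (x : A →+* Λ),
        (∀ c, x (algebraMap O A c) = β (o c)) →
        ∃ y : A' →+* Λ, (∀ c, y (algebraMap V A' c) = β c) ∧ ∀ a, y (ι a) = x a := by
  obtain ⟨A', _, _, ι, h1, hι, h2, h3⟩ :=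
    tens (A := A) (Ch.lift (w := w) ((algebraMap V _).comp o) (Ch.t (o w)) (Ch.rel _ j))
  let _ : Algebra V A' := ((algebraMap (Ch (o w) j) A').comp (algebraMap V _)).toAlgebra
  refine ⟨A', inferInstance, inferInstance, inferInstance,
    tow_of _ fun _ => rfl, ι, h1, ?_,
    fun Λ _ β x hx => ?_⟩
  · have h1 : ∀ a, ι a ∈ Algebra.adjoin V (ι '' s) := fun a => by
      have ha : a ∈ Algebra.adjoin O s := hs ▸ Algebra.mem_top
      induction ha using Algebra.adjoin_induction with
      | mem x hx => exact Algebra.subset_adjoin ⟨x, hx, rfl⟩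
      | algebraMap c =>
        rw [← (tow_app _ c : algebraMap (Ch w j) A _ = _), hι, Ch.lift_c]
        exact Subalgebra.algebraMap_mem _ (o c)
      | add x y _ _ hx hy => rw [map_add]; exact add_mem hx hy
      | mul x y _ _ hx hy => rw [map_mul]; exact mul_mem hx hy
    refine eq_top_iff.2 fun z _ => h2 (Algebra.adjoin V (ι '' s)).toSubring h1
      (Ch.ind (((Algebra.adjoin V (ι '' s)).toSubring).comap (algebraMap (Ch (o w) j) A'))
        (fun c => Subalgebra.algebraMap_mem (Algebra.adjoin V (ι '' s)) c) fun k => ?_) z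
    have := h1 (algebraMap (Ch w j) A (Ch.t w k))
    rwa [hι, Ch.lift_t] at this
  · obtain ⟨y, hy1, hy2⟩ := h3 Λ (Ch.lift β (fun k => x (algebraMap _ A (Ch.t w k))) (by
      rw [← map_prod, ← map_prod, Ch.rel, tow_app, hx])) x (Ch.ext
        (fun c => by
          rw [RingHom.comp_apply, Ch.lift_c, RingHom.comp_apply, Ch.lift_c, RingHom.comp_apply,
            tow_app, hx])
        fun k => by rw [RingHom.comp_apply, Ch.lift_t, Ch.lift_t, RingHom.comp_apply])
    exact ⟨y, fun c => (hy1 _).trans (Ch.lift_c _ _ _ c), hy2⟩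

lemma adj_away {V A : Type} [CommRing V] [CommRing A] [Algebra V A] (s : Set A)
    (hs : Algebra.adjoin V s = ⊤) (g : A) : Algebra.adjoin V (A := Localization.Away g)
      (algebraMap A _ '' s ∪ {IsLocalization.Away.invSelf g}) = ⊤ := by
  refine Subalgebra.toSubring_injective ((Algebra.adjoin_eq_ring_closure _).trans ?_)
  refine eq_top_iff.2 ((closure_away g _ (closure_adjoin _ hs) _
    (IsLocalization.Away.mul_invSelf g)).ge.trans (Subring.closure_mono ?_))
  rintro z (⟨a, ⟨c, rfl⟩ | ha, rfl⟩ | hz)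
  · exact .inl ⟨c, rfl⟩
  · exact .inr (.inl ⟨a, ha, rfl⟩)
  · exact .inr (.inr hz)

lemma ngt0 (h : NGS_s) (hP : PNORM_s) (hS : SMN_s) [Fact l.Prime] (hlp : l ≠ p)
    [Algebra.FiniteType ℤ R] [Smooth f] [IsProper f] (K : IntermediateField ℚ_[p] (PadicAlgCl p))
    [FiniteDimensional ℚ_[p] K] {O V A : Type} [CommRing O] [Algebra O (PadicAlgCl p)] [CommRing V]
    [IsDomain V] [IsIntegrallyClosed V] [Algebra V (PadicAlgCl p)]
    (hO' : ∀ c : V, algebraMap V (PadicAlgCl p) c ∈ K ∧ ‖algebraMap V (PadicAlgCl p) c‖ ≤ 1)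
    (o : O →+* V) (ho : ∀ c, algebraMap V (PadicAlgCl p) (o c) = algebraMap O _ c) (w : O)
    (hw0 : algebraMap O (PadicAlgCl p) w ≠ 0) (hw1 : ‖algebraMap O (PadicAlgCl p) w‖ < 1) (j : ℕ)
    [CommRing A] [Algebra O A] [Algebra (Ch w (j + 1)) A] [IsScalarTower O (Ch w (j + 1)) A]
    [Algebra.Smooth (Ch w (j + 1)) A] [Algebra R A] (s : Set A) (hs : Algebra.adjoin O s = ⊤) :
    Near p l f O s := by
  obtain ⟨_, _⟩ := hP V (o w) j fun e => hw0 (by rw [← ho, e, map_zero])
  obtain ⟨A', _, _, _, _, ι, _, hs', hy⟩ := Ch.bc o w (j + 1) s hs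
  let _ : Algebra R A' := (ι.comp (algebraMap R A)).toAlgebra
  obtain ⟨t, ht, hn⟩ := hS (Ch (o w) (j + 1)) A'
  have key : Nr (Pt p l f) V (ι '' s) := Nr.cover (fun c => (hO' c).2) _ hs' t ht fun g hg =>
    haveI : Algebra.Smooth (Ch (o w) (j + 1)) (Localization.Away g) := .comp _ A' _
    (near_iff _).1 (h p l hlp R X f K V (Localization.Away g) hO' (o w) (ho w ▸ hw0) (ho w ▸ hw1)
      (j + 1) _ (adj_away _ hs' g) (hn g hg))
  refine (near_iff _).2 (Nr.of_pts s (k := 1) (fun _ => A') _ 1 (fun _ => key)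
    fun r _ x hx1 hx2 => ?_)
  obtain ⟨y, h1, h2⟩ := hy _ (algebraMap V _) x fun c => (hx1 c).trans (ho c).symm
  refine ⟨0, y, h1, fun c => h2 _, ?_⟩
  rintro _ ⟨a, ha, rfl⟩
  rw [pow_one, h2]
  exact hx2 a ha

theorem ngt (h : NGS_s) (hP : PNORM_s) (hS : SMN_s) : NGT_s := by
  intro p l _ _ hlp R _ _ X f _ _ K _ O A _ _ hO w hw0 hw1 j _ _ _ _ _ _ s hs _
  cases j with
  | zero =>
    refine (near_iff _).2 ⟨2, one_lt_two, fun _ => ?_⟩
    have := congrArg (fun z => ‖algebraMap A (PadicAlgCl p) (algebraMap (Ch w 0) A z)‖) (Ch.rel w 0)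
    simp only [Finset.univ_eq_empty, Finset.prod_empty, map_one, norm_one,
      ← IsScalarTower.algebraMap_apply] at this
    exact absurd this hw1.ne'
  | succ j =>
  let V : ValuationSubring K :=
    (Valued.v (R := PadicAlgCl p)).valuationSubring.comap (algebraMap K (PadicAlgCl p))
  have hV : ∀ z : K, z ∈ V ↔ ‖(z : PadicAlgCl p)‖ ≤ 1 := fun z => Iff.rfl
  let _ : Algebra V (PadicAlgCl p) := ((algebraMap K _).comp V.subtype).toAlgebra
  exact ngt0 h hP hS hlp K (V := V) (fun c => ⟨c.1.2, (hV _).1 c.2⟩)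
    (((algebraMap O (PadicAlgCl p)).codRestrict K fun c => (hO c).1).codRestrict V
      fun c => (hV _).2 (hO c).2) (fun _ => rfl) w hw0 hw1 j s hs

theorem ngl (h : NGT_s) : NGL_s := by
  intro R _ _ s _ hs X f _ _ p l _ _ hlp
  let e : Ch (p : ℤ) 1 →+* ℤ := Ch.lift (RingHom.id ℤ) (fun _ => p) (by simp)
  have he : Function.Bijective e := by
    refine ⟨Function.LeftInverse.injective (g := algebraMap ℤ _) fun z => ?_,
      fun z => ⟨algebraMap ℤ _ z, Ch.lift_c _ _ _ z⟩⟩
    refine RingHom.congr_fun (f := (algebraMap ℤ _).comp e) (g := RingHom.id _)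
      (Ch.ext (fun c => by simp) fun k => ?_) z
    have := Ch.rel (p : ℤ) 1
    rw [Fin.prod_univ_one, Subsingleton.elim 0 k] at this
    rw [RingHom.comp_apply, Ch.lift_t, RingHom.id_apply, this]
  let _ : Algebra (Ch (p : ℤ) 1) R := ((algebraMap ℤ R).comp e).toAlgebra
  have := tow_of (O := ℤ) (A := R) (Ideal.span {∏ k : Fin 1, MvPolynomial.X k -
    MvPolynomial.C (σ := Fin 1) (p : ℤ)}) fun c => by simp
  have : Algebra.Smooth (Ch (p : ℤ) 1) R :=
    (RingHom.Smooth.of_bijective he).comp (RingHom.smooth_algebraMap.2 ‹_›)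
  have hp : ‖(p : PadicAlgCl p)‖ < 1 := by
    rw [← map_natCast (algebraMap ℚ_[p] (PadicAlgCl p))]
    exact (PadicAlgCl.norm_extends p _).trans_lt Padic.norm_p_lt_one
  obtain ⟨r, hr, H⟩ := h p l hlp R X f ⊥ ℤ R
    (fun c => ⟨intCast_mem _ c, IsUltrametricDist.norm_intCast_le_one _ c⟩) (p : ℤ)
    (by simpa using (Fact.out : p.Prime).ne_zero) (by simpa using hp) 1 s hs trivial
  exact ⟨r, hr, fun hx => H hx⟩

end Pool.Agent.MP_855f4c_ag.E.G

end

section

/-! The semistable chart over a normal domain is a normal domain. -/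

set_option autoImplicit false

namespace Pool.Agent.MP_855f4c_ag.E.G

namespace PN

open MvPolynomial

theorem mv_normal (O : Type) [CommRing O] [IsDomain O] [IsIntegrallyClosed O] (n : ℕ) :
    IsIntegrallyClosed (MvPolynomial (Fin n) O) := by
  induction n with
  | zero => exact IsIntegrallyClosed.of_equiv (isEmptyRingEquiv O (Fin 0)).symm
  | succ n ih => exact IsIntegrallyClosed.of_equiv (finSuccEquiv O n).toRingEquiv.symm

theorem key {P L F : Type} [CommRing P] [CommRing L] [IsDomain L] [IsIntegrallyClosed L] [Field F]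
    [Algebra P F] [IsFractionRing P F] (ψ : P →+* L) (π : L →+* F)
    (h : ∀ x, π (ψ x) = algebraMap P F x) (z : F) (hz : IsIntegral P z) : ∃ y, π y = z := by
  have hψ : Function.Injective ψ := fun a b hab =>
    IsFractionRing.injective P F (by rw [← h, ← h, hab])
  have hi : Function.Injective ((algebraMap L (FractionRing L)).comp ψ) :=
    (IsFractionRing.injective L (FractionRing L)).comp hψ
  let g : F →+* FractionRing L := IsFractionRing.lift hi
  have hg : ∀ x, g (algebraMap P F x) = algebraMap L (FractionRing L) (ψ x) := fun x =>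
    IsFractionRing.lift_algebraMap hi x
  obtain ⟨y, hy⟩ := IsIntegrallyClosed.isIntegral_iff.mp
    (IsIntegral.map_of_comp_eq (T := L) ψ g (RingHom.ext fun x => (hg x).symm) hz)
  obtain ⟨a, b, hb, rfl⟩ := IsFractionRing.div_surjective (A := P) z
  have : Nontrivial P := (algebraMap P F).domain_nontrivial
  have hb0 : algebraMap P F b ≠ 0 := IsFractionRing.to_map_ne_zero_of_mem_nonZeroDivisors hb
  refine ⟨y, eq_div_of_mul_eq hb0 ?_⟩
  have h1 : y * ψ b = ψ a := IsFractionRing.injective L (FractionRing L) (by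
    rw [map_mul, hy, ← hg, ← hg, ← map_mul, div_mul_cancel₀ _ hb0])
  rw [← h, ← h, ← map_mul, h1]

variable {O : Type} [CommRing O] {n : ℕ}

theorem dvd_of_X (w : O) (k : Fin n) (g : MvPolynomial (Fin n) O) (h : C w ∣ X k * g) :
    C w ∣ g := by
  rw [C_dvd_iff_dvd_coeff] at h ⊢
  intro d
  rw [← coeff_X_mul d k g]
  exact h _

theorem dvd_of_prod (w : O) (s : Finset (Fin n)) (g : MvPolynomial (Fin n) O)
    (h : C w ∣ (∏ k ∈ s, X k) * g) : C w ∣ g := by
  induction s using Finset.induction_on generalizing g with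
  | empty => simpa using h
  | insert a s ha ih =>
    rw [Finset.prod_insert ha, mul_assoc] at h
    exact ih g (dvd_of_X w a _ h)

/-- The quotient map to the chart. -/
noncomputable abbrev mk (w : O) (n : ℕ) : MvPolynomial (Fin n) O →+* Ch w n := Ideal.Quotient.mk _

theorem rel (w : O) (n : ℕ) : mk w n (∏ k, X k) = mk w n (C w) :=
  Ideal.Quotient.eq.mpr (Ideal.mem_span_singleton_self _)

theorem split (w : O) (a : Fin n) :
    mk w n (X a) * mk w n (∏ k ∈ Finset.univ.erase a, X k) = mk w n (C w) := by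
  rw [← map_mul, Finset.mul_prod_erase _ _ (Finset.mem_univ a), rel]

theorem w_nzd [IsDomain O] {w : O} (hw : w ≠ 0) : mk w n (C w) ∈ nonZeroDivisors (Ch w n) := by
  rw [mem_nonZeroDivisors_iff_left]
  intro f hf
  obtain ⟨f, rfl⟩ := Ideal.Quotient.mk_surjective f
  rw [← map_mul, Ideal.Quotient.eq_zero_iff_mem, Ideal.mem_span_singleton] at hf
  obtain ⟨g, hg⟩ := hf
  obtain ⟨g', rfl⟩ : C w ∣ g :=
    dvd_of_prod w Finset.univ g ⟨f + g, by linear_combination -hg⟩
  rw [Ideal.Quotient.eq_zero_iff_mem, Ideal.mem_span_singleton]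
  exact ⟨g', mul_left_cancel₀ (C_ne_zero.mpr hw) (by linear_combination hg)⟩

theorem reg (w : O) {i k : Fin n} (hik : k ≠ i) (f : Ch w n)
    (h : mk w n (X i) ∣ mk w n (X k) * f) : mk w n (X i) ∣ f := by
  obtain ⟨f, rfl⟩ := Ideal.Quotient.mk_surjective f
  obtain ⟨g, hg⟩ := h
  obtain ⟨g, rfl⟩ := Ideal.Quotient.mk_surjective g
  rw [← map_mul, ← map_mul, Ideal.Quotient.eq, Ideal.mem_span_singleton] at hg
  obtain ⟨e, he⟩ := hg
  let κ : MvPolynomial (Fin n) O →ₐ[O] MvPolynomial (Fin n) O :=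
    aeval (Function.update X i 0)
  have hκi : κ (X i) = 0 := by simp [κ]
  have hκk : ∀ l, l ≠ i → κ (X l) = X l := fun l hl => by simp [κ, Function.update_of_ne hl]
  have hκC : ∀ c, κ (C c) = C c := fun c => κ.commutes c
  have hκp : κ (∏ l, X l) = 0 := by
    rw [← Finset.mul_prod_erase _ _ (Finset.mem_univ i), map_mul, hκi, zero_mul]
  have h1 := congrArg κ he
  rw [map_sub, map_mul, map_mul, map_mul, map_sub, hκi, hκk k hik, hκC, hκp] at h1
  obtain ⟨s, hs⟩ : C w ∣ κ f := dvd_of_X w k _ ⟨-κ e, by linear_combination h1⟩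
  have h2 : ∀ p, X i ∣ p - κ p := fun p => by
    induction p using MvPolynomial.induction_on with
    | C c => rw [hκC, sub_self]; exact dvd_zero _
    | add p q hp hq =>
      rw [map_add, add_sub_add_comm]; exact dvd_add hp hq
    | mul_X p l hp =>
      rw [map_mul]
      by_cases hl : l = i
      · rw [hl, hκi, mul_zero, sub_zero]; exact dvd_mul_left _ _
      · rw [hκk l hl, ← sub_mul]; exact hp.mul_right _
  obtain ⟨r, hr⟩ := h2 f
  have h3 : f = X i * r + C w * s := by linear_combination hr + hs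
  change mk w n (X i) ∣ mk w n f
  rw [h3, map_add, map_mul, map_mul, ← split w i]
  exact dvd_add (dvd_mul_right _ _) ((dvd_mul_right _ _).mul_right _)

theorem reg_pow {P : Type} [CommRing P] [IsDomain P] {x y : P} (hx : x ≠ 0)
    (h : ∀ f, x ∣ y * f → x ∣ f) (a b : ℕ) (f : P) (hf : x ^ a ∣ y ^ b * f) : x ^ a ∣ f := by
  have h1 : ∀ (b : ℕ) (f : P), x ∣ y ^ b * f → x ∣ f := fun b => by
    induction b with
    | zero => intro f hf; simpa using hf
    | succ b ih => intro f hf; rw [pow_succ', mul_assoc] at hf; exact ih f (h _ hf)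
  induction a generalizing f with
  | zero => simp
  | succ a ih =>
    obtain ⟨g, rfl⟩ := h1 b f ((dvd_pow_self x a.succ_ne_zero).trans hf)
    rw [pow_succ', mul_left_comm] at hf
    rw [pow_succ']
    exact mul_dvd_mul_left _ (ih g ((mul_dvd_mul_iff_left hx).mp hf))

theorem chart [IsDomain O] {w : O} (hw : w ≠ 0) (a : Fin n) (m : MvPolynomial (Fin n) O)
    (hm : m = ∏ k ∈ Finset.univ.erase a, X k) :
    ∃ (ψ : Ch w n →+* Localization.Away m) (π : Localization.Away m →+* FractionRing (Ch w n)),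
      (∀ x, π (ψ x) = algebraMap _ _ x) ∧
        ∀ x, π (algebraMap _ _ x) = algebraMap (Ch w n) _ (mk w n x) := by
  have hu : IsUnit (((algebraMap (Ch w n) (FractionRing (Ch w n))).comp (mk w n)) m) := by
    have h1 : mk w n m ∈ nonZeroDivisors (Ch w n) :=
      (mul_mem_nonZeroDivisors.mp (by rw [hm, split]; exact w_nzd hw :
        mk w n (X a) * mk w n m ∈ nonZeroDivisors (Ch w n))).2
    exact IsLocalization.map_units (FractionRing (Ch w n)) ⟨_, h1⟩
  let ι := algebraMap (MvPolynomial (Fin n) O) (Localization.Away m)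
  let v : Fin n → Localization.Away m := Function.update (fun k => ι (X k)) a
    (ι (C w) * IsLocalization.Away.invSelf m)
  let φ : MvPolynomial (Fin n) O →+* Localization.Away m := eval₂Hom (ι.comp C) v
  have hφC : ∀ c, φ (C c) = ι (C c) := fun c => eval₂Hom_C _ _ c
  have hφa : φ (X a) = ι (C w) * IsLocalization.Away.invSelf m := by
    simp only [φ, eval₂Hom_X', v, Function.update_self]
  have hφk : ∀ k, k ≠ a → φ (X k) = ι (X k) := fun k hk => by
    simp only [φ, eval₂Hom_X', v, Function.update_of_ne hk]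
  have hφm : φ m = ι m := (congrArg φ hm).trans (((map_prod φ _ _).trans
    ((Finset.prod_congr rfl fun k hk => hφk k (Finset.ne_of_mem_erase hk)).trans
      (map_prod ι _ _).symm)).trans (congrArg ι hm).symm)
  have hinv : ι m * IsLocalization.Away.invSelf m = 1 := IsLocalization.Away.mul_invSelf m
  have hφ : φ (∏ k, X k - C w) = 0 := by
    rw [← Finset.mul_prod_erase _ _ (Finset.mem_univ a), ← hm, map_sub, map_mul, hφa, hφm, hφC]
    linear_combination ι (C w) * hinv
  let π : Localization.Away m →+* FractionRing (Ch w n) := IsLocalization.Away.lift m hu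
  have hπ : ∀ x, π (ι x) = algebraMap (Ch w n) _ (mk w n x) := fun x =>
    IsLocalization.Away.lift_eq m hu x
  refine ⟨Ideal.Quotient.lift _ φ fun x hx => ?_, π, fun x => ?_, hπ⟩
  · obtain ⟨y, rfl⟩ := Ideal.mem_span_singleton.mp hx
    rw [map_mul, hφ, zero_mul]
  · obtain ⟨x, rfl⟩ := Ideal.Quotient.mk_surjective x
    rw [Ideal.Quotient.lift_mk]
    have h2 : π.comp φ = (algebraMap (Ch w n) (FractionRing (Ch w n))).comp (mk w n) := by
      refine ringHom_ext (fun c => ?_) fun k => ?_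
      · rw [RingHom.comp_apply, hφC, hπ, RingHom.comp_apply]
      · by_cases hk : k = a
        · rw [hk, RingHom.comp_apply, hφa, map_mul, hπ, RingHom.comp_apply, ← split w a, ← hm,
            map_mul, ← hπ m, mul_assoc, ← map_mul, hinv, map_one, mul_one]
        · rw [RingHom.comp_apply, hφk k hk, hπ, RingHom.comp_apply]
    exact RingHom.congr_fun h2 x

theorem m_ne [IsDomain O] (s : Finset (Fin n)) : (∏ k ∈ s, X k : MvPolynomial (Fin n) O) ≠ 0 :=
  Finset.prod_ne_zero_iff.mpr fun k _ => X_ne_zero k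

theorem dom [IsDomain O] {w : O} (hw : w ≠ 0) (a : Fin n) : IsDomain (Ch w n) := by
  obtain ⟨ψ, π, h, -⟩ := chart hw a _ rfl
  have := IsLocalization.Away.isDomain
    (Localization.Away (∏ k ∈ Finset.univ.erase a, X k : MvPolynomial (Fin n) O))
    (m_ne (O := O) (Finset.univ.erase a))
  exact Function.Injective.isDomain ψ fun x y hxy =>
    IsFractionRing.injective (Ch w n) (FractionRing (Ch w n)) (by rw [← h, ← h, hxy])

theorem normal [IsDomain O] [IsIntegrallyClosed O] {w : O} (hw : w ≠ 0) (a₀ : Fin n) :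
    IsIntegrallyClosed (Ch w n) := by
  have := dom hw a₀
  have := mv_normal O n
  let F := FractionRing (Ch w n)
  let ι := algebraMap (Ch w n) F
  refine (isIntegrallyClosed_iff F).mpr fun {z} hz => ?_
  have h1 : ∀ a : Fin n, ∃ N : ℕ, ∀ N', N ≤ N' → ∃ y, ι y =
      ι (∏ k ∈ Finset.univ.erase a, mk w n (X k) ^ N') * z := fun a => by
    obtain ⟨m, hm⟩ : ∃ m : MvPolynomial (Fin n) O, m = ∏ k ∈ Finset.univ.erase a, X k := ⟨_, rfl⟩
    obtain ⟨ψ, π, h, hπ⟩ := chart hw a m hm
    have hm0 : m ≠ 0 := hm ▸ m_ne _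
    have := IsLocalization.Away.isDomain (Localization.Away m) hm0
    have : IsIntegrallyClosed (Localization.Away m) := isIntegrallyClosed_of_isLocalization _
      (Submonoid.powers m) (powers_le_nonZeroDivisors_of_noZeroDivisors hm0)
    obtain ⟨y, rfl⟩ := key ψ π h z hz
    obtain ⟨N, b, hb⟩ := IsLocalization.Away.surj m y
    refine ⟨N, fun N' hN => ⟨mk w n (m ^ (N' - N) * b), ?_⟩⟩
    rw [Finset.prod_pow, ← map_prod, ← hm, ← map_pow, ← hπ, ← hπ, ← map_mul π, map_mul, ← hb,
      ← Nat.sub_add_cancel hN, Nat.add_sub_cancel, pow_add]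
    simp only [map_mul, map_pow]
    ring
  choose N hN using h1
  let M := Finset.univ.sup N
  have hx : ∀ i, mk w n (X i) ≠ 0 := fun i hi => nonZeroDivisors.ne_zero (w_nzd (n := n) hw) (by
    rw [← split w i, hi, zero_mul])
  have h2 : ∀ (c : ℕ) (A : Finset (Fin n)), A.card = c + 1 →
      ∃ y, ι y = ι (∏ k ∈ Aᶜ, mk w n (X k) ^ M) * z := fun c => by
    induction c with
    | zero =>
      intro A hA
      obtain ⟨a, rfl⟩ := Finset.card_eq_one.mp hA
      rw [Finset.compl_singleton]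
      exact hN a M (Finset.le_sup (Finset.mem_univ a))
    | succ c ih =>
      intro A hA
      obtain ⟨i, hi, k, hk, hik⟩ := Finset.one_lt_card.mp (by omega : 1 < A.card)
      have h3 : ∀ l ∈ A, ∃ y, ι y = ι (mk w n (X l) ^ M) * (ι (∏ k ∈ Aᶜ, mk w n (X k) ^ M) * z) :=
        fun l hl => by
          obtain ⟨y, hy⟩ := ih (A.erase l) (by rw [Finset.card_erase_of_mem hl]; omega)
          rw [Finset.compl_erase, Finset.prod_insert (by simpa using hl), map_mul, mul_assoc] at hy
          exact ⟨y, hy⟩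
      obtain ⟨y, hy⟩ := h3 i hi
      obtain ⟨y', hy'⟩ := h3 k hk
      have h4 : mk w n (X k) ^ M * y = mk w n (X i) ^ M * y' :=
        IsFractionRing.injective (Ch w n) F (by
          rw [map_mul, map_mul]
          change _ * ι y = _ * ι y'
          rw [hy, hy', mul_left_comm])
      obtain ⟨u, rfl⟩ := reg_pow (hx i) (reg w hik.symm) M M y ⟨y', h4⟩
      refine ⟨u, mul_left_cancel₀ (a := ι (mk w n (X i) ^ M)) ?_ (by rw [← hy, map_mul])⟩
      exact (map_ne_zero_iff _ (IsFractionRing.injective (Ch w n) F)).mpr (pow_ne_zero _ (hx i))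
  obtain ⟨y, hy⟩ := h2 (n - 1) Finset.univ (by
    have := a₀.pos
    rw [Finset.card_univ, Fintype.card_fin]; omega)
  exact ⟨y, by simpa using hy⟩

end PN

theorem pnorm : PNORM_s := fun _ _ _ _ _ _ hw => ⟨PN.dom hw 0, PN.normal hw 0⟩

end Pool.Agent.MP_855f4c_ag.E.G

end

section

/-! Row SMN: a smooth algebra over a normal domain is covered by normal domains. -/

set_option autoImplicit false
set_option backward.isDefEq.respectTransparency false

open TensorProduct

namespace Pool.Agent.MP_855f4c_ag.E.G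

open E3

namespace SMN

variable {R C : Type} [CommRing R] [CommRing C] [Algebra R C] [IsDomain R]

/-- An etale algebra over a domain has finitely many idempotents. -/
theorem idem_finite [Algebra.Etale R C] : {e : C | IsIdempotentElem e}.Finite := by
  let K := FractionRing R
  have : Module.Finite K (K ⊗[R] C) := Algebra.FormallyUnramified.finite_of_free _ _
  have : IsArtinianRing (K ⊗[R] C) := IsArtinianRing.of_finite K _
  have h1 : {e : K ⊗[R] C | IsIdempotentElem e}.Finite :=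
    Set.Finite.of_injOn (Set.mapsTo_univ _ _) PrimeSpectrum.basicOpen_injOn_isIdempotentElem
      Set.finite_univ
  let ι : C →ₐ[R] K ⊗[R] C := Algebra.TensorProduct.includeRight
  have hι : Function.Injective ι :=
    Algebra.TensorProduct.includeRight_injective (IsFractionRing.injective R K)
  exact Set.Finite.of_injOn (f := ι) (fun e he => IsIdempotentElem.map he ι) hι.injOn h1

/-- An etale algebra over a normal domain is locally a normal domain. -/
theorem etale_loc [IsIntegrallyClosed R] [Algebra.Etale R C] (q : Ideal C) [hq : q.IsPrime] :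
    ∃ e ∉ q, IsDomain (Localization.Away e) ∧ IsIntegrallyClosed (Localization.Away e) := by
  classical
  let T := (idem_finite (R := R) (C := C)).toFinset.filter fun f => f ∉ q
  let e : C := ∏ f ∈ T, f
  have he : e ∉ q := fun h => by
    obtain ⟨f, hf, h⟩ := (Ideal.IsPrime.prod_mem_iff (p := q)).1 h
    exact (Finset.mem_filter.1 hf).2 h
  have h1 : ∀ f, IsIdempotentElem f → f ∉ q → IsUnit (algebraMap C (Localization.Away e) f) :=
    fun f hf hfq => IsLocalization.Away.isUnit_of_dvd e (Finset.dvd_prod_of_mem _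
      (Finset.mem_filter.2 ⟨(Set.Finite.mem_toFinset _).2 hf, hfq⟩))
  have : Nontrivial (Localization.Away e) := by
    refine (not_subsingleton_iff_nontrivial).1 fun h => ?_
    obtain ⟨⟨_, n, rfl⟩, hn⟩ := (IsLocalization.map_eq_zero_iff (Submonoid.powers e)
      (Localization.Away e) (1 : C)).1 (Subsingleton.elim _ _)
    exact he (hq.mem_of_pow_mem n (by rw [← mul_one (e ^ n)]; exact hn ▸ q.zero_mem))
  have hz : ∀ x y : C, x * y = 0 → algebraMap C (Localization.Away e) x = 0 ∨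
      algebraMap C (Localization.Away e) y = 0 := by
    intro x y hxy
    obtain ⟨f, hf, hfx, hfy, -⟩ := etale_reg (R := R) x
    by_cases hfq : f ∈ q
    · left
      have h3 : 1 - f ∉ q := fun h => hq.ne_top ((Ideal.eq_top_iff_one q).2 (by
        simpa using q.add_mem h hfq))
      rw [← (h1 _ hf.one_sub h3).mul_right_eq_zero, ← map_mul, sub_mul, one_mul, hfx, sub_self,
        map_zero]
    · right
      rw [← (h1 _ hf hfq).mul_right_eq_zero, ← map_mul, hfy y hxy, map_zero]
  have : NoZeroDivisors (Localization.Away e) := ⟨fun {a b} hab => by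
    obtain ⟨x, s, rfl⟩ := IsLocalization.exists_mk'_eq (Submonoid.powers e) a
    obtain ⟨y, t, rfl⟩ := IsLocalization.exists_mk'_eq (Submonoid.powers e) b
    rw [← IsLocalization.mk'_mul, IsLocalization.mk'_eq_zero_iff] at hab
    obtain ⟨u, hu⟩ := hab
    rw [← mul_assoc] at hu
    refine (hz _ _ hu).imp (fun h => ?_) fun h => ?_
    · rw [map_mul, (IsLocalization.map_units _ u).mul_right_eq_zero] at h
      rw [IsLocalization.mk'_eq_mul_mk'_one, h, zero_mul]
    · rw [IsLocalization.mk'_eq_mul_mk'_one, h, zero_mul]⟩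
  have : IsDomain (Localization.Away e) := NoZeroDivisors.to_isDomain _
  have : Algebra.Etale C (Localization.Away e) := .of_isLocalizationAway e
  have : Algebra.Etale R (Localization.Away e) := .comp R C _
  exact ⟨e, he, inferInstance, (IndEt.of_etale (R := R)).isIntegrallyClosed⟩

theorem smooth_loc [IsIntegrallyClosed R] [Algebra.Smooth R C] (q : Ideal C) [hq : q.IsPrime] :
    ∃ g ∉ q, IsDomain (Localization.Away g) ∧ IsIntegrallyClosed (Localization.Away g) := by
  obtain ⟨f, hf, n, _, _, _⟩ := Algebra.IsSmoothAt.exists_isStandardEtale_mvPolynomial (R := R)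
    (p := q)
  have := E65.mv_normal (Fin n) R
  have : (Ideal.map (algebraMap C (Localization.Away f)) q).IsPrime :=
    IsLocalization.isPrime_of_isPrime_disjoint (.powers f) _ _ hq
      ((Ideal.disjoint_powers_iff_notMem_of_isPrime _).mpr hf)
  obtain ⟨g₀, hg, h1, h2⟩ := etale_loc (R := MvPolynomial (Fin n) R)
    (Ideal.map (algebraMap C (Localization.Away f)) q)
  obtain ⟨g, ⟨_, m, rfl⟩, hg₀⟩ := IsLocalization.exists_mk'_eq (.powers f) g₀
  have hg' : g ∉ q := fun h => hg (by
    rw [← hg₀, IsLocalization.mk'_eq_mul_mk'_one]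
    exact Ideal.mul_mem_right _ _ (Ideal.mem_map_of_mem _ h))
  have : IsLocalization.Away (f * g) (Localization.Away g₀) := by
    suffices IsLocalization.Away (algebraMap _ (Localization.Away f) g) (Localization.Away g₀) from
      .mul' (Localization.Away f) _ _ _
    refine IsLocalization.Away.of_associated (r := g₀)
      ⟨(IsLocalization.Away.algebraMap_pow_isUnit f m).unit, ?_⟩
    rw [← hg₀, IsUnit.unit_spec, ← map_pow]
    exact IsLocalization.mk'_spec _ _ (⟨f ^ m, m, rfl⟩ : Submonoid.powers f)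
  let e := (IsLocalization.algEquiv (.powers (f * g)) (Localization.Away g₀)
    (Localization.Away (f * g))).toRingEquiv
  exact ⟨f * g, hq.mul_notMem hf hg', e.symm.toMulEquiv.isDomain _, .of_equiv e⟩

end SMN

theorem smn : SMN_s := by
  intro P A _ _ _ _ _ _
  classical
  let s : Set A := {g | IsDomain (Localization.Away g) ∧ IsIntegrallyClosed (Localization.Away g)}
  have hs : Ideal.span s = ⊤ := by
    by_contra h
    obtain ⟨m, hm, hle⟩ := Ideal.exists_le_maximal _ h
    obtain ⟨g, hg, h⟩ := SMN.smooth_loc (R := P) m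
    exact hg (hle (Ideal.subset_span h))
  obtain ⟨t, ht, h⟩ := (Ideal.span_eq_top_iff_finite s).1 hs
  exact ⟨t, h, fun g hg => ht hg⟩

end Pool.Agent.MP_855f4c_ag.E.G

end
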