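import Pool.Agent.MP_855f4c_ag.EC.Sc
import Pool.Agent.MP_855f4c_ag.EC.Pc
import Pool.Agent.MP_855f4c_ag.EC.Pa
import Pool.Agent.MP_855f4c_ag.EC.Sd
import Pool.Agent.MP_855f4c_ag.EC.F2f
import Pool.Agent.MP_855f4c_ag.EC.E4a
import Pool.Agent.MP_855f4c_ag.EG.Ga
import Pool.Agent.MP_855f4c_ag.EC.F2b

section

/-! Section B (smooth base change in every relative dimension): definitions and rows. -/

set_option autoImplicit false
set_option backward.isDefEq.respectTransparency false

open CategoryTheory Limits Abelian Opposite AlgebraicGeometry Polynomial IsLocalRing TensorProduct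
open Function

namespace Pool.Agent.MP_855f4c_ag.E.SB

open E3 E4 SA

/-- `A → O` is local and onto on residue fields. -/
def Rs (A O : Type) [CommRing A] [CommRing O] [Algebra A O] : Prop :=
  IsLocalHom (algebraMap A O) ∧ ∀ z : O, ∃ a : A, ¬ IsUnit (z - algebraMap A O a)

/-- `O` is ind-etale over affine space, with coordinates `x`. -/
def IndX (A : Type) {O σ : Type} [CommRing A] [CommRing O] [Algebra A O] (x : σ → O) : Prop :=
  @IndEt (MvPolynomial σ A) O _ _
    (MvPolynomial.aeval x : MvPolynomial σ A →ₐ[A] O).toRingHom.toAlgebra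

/-- `O'` is the localisation of the `A`-algebra `O` at the image of `S`. -/
abbrev Lz {A : Type} [CommRing A] (S : Submonoid A) (O O' : Type) [CommRing O] [CommRing O']
    [Algebra A O] [Algebra O O'] : Prop := IsLocalization (Algebra.algebraMapSubmonoid O S) O'

/-- Devissage to the domains that are quotients of an aic integral cover. -/
def DVS_s : Prop := ∀ (l : ℕ) [Fact l.Prime] (T B E E' : Type) [CommRing T] [CommRing B]
  [CommRing E] [CommRing E'] [Algebra T B] [Algebra T E] [Algebra T E'] [Algebra.IsIntegral T B]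
  (φ : E →ₐ[T] E'), IsUnit (l : T) → Aic B → Surjective (PrimeSpectrum.comap (algebraMap T B)) →
    Surjective φ →
    (∀ (q : Ideal B) [q.IsPrime], AB (ZM l)
      (spc (Algebra.TensorProduct.map (AlgHom.id T (B ⧸ q)) φ).toRingHom)) →
    ∀ F : Sh (Scheme.etaleTopology.over (Spec (.of T))), Tc l F → HB (hm (𝟙 _) φ) F

/-- Aic integral covers. -/
def COVA_s : Prop := ∀ (A : Type) [CommRing A], ∃ (B : Type) (_ : CommRing B) (_ : Algebra A B),
  Aic B ∧ Algebra.IsIntegral A B ∧ Surjective (PrimeSpectrum.comap (algebraMap A B))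

/-- Integral local base change of a germ with a section. -/
def LOCT_s : Prop := ∀ (A O C : Type) [CommRing A] [CommRing O] [SHL O] [CommRing C]
  [IsLocalRing C] [Algebra A O] [Algebra A C] [Algebra.IsIntegral A C] (_ : O →ₐ[A] A),
    SHL (C ⊗[A] O)

/-- Sections of germs. -/
def SEC_s : Prop :=
  (∀ (A O σ : Type) [CommRing A] [SHL A] [CommRing O] [IsLocalRing O] [Algebra A O] (x : σ → O),
    IndX A x → Rs A O → Nonempty (O →ₐ[A] A)) ∧
  ∀ (A O : Type) [CommRing A] [SHL A] [CommRing O] [IsLocalRing O] [Algebra A O] [Algebra A[X] O]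
    [IsScalarTower A A[X] O], IndEt A[X] O → Rs A O → Nonempty (O →ₐ[A] A)

/-- Localised germs of the line over an aic domain are acyclic. -/
def STZ_s : Prop := ∀ (l : ℕ) [Fact l.Prime] (C D D' B : Type) [CommRing C] [IsDomain C]
  [IsLocalRing C] [CommRing D] [SHL D] [Algebra C D] [Algebra C[X] D] [IsScalarTower C C[X] D]
  [CommRing D'] [Algebra D D'] [CommRing B] [IsDomain B] (S : Submonoid C) [Lz S D D']
  (σ : D' →+* B), 0 ∉ S → Aic C → Aic B → IsUnit (l : C) → IndEt C[X] D → AB (ZM l) (spc σ)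

/-- Base change along one germ of the line, for a localisation of the base. -/
def STEP_s : Prop := ∀ (l : ℕ) [Fact l.Prime] (X : Scheme.{0}) (A O T O' : Type) [CommRing A]
  [SHL A] [CommRing O] [SHL O] [Algebra A O] [Algebra A[X] O] [IsScalarTower A A[X] O] [CommRing T]
  [Algebra A T] [CommRing O'] [Algebra O O'] [Algebra T O'] [Algebra A O'] [IsScalarTower A O O']
  [IsScalarTower A T O'] (S : Submonoid A) [IsLocalization S T] [Lz S O O']
  (u : Spec (.of T) ⟶ X) (F : Sh (Scheme.etaleTopology.over X)), IsUnit (l : A) → IndEt A[X] O → Rs A O → Tc l F →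
    HB (hm u (Algebra.ofId T O')) F

/-- Splitting off one coordinate. -/
def SPL_s : Prop := ∀ (A O σ : Type) [CommRing A] [SHL A] [CommRing O] [SHL O] [Algebra A O]
  (x : Option σ → O), IndX A x → Rs A O →
    ∃ (A₁ : Type) (_ : CommRing A₁) (_ : SHL A₁) (_ : Algebra A A₁) (_ : Algebra A[X] A₁)
      (_ : IsScalarTower A A[X] A₁) (_ : Algebra A₁ O) (_ : IsScalarTower A A₁ O),
      IndEt A[X] A₁ ∧ Rs A A₁ ∧ Rs A₁ O ∧ IndX A₁ fun i => x (some i)

/-- Base change along germs of affine space, for a localisation of the base. -/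
def GN_s : Prop := ∀ (l : ℕ) [Fact l.Prime] (X : Scheme.{0}) (σ : Type) [Finite σ]
  (A O T O' : Type) [CommRing A] [SHL A] [CommRing O] [SHL O] [Algebra A O] [CommRing T]
  [Algebra A T] [CommRing O'] [Algebra O O'] [Algebra T O'] [Algebra A O'] [IsScalarTower A O O']
  [IsScalarTower A T O'] (S : Submonoid A) [IsLocalization S T] [Lz S O O'] (x : σ → O)
  (u : Spec (.of T) ⟶ X) (F : Sh (Scheme.etaleTopology.over X)), IsUnit (l : A) → IndX A x → Rs A O → Tc l F →
    HB (hm u (Algebra.ofId T O')) F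

/-- Germs at the closed points of a smooth algebra over an aic domain. -/
def GERM_s : Prop := ∀ (C E : Type) [CommRing C] [IsDomain C] [CommRing E] [Algebra C E]
  [Algebra.Smooth C E] (I : Ideal E), Aic C → I ≠ ⊤ →
    ∃ (P : Ideal C) (_ : P.IsPrime) (O : Type) (_ : CommRing O) (_ : Algebra E O)
      (_ : Algebra (Localization.AtPrime P) O) (n : ℕ) (x : Fin n → O), SHL O ∧ IndEt E O ∧
      (∀ z ∈ I, ¬ IsUnit (algebraMap E O z)) ∧
      (∀ c : C, algebraMap E O (algebraMap C E c) =
        algebraMap (Localization.AtPrime P) O (algebraMap C _ c)) ∧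
      IndX (Localization.AtPrime P) x ∧ Rs (Localization.AtPrime P) O

/-- Local acyclicity of smooth algebras. -/
def ULA0_s : Prop := ∀ (l : ℕ) [Fact l.Prime] (C D D' : Type) [CommRing C] [IsDomain C]
  [CommRing D] [Algebra C D] [Algebra.Smooth C D] [CommRing D'] [Algebra D D'] [Gen C D D']
  (M : Ab.{1}), Aic C → IsUnit (l : C) → (∀ m : M, ∃ n : ℕ, l ^ n • m = 0) →
    AB M (spc (algebraMap D D'))

/-- From affine opens to a quasi-compact separated scheme. -/
def MVG_s : Prop := ∀ (M : Ab.{1}) (Y' Y : Scheme.{0}) (p : Y' ⟶ Y), CompactSpace Y →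
  Y.IsSeparated → (∀ U : Y.Opens, IsAffineOpen U → AB M (p ∣_ U)) → AB M p

/-- Local acyclicity of smooth morphisms. -/
def ULA_s : Prop := ∀ (l : ℕ) [Fact l.Prime] (C K : Type) [CommRing C] [IsDomain C] [Field K]
  [Algebra C K] [IsFractionRing C K] (Y' Y : Scheme.{0}) (y : Y ⟶ Spec (.of C)) [Smooth y]
  [QuasiCompact y] [IsSeparated y] (p : Y' ⟶ Y) (y' : Y' ⟶ Spec (.of K)) (M : Ab.{1}),
    IsPullback p y' y (spc (algebraMap C K)) → Aic C → IsUnit (l : C) →
    (∀ m : M, ∃ n : ℕ, l ^ n • m = 0) → AB M p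

/-- Smooth base change: the higher direct images of a constant sheaf are lisse. -/
def SBCX_s : Prop := ∀ (l : ℕ) [Fact l.Prime] (X Y : Scheme.{0}) (f : X ⟶ Y) [Smooth f]
  [QuasiCompact f] [IsSeparated f] (M : Ab.{1}), (∀ m : M, ∃ n : ℕ, l ^ n • m = 0) →
    ∀ q, Lis l ((Rq f q).obj ((cst X).obj M)).obj (top Y)

end Pool.Agent.MP_855f4c_ag.E.SB

end

section

set_option autoImplicit false
set_option backward.isDefEq.respectTransparency false

open CategoryTheory Limits Abelian Opposite AlgebraicGeometry TensorProduct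
open Function

namespace Pool.Agent.MP_855f4c_ag.E.SB

open E3 E4 SA

namespace DVS

lemma ab_sq (M : Ab.{1}) {T' T S' S : Scheme.{0}} (f : T' ⟶ T) (g : S' ⟶ S) (a : T' ≅ S')
    (b : T ≅ S) (h : a.hom ≫ g = f ≫ b.hom) (hf : AB M f) : AB M g := by
  let p : Over.mk (f ≫ b.hom) ⟶ Over.mk b.hom := Over.homMk f
  exact (hb_of_sq p (tp g) (Over.isoMk a h : Over.mk (f ≫ b.hom) ≅ Over.mk g).hom
    (Over.isoMk b (Category.comp_id _) : Over.mk b.hom ≅ top S).hom
    (Over.OverMorphism.ext h)).1 ((hb_cst_iff p M).2 hf)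

variable {T : Type} [CommRing T]

lemma pb_tens (C E : Type) [CommRing C] [CommRing E] [Algebra T C] [Algebra T E] :
    IsPullback (spc (Algebra.TensorProduct.includeRight : E →ₐ[T] C ⊗[T] E).toRingHom)
      (spc (Algebra.TensorProduct.includeLeftRingHom : C →+* C ⊗[T] E))
      (ob (𝟙 (Spec (.of T))) E).hom (spc (algebraMap T C)) := by
  have h := isPullback_SpecMap_of_isPushout _ _ _ _ (CommRingCat.isPushout_tensorProduct T C E)
  have e : (ob (𝟙 (Spec (.of T))) E).hom = spc (algebraMap T E) := Category.comp_id _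
  rw [e]
  exact h.flip

lemma base (C : Type) {E E' : Type} [CommRing C] [CommRing E] [CommRing E'] [Algebra T C]
    [Algebra T E] [Algebra T E'] (φ : E →ₐ[T] E') (M : Ab.{1})
    (h : AB M (spc (Algebra.TensorProduct.map (AlgHom.id T C) φ).toRingHom)) :
    HB ((Over.pullback (spc (algebraMap T C))).map (hm (𝟙 _) φ)) ((cst _).obj M) := by
  refine (hb_cst_iff _ M).2 (ab_sq M _ _ (pb_tens C E').isoPullback (pb_tens C E).isoPullback ?_ h)
  refine pullback.hom_ext ?_ ?_
  · rw [Category.assoc, Category.assoc, IsPullback.isoPullback_hom_fst]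
    refine (congrArg (_ ≫ ·) (pullback.lift_fst _ _ _)).trans ?_
    rw [← Category.assoc, IsPullback.isoPullback_hom_fst, hm_left, ← Spec.map_comp,
      ← Spec.map_comp]
    rfl
  · rw [Category.assoc, Category.assoc, IsPullback.isoPullback_hom_snd]
    refine (congrArg (_ ≫ ·) (pullback.lift_snd _ _ _)).trans ?_
    rw [IsPullback.isoPullback_hom_snd, ← Spec.map_comp]
    congr 2
    ext c
    exact ((Algebra.TensorProduct.map_tmul _ _ c 1).trans (by rw [map_one]; rfl)).symm

/-- Devissage on the spectrum of an aic ring. -/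
lemma dev (l : ℕ) [Fact l.Prime] (B : Type) [CommRing B] (hB : Aic B) (hl : IsUnit (l : B))
    {S' S : Over (Spec (.of B))} (g : S' ⟶ S) [Mono g] [IsAffine S'.left] [IsAffine S.left]
    (h : ∀ (q : Ideal B) [q.IsPrime],
      HB ((Over.pullback (spc (Ideal.Quotient.mk q))).map g) ((cst _).obj (ZM l)))
    (G : Sh (Scheme.etaleTopology.over (Spec (.of B)))) (hG : Tc l G) : HB g G := by
  have := PB.nmono _ _ _ g ‹_›
  have hfin : PB.ExtFin (cokernel ((fr (Scheme.etaleTopology.over (Spec (.of B)))).map g)) :=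
    (PB.du PB.nclo _ l).1 _ _ _ this (PB.ncol _ S' inferInstance inferInstance)
      (PB.ncol _ S inferInstance inferInstance)
  obtain ⟨D, hC, hT, hL⟩ := PB.devi PB.ngeo PB.npt PB.nclo (Spec (.of B)) l (Linv.spec hl)
    fun w => ⟨B, _, 𝟙 _, hB, inferInstance, w, rfl⟩
  refine hb_iff_extBij.2 ((PB.REL.bij_iff _ G).2 fun q => PB.devz _ (Spec (.of B)) D l Fact.out _
    (fun G _ s hs hc hK => ?_) (fun Z hZ hZ' => ?_) q G (hT G hG))
  · obtain ⟨K, hK, h⟩ := (PB.du PB.nclo _ l).2 _ hfin G s hs hc fun K h => (hC _).1 (hK K h)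
    exact ⟨K, (hC _).2 hK, h⟩
  · let q : Ideal B := PrimeSpectrum.vanishingIdeal (R := B) Z
    have : q.IsPrime := PrimeSpectrum.isIrreducible_iff_vanishingIdeal_isPrime.1 hZ
    let i := spc (Ideal.Quotient.mk q)
    have : IsClosedImmersion i := IsClosedImmersion.spec_of_surjective _ Ideal.Quotient.mk_surjective
    have hr : Set.range i = Z := by
      have h1 := range_comap_of_surjective _ (Ideal.Quotient.mk q)
        Ideal.Quotient.mk_surjective
      rw [Ideal.mk_ker, PrimeSpectrum.zeroLocus_vanishingIdeal_eq_closure] at h1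
      exact h1.trans hZ'.closure_eq
    have hL2 := PB.LZ.push i (PB.lc_lcSh (Spec (.of (B ⧸ q))) (ZMod l))
    rw [hr] at hL2
    refine ⟨_, hT _ (E4.pf_tc i ⟨E4.lc_cc _ _ l, E4.lc_tor _ _ l fun m =>
      ⟨1, ULift.ext _ _ (by simp)⟩⟩), (PB.REL.bij_iff _ _).1 (hb_iff_extBij.1 ?_), hL Z _ hL2⟩
    exact (hb_pf i _ g).2 ((h q).of_iso ((cstIso _).app _))

end DVS

open DVS in
theorem dvs : DVS_s := by
  intro l _ T B E E' _ _ _ _ _ _ _ _ φ hl hB hs hφ h F hF
  let ρ := spc (algebraMap T B)
  have : IsIntegralHom ρ := (IsIntegralHom.SpecMap_iff).2 (algebraMap_isIntegral_iff.2 ‹_›)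
  have : AlgebraicGeometry.Surjective ρ := ⟨hs⟩
  have hL : Linv l (Spec (.of T)) := Linv.spec hl
  have : IsClosedImmersion (hm (𝟙 (Spec (.of T))) φ).left :=
    IsClosedImmersion.spec_of_surjective _ hφ
  have : Mono (hm (𝟙 (Spec (.of T))) φ) := (Over.forget _).mono_of_mono_map
    (inferInstanceAs (Mono (hm (𝟙 (Spec (.of T))) φ).left))
  have key : ∀ G, Tc l G → HB ((Over.pullback ρ).map (hm (𝟙 _) φ)) G := by
    have : IsAffine ((Over.pullback ρ).obj (ob (𝟙 _) E)).left :=
      .of_isIso (pb_tens B E).isoPullback.inv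
    have : IsAffine ((Over.pullback ρ).obj (ob (𝟙 _) E')).left :=
      .of_isIso (pb_tens B E').isoPullback.inv
    refine dev l B hB (by simpa using hl.map (algebraMap T B)) _ fun q _ => ?_
    have e : spc (algebraMap T (B ⧸ q)) = spc (Ideal.Quotient.mk q) ≫ ρ := by
      rw [← Spec.map_comp]; rfl
    have h1 := base (B ⧸ q) φ (ZM l) (h q)
    rw [e] at h1
    let c := Over.pullbackComp (spc (Ideal.Quotient.mk q)) ρ
    exact (hb_of_sq _ _ (c.hom.app _) (c.hom.app _) (c.hom.naturality _).symm).1 h1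
  refine hb_iff_extBij.2 (emb _ (Tc l) (fun F hF => ?_) F hF)
  have hG := (PB.nclo _ l).2.2.2.2 _ ρ F hF
  have hT := E4.pf_tc ρ hG
  have := PB.PBC0.unit_mono ρ PB.npt PB.nclo hL hF.1 hT.1
  exact ⟨ShortComplex.mk _ _ (cokernel.condition (PB.PBC0.unit ρ F)),
    { exact := ShortComplex.exact_cokernel _ }, ⟨Iso.refl _⟩,
    hb_iff_extBij.1 ((hb_pf ρ _ _).2 (key _ hG)), (PB.nclo _ l).2.1 _ _ _ hF hT⟩

end Pool.Agent.MP_855f4c_ag.E.SB

end

section

/-! Section B, row ALG: aic covers, local base change, sections of germs. -/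

set_option autoImplicit false
set_option backward.isDefEq.respectTransparency false

open Polynomial IsLocalRing TensorProduct Function

namespace Pool.Agent.MP_855f4c_ag.E.SB

open E3 E4 SA

theorem cova : COVA_s := by
  intro A _
  obtain ⟨R, _, φ, hR, hφ⟩ := PB.WEX.cover A
  let := φ.toAlgebra
  refine ⟨integralClosure A R, inferInstance, inferInstance, hR.integralClosure A, inferInstance,
    fun p => ?_⟩
  obtain ⟨q, rfl⟩ := hφ p
  exact ⟨PrimeSpectrum.comap (algebraMap (integralClosure A R) R) q, rfl⟩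

theorem loct : LOCT_s := by
  intro A O C _ _ _ _ _ _ _ _ s
  let : Algebra O (C ⊗[A] O) := Algebra.TensorProduct.rightAlgebra
  have : Algebra.IsIntegral O (C ⊗[A] O) := by
    constructor
    intro d
    induction d using TensorProduct.induction_on with
    | zero => exact isIntegral_zero
    | tmul c o =>
      have e : c ⊗ₜ[A] o = (c ⊗ₜ[A] (1 : O)) * algebraMap O (C ⊗[A] O) o := by
        change _ = _ * ((1 : C) ⊗ₜ[A] o)
        simp
      rw [e]
      refine IsIntegral.mul ?_ isIntegral_algebraMap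
      exact ((Algebra.IsIntegral.isIntegral (R := A) c).map
        (Algebra.TensorProduct.includeLeft (S := A) (B := O))).tower_top
    | add a b ha hb => exact ha.add hb
  let σ : C ⊗[A] O →ₐ[C] C := Algebra.TensorProduct.lift (AlgHom.id C C)
    ((Algebra.ofId A C).comp s) fun _ _ => Commute.all _ _
  have hs : Surjective σ := fun c => ⟨algebraMap C _ c, σ.commutes c⟩
  have key : ∀ n : Ideal (C ⊗[A] O), n.IsMaximal → n = (maximalIdeal C).comap σ := by
    intro n hn
    have h1 : n.comap (algebraMap O _) = maximalIdeal O := eq_maximalIdeal inferInstance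
    have h2 : ∀ d, d - algebraMap C _ (σ d) ∈ n := by
      intro d
      induction d using TensorProduct.induction_on with
      | zero => simp
      | tmul c o =>
        have e : c ⊗ₜ[A] o - algebraMap C (C ⊗[A] O) (σ (c ⊗ₜ[A] o)) =
            (c ⊗ₜ[A] (1 : O)) * algebraMap O (C ⊗[A] O) (o - algebraMap A O (s o)) := by
          change _ = _ * ((1 : C) ⊗ₜ[A] _)
          rw [Algebra.TensorProduct.tmul_mul_tmul, mul_one, one_mul, TensorProduct.tmul_sub,
            Algebra.algebraMap_eq_smul_one (s o), TensorProduct.tmul_smul, TensorProduct.smul_tmul']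
          simp [σ, Algebra.smul_def, mul_comm]
        rw [e]
        refine n.mul_mem_left _ (Ideal.mem_comap.1 (h1 ▸ fun hu => ?_))
        have : Nontrivial A := (algebraMap A C).domain_nontrivial
        simpa using hu.map s
      | add a b ha hb => rw [map_add, map_add, add_sub_add_comm]; exact n.add_mem ha hb
    refine hn.eq_of_le (Ideal.comap_ne_top _ (maximalIdeal.isMaximal C).ne_top) fun d hd hu => ?_
    refine hn.ne_top (n.eq_top_of_isUnit_mem ?_ (hu.map (algebraMap C (C ⊗[A] O))))
    simpa using n.sub_mem hd (h2 d)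
  have : IsLocalRing (C ⊗[A] O) := .of_unique_max_ideal
    ⟨_, Ideal.comap_isMaximal_of_surjective σ hs, key⟩
  exact SHL.of_integral O _

namespace ALG

lemma sec (R A O : Type) [CommRing R] [CommRing A] [SHL A] [CommRing O] [IsLocalRing O]
    [Algebra A O] [Algebra R O] [Algebra A R] [IsScalarTower A R O] (H : IndEt R O) (h : Rs A O)
    (t : R →ₐ[A] A) (ht : ∀ y, residue O (algebraMap A O (t y)) = residue O (algebraMap R O y)) :
    Nonempty (O →ₐ[A] A) := by
  let := t.toRingHom.toAlgebra
  have := h.1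
  let r : A →ₐ[R] ResidueField O := ⟨(residue O).comp (algebraMap A O), ht⟩
  have : IsLocalHom r := ⟨fun a ha => isUnit_of_map_unit ((residue O).comp (algebraMap A O)) a ha⟩
  obtain ⟨ψ, -⟩ := SHL.lift H r (IsScalarTower.toAlgHom R O _)
  exact ⟨⟨ψ.toRingHom, fun a => by
    rw [IsScalarTower.algebraMap_apply A R O]
    exact (ψ.commutes _).trans (t.commutes a)⟩⟩

end ALG

theorem secs : SEC_s := by
  constructor
  · intro A O σ _ _ _ _ _ x H h
    choose a ha using h.2
    let := (MvPolynomial.aeval x : MvPolynomial σ A →ₐ[A] O).toRingHom.toAlgebra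
    have : IsScalarTower A (MvPolynomial σ A) O :=
      .of_algebraMap_eq fun c => ((MvPolynomial.aeval x).commutes c).symm
    refine ALG.sec (MvPolynomial σ A) A O H h (MvPolynomial.aeval fun i => a (x i)) fun y => ?_
    change _ = residue O (MvPolynomial.aeval x y)
    induction y using MvPolynomial.induction_on with
    | C c => simp
    | add p q hp hq => simp only [map_add, hp, hq]
    | mul_X p i hp =>
      simp only [map_mul, hp, MvPolynomial.aeval_X]
      congr 1
      rw [eq_comm, ← sub_eq_zero, ← map_sub, residue_eq_zero_iff]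
      exact ha _
  · intro A O _ _ _ _ _ _ _ H h
    obtain ⟨a, ha⟩ := h.2 (algebraMap A[X] O X)
    refine ALG.sec A[X] A O H h (aeval a) fun y => ?_
    induction y using Polynomial.induction_on' with
    | add p q hp hq => simp only [map_add, hp, hq]
    | monomial n c =>
      have e : residue O (algebraMap A O a) = residue O (algebraMap A[X] O X) := by
        rw [eq_comm, ← sub_eq_zero, ← map_sub, residue_eq_zero_iff]
        exact ha
      rw [← C_mul_X_pow_eq_monomial]
      simp only [map_mul, map_pow, aeval_X, aeval_C, e]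
      rw [IsScalarTower.algebraMap_apply A A[X] O]
      rfl

end Pool.Agent.MP_855f4c_ag.E.SB

end

section

/-! Row STZ: localised germs of the line over an aic domain are acyclic. -/

set_option autoImplicit false
set_option backward.isDefEq.respectTransparency false

open CategoryTheory Limits Abelian Opposite AlgebraicGeometry Polynomial IsLocalRing TensorProduct
open Function

namespace Pool.Agent.MP_855f4c_ag.E.SB

open E3 E4 SA

namespace STZ

section
variable {M : Ab.{1}} {A B C : Type} [CommRing A] [CommRing B] [CommRing C] (f : A →+* B)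
  (g : B →+* C)

/-- The arrow over `Spec A` given by `g`. -/
noncomputable def u1 : Over.mk (spc (g.comp f)) ⟶ Over.mk (spc f) :=
  Over.homMk (spc g) (by
    simp only [Over.mk_hom]
    rw [← Spec.map_comp, ← CommRingCat.ofHom_comp])

lemma u1_tp : u1 f g ≫ tp (spc f) = tp (spc (g.comp f)) :=
  Over.OverMorphism.ext (Over.w (u1 f g))

lemma comp (hf : AB M (spc f)) (hg : AB M (spc g)) : AB M (spc (g.comp f)) := by
  have := HB.comp ((hb_cst_iff (u1 f g) M).2 hg) hf
  rwa [u1_tp] at this

lemma left (h : AB M (spc (g.comp f))) (hg : AB M (spc g)) : AB M (spc f) :=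
  HB.of_comp_left (f := u1 f g) (by rw [u1_tp]; exact h) ((hb_cst_iff (u1 f g) M).2 hg)

lemma right (h : AB M (spc (g.comp f))) (hf : AB M (spc f)) : AB M (spc g) :=
  (hb_cst_iff (u1 f g) M).1 (HB.of_comp_right (by rw [u1_tp]; exact h) hf)
end

lemma la (h : LA_s) (l : ℕ) [Fact l.Prime] (C O O' : Type) [CommRing C] [IsDomain C] [CommRing O]
    [CommRing O'] [Algebra C O] [Algebra C[X] O] [IsScalarTower C C[X] O] [Algebra O O']
    [Gen C O O'] (hC : Aic C) (hl : IsUnit (l : C)) (H : IndEt C[X] O) :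
    AB (ZM l) (spc (algebraMap O O')) :=
  (hb_cst_iff (sph (algebraMap O O') (a := 𝟙 _) rfl) (ZM l)).1
    (h l _ C O O' (𝟙 _) (ZM l) hC hl H fun m => ⟨1, by
      rw [pow_one]
      exact ULift.ext _ _ (by
        change l • m.down = (0 : ZMod l)
        rw [nsmul_eq_mul, ZMod.natCast_self, zero_mul])⟩)

lemma loc (h : LA_s) (l : ℕ) [Fact l.Prime] (C D D' C' E : Type) [CommRing C] [IsDomain C]
    [CommRing D] [Algebra C D] [Algebra C[X] D] [IsScalarTower C C[X] D] [CommRing D']
    [Algebra D D'] (S : Submonoid C) [Lz S D D'] [CommRing C'] [Algebra C C'] [IsLocalization S C']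
    [CommRing E] [Algebra D E] [Gen C D E] (h0 : 0 ∉ S) (hC : Aic C) (hl : IsUnit (l : C))
    (H : IndEt C[X] D) : AB (ZM l) (spc (algebraMap D D')) := by
  have hS : S ≤ nonZeroDivisors C := le_nonZeroDivisors_of_noZeroDivisors h0
  have : IsDomain C' := IsLocalization.isDomain_of_le_nonZeroDivisors C' hS
  have hle : Algebra.algebraMapSubmonoid D S ≤
      Algebra.algebraMapSubmonoid D (nonZeroDivisors C) := Submonoid.monotone_map hS
  let : Algebra D' E := IsLocalization.localizationAlgebraOfSubmonoidLe D' E _ _ hle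
  have : IsScalarTower D D' E := IsLocalization.localization_isScalarTower_of_submonoid_le D' E _ _ hle
  have hu : ∀ s : S, IsUnit (((algebraMap D D').comp (algebraMap C D)) s) := fun s =>
    IsLocalization.map_units D' (⟨algebraMap C D s, s, s.2, rfl⟩ : Algebra.algebraMapSubmonoid D S)
  let : Algebra C' D' := (IsLocalization.lift (S := C') hu).toAlgebra
  have hc : ∀ c, algebraMap C' D' (algebraMap C C' c) = algebraMap D D' (algebraMap C D c) :=
    fun c => IsLocalization.lift_eq hu c
  let x : D' := algebraMap D D' (algebraMap C[X] D Polynomial.X)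
  let : Algebra C'[X] D' := (aeval x : C'[X] →ₐ[C'] D').toRingHom.toAlgebra
  have : IsScalarTower C' C'[X] D' :=
    IsScalarTower.of_algebraMap_eq fun v => ((aeval x : C'[X] →ₐ[C'] D').commutes v).symm
  let : Algebra C[X] D' := ((algebraMap D D').comp (algebraMap C[X] D)).toAlgebra
  have : IsScalarTower C[X] D D' := IsScalarTower.of_algebraMap_eq fun _ => rfl
  have H' : IndEt C'[X] D' := by
    refine IndEt.poly_loc S
      (H.comp (IndEt.of_isLocalization (Algebra.algebraMapSubmonoid D S))) 0 (fun b => ?_) ?_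
    · change algebraMap D D' (algebraMap C[X] D (Polynomial.C b)) = aeval x (Polynomial.C _)
      rw [aeval_C, hc, IsScalarTower.algebraMap_apply C C[X] D]
      rfl
    · change x = aeval x (Polynomial.X + Polynomial.C 0)
      rw [map_zero, add_zero, aeval_X]
  have hE := IsLocalization.isLocalization_of_submonoid_le D' E _ _ hle
  have : Gen C' D' E := by
    refine IsLocalization.of_le
      (M := (Algebra.algebraMapSubmonoid D (nonZeroDivisors C)).map (algebraMap D D')) _ ?_ ?_
    · rintro _ ⟨_, ⟨c, hc0, rfl⟩, rfl⟩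
      exact ⟨algebraMap C C' c, mem_nonZeroDivisors_of_ne_zero
        ((map_ne_zero_iff _ (IsLocalization.injective C' hS)).2 (nonZeroDivisors.ne_zero hc0)),
        hc c⟩
    · rintro _ ⟨b, hb, rfl⟩
      obtain ⟨⟨c, s⟩, e⟩ := IsLocalization.surj S b
      have hc0 : c ≠ 0 := by
        rintro rfl
        rw [map_zero] at e
        exact nonZeroDivisors.ne_zero hb ((IsLocalization.map_units C' s).mul_left_eq_zero.1 e)
      have hcu := IsLocalization.map_units E (⟨algebraMap C D c, c,
        mem_nonZeroDivisors_of_ne_zero hc0, rfl⟩ : Algebra.algebraMapSubmonoid D (nonZeroDivisors C))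
      rw [IsScalarTower.algebraMap_apply D D' E, ← hc, ← e, map_mul, map_mul] at hcu
      exact isUnit_of_mul_isUnit_left hcu
  refine left _ (algebraMap D' E) ?_
    (la h l C' D' E (hC.of_isLocalization S) (by simpa using hl.map (algebraMap C C')) H')
  rw [← IsScalarTower.algebraMap_eq]
  exact la h l C D E hC hl H

end STZ

theorem stz (h : LA_s) (ha : AFFV_s) : STZ_s := by
  intro l _ C D D' B _ _ _ _ _ _ _ _ _ _ _ _ S _ σ h0 hC hB hl H
  have := hC.shl
  exact STZ.right ((algebraMap D D').comp (algebraMap C D)) σ (aicb ha l _ hC hB hl)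
    (STZ.comp _ _ (ab_shl _ _) (STZ.loc h l C D D' (Localization S)
      (Localization (Algebra.algebraMapSubmonoid D (nonZeroDivisors C))) S h0 hC hl H))

end Pool.Agent.MP_855f4c_ag.E.SB

end

section

set_option autoImplicit false
set_option backward.isDefEq.respectTransparency false

open CategoryTheory Limits Abelian Opposite AlgebraicGeometry Polynomial IsLocalRing TensorProduct
open Function

namespace Pool.Agent.MP_855f4c_ag.E.SB

open E3 E4 SA

namespace STEP

attribute [local instance] Polynomial.algebra in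
lemma ind (A O C D : Type) [CommRing A] [CommRing O] [CommRing C] [CommRing D] [Algebra A O]
    [Algebra A[X] O] [IsScalarTower A A[X] O] [Algebra A C] [Algebra A D] [Algebra C D]
    [Algebra O D] [IsScalarTower A C D] [IsScalarTower A O D] [Algebra.IsPushout A O C D]
    (H : IndEt A[X] O) :
    ∃ (_ : Algebra C[X] D) (_ : IsScalarTower C C[X] D), IndEt C[X] D := by
  let : Algebra C[X] D := (aeval (algebraMap O D (algebraMap A[X] O X)) : C[X] →ₐ[C] D).toAlgebra
  have e (p : C[X]) : algebraMap C[X] D p = aeval (algebraMap O D (algebraMap A[X] O X)) p := rfl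
  have : IsScalarTower C C[X] D := .of_algebraMap_eq fun c => by rw [e, AlgHom.commutes]
  let : Algebra A[X] D := ((algebraMap O D).comp (algebraMap A[X] O)).toAlgebra
  have : IsScalarTower A[X] O D := .of_algebraMap_eq fun _ => rfl
  have : IsScalarTower A C[X] D := .of_algebraMap_eq fun a => by
    rw [IsScalarTower.algebraMap_apply A C C[X], ← IsScalarTower.algebraMap_apply C C[X] D,
      ← IsScalarTower.algebraMap_apply]
  have : IsScalarTower A[X] C[X] D := .of_algebraMap_eq' (Polynomial.ringHom_ext (fun a => by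
    change algebraMap O D (algebraMap A[X] O (algebraMap A A[X] a)) =
      algebraMap C[X] D (algebraMap A[X] C[X] (algebraMap A A[X] a))
    rw [← IsScalarTower.algebraMap_apply A A[X] O, ← IsScalarTower.algebraMap_apply A O D,
      ← IsScalarTower.algebraMap_apply A A[X] C[X], ← IsScalarTower.algebraMap_apply]) (by
    change algebraMap O D (algebraMap A[X] O X) = algebraMap C[X] D (X.map (algebraMap A C))
    rw [map_X, e, aeval_X]))
  have : Algebra.IsPushout A[X] O C[X] D :=
    (Algebra.IsPushout.comp_iff A A[X] C C[X] (T := O) (T' := D)).1 inferInstance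
  have : Algebra.IsPushout A[X] C[X] O D := .symm this
  exact ⟨inferInstance, inferInstance, H.of_isPushout C[X] D⟩

lemma loc (A O T O' C D Q D' : Type) [CommRing A] [CommRing O] [CommRing T] [CommRing O']
    [CommRing C] [CommRing D] [CommRing Q] [CommRing D'] [Algebra A O] [Algebra A T] [Algebra O O']
    [Algebra T O'] [Algebra A O'] [IsScalarTower A O O'] [IsScalarTower A T O'] (S : Submonoid A)
    [IsLocalization S T] [Lz S O O'] [Algebra A C] [Algebra A D] [Algebra C D] [Algebra O D]
    [IsScalarTower A C D] [IsScalarTower A O D] [Algebra.IsPushout A C O D] [Algebra A Q]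
    [Algebra T Q] [Algebra C Q] [IsScalarTower A T Q] [IsScalarTower A C Q] [Lz S C Q]
    [Algebra T D'] [Algebra Q D'] [Algebra O' D'] [IsScalarTower T Q D'] [IsScalarTower T O' D']
    [Algebra.IsPushout T Q O' D'] :
    ∃ _ : Algebra D D', Lz (Algebra.algebraMapSubmonoid C S) D D' := by
  let : Algebra A D' := ((algebraMap T D').comp (algebraMap A T)).toAlgebra
  let : Algebra O D' := ((algebraMap O' D').comp (algebraMap O O')).toAlgebra
  let : Algebra C D' := ((algebraMap Q D').comp (algebraMap C Q)).toAlgebra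
  have : IsScalarTower A T D' := .of_algebraMap_eq fun _ => rfl
  have : IsScalarTower O O' D' := .of_algebraMap_eq fun _ => rfl
  have : IsScalarTower C Q D' := .of_algebraMap_eq fun _ => rfl
  have : IsScalarTower A Q D' := .of_algebraMap_eq fun a => by
    rw [IsScalarTower.algebraMap_apply A T Q, ← IsScalarTower.algebraMap_apply T Q D']; rfl
  have : IsScalarTower A O' D' := .of_algebraMap_eq fun a => by
    rw [IsScalarTower.algebraMap_apply A T O', ← IsScalarTower.algebraMap_apply T O' D']; rfl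
  have : IsScalarTower A O D' := .of_algebraMap_eq fun a => by
    rw [IsScalarTower.algebraMap_apply A O' D', IsScalarTower.algebraMap_apply A O O']; rfl
  have : IsScalarTower A C D' := .of_algebraMap_eq fun a => by
    rw [IsScalarTower.algebraMap_apply A Q D', IsScalarTower.algebraMap_apply A C Q]; rfl
  let ψ : D →ₐ[A] D' := Algebra.pushoutDesc D (IsScalarTower.toAlgHom A C D')
    (IsScalarTower.toAlgHom A O D') fun _ _ => mul_comm _ _
  let : Algebra D D' := ψ.toAlgebra
  have : IsScalarTower C D D' := .of_algebraMap_eq fun c =>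
    (Algebra.pushoutDesc_left D (IsScalarTower.toAlgHom A C D') _ _ c).symm
  have : IsScalarTower O D D' := .of_algebraMap_eq fun c =>
    (Algebra.pushoutDesc_right D _ (IsScalarTower.toAlgHom A O D') _ c).symm
  have : IsScalarTower A D D' := .of_algebraMap_eq fun a => (ψ.commutes a).symm
  have : Algebra.IsPushout A T O O' := (Algebra.isPushout_of_isLocalization S T O O').symm
  have h1 : Algebra.IsPushout A Q O D' :=
    (Algebra.IsPushout.comp_iff A T O O' (T := Q) (T' := D')).2 inferInstance
  have h2 : Algebra.IsPushout C Q D D' :=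
    (Algebra.IsPushout.comp_iff A C O D (T := Q) (T' := D')).1 h1
  exact ⟨_, (Algebra.isLocalization_iff_isPushout _ Q).2 h2.symm⟩

attribute [local instance] Algebra.TensorProduct.rightAlgebra in
lemma core (h3 : LOCT_s) (h5 : STZ_s) (l : ℕ) [Fact l.Prime] (A O T O' C Q B : Type) [CommRing A]
    [SHL A] [CommRing O] [SHL O] [Algebra A O] [Algebra A[X] O] [IsScalarTower A A[X] O]
    [CommRing T] [Algebra A T] [CommRing O'] [Algebra O O'] [Algebra T O'] [Algebra A O']
    [IsScalarTower A O O'] [IsScalarTower A T O'] (S : Submonoid A) [IsLocalization S T]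
    [Lz S O O'] [CommRing C] [IsDomain C] [Algebra A C] [Algebra.IsIntegral A C] [CommRing Q]
    [Nontrivial Q] [Algebra A Q] [Algebra T Q] [Algebra C Q] [IsScalarTower A T Q]
    [IsScalarTower A C Q] [Lz S C Q] [CommRing B] [IsDomain B] (s : O →ₐ[A] A)
    (σ : Q ⊗[T] O' →+* B) (hl : IsUnit (l : A)) (hI : IndEt A[X] O) (hC : Aic C) (hB : Aic B) :
    AB (ZM l) (spc σ) := by
  have := SHL.isLocalRing_of_isDomain A (C := C)
  have := h3 A O C s
  have : Algebra.IsPushout A O C (C ⊗[A] O) := .symm inferInstance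
  obtain ⟨_, _, H⟩ := ind A O C (C ⊗[A] O) hI
  obtain ⟨_, _⟩ := loc A O T O' C (C ⊗[A] O) Q (Q ⊗[T] O') S
  refine h5 l C (C ⊗[A] O) _ B (Algebra.algebraMapSubmonoid C S) σ (fun h => ?_) hC hB
    (by simpa using hl.map (algebraMap A C)) H
  simpa using IsLocalization.map_units Q (⟨0, h⟩ : Algebra.algebraMapSubmonoid C S)

lemma quot (h3 : LOCT_s) (h5 : STZ_s) (l : ℕ) [Fact l.Prime] (A O T O' A' B : Type) [CommRing A]
    [SHL A] [CommRing O] [SHL O] [Algebra A O] [Algebra A[X] O] [IsScalarTower A A[X] O]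
    [CommRing T] [Algebra A T] [CommRing O'] [Algebra O O'] [Algebra T O'] [Algebra A O']
    [IsScalarTower A O O'] [IsScalarTower A T O'] (S : Submonoid A) [IsLocalization S T]
    [Lz S O O'] [CommRing A'] [Algebra A A'] [Algebra.IsIntegral A A'] [CommRing B] [Algebra A B]
    [Algebra T B] [Algebra A' B] [IsScalarTower A T B] [IsScalarTower A A' B] [Lz S A' B]
    (s : O →ₐ[A] A) (φ : O' →ₐ[T] T) (hl : IsUnit (l : A)) (hI : IndEt A[X] O) (hA : Aic A')
    (q : Ideal B) [q.IsPrime] :
    AB (ZM l) (spc (Algebra.TensorProduct.map (AlgHom.id T (B ⧸ q)) φ).toRingHom) := by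
  let p : Ideal A' := q.under A'
  have hB : Aic B := hA.of_isLocalization (Algebra.algebraMapSubmonoid A' S)
  have hQ : Aic (B ⧸ q) := hB.of_surjective _ Ideal.Quotient.mk_surjective
  let e := Algebra.TensorProduct.rid T T (B ⧸ q)
  have : IsDomain ((B ⧸ q) ⊗[T] T) := e.toMulEquiv.isDomain _
  have : IsScalarTower A (A' ⧸ p) (B ⧸ q) := .of_algebraMap_eq fun a => by
    change Ideal.Quotient.mk q (algebraMap A _ a) =
      Ideal.Quotient.mk q (algebraMap A' _ (algebraMap A A' a))
    rw [← IsScalarTower.algebraMap_apply]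
  have : Lz S (A' ⧸ p) (B ⧸ q) := by
    have := IsLocalization.of_surjective (Algebra.algebraMapSubmonoid A' S) B
      (Ideal.Quotient.mk p) Ideal.Quotient.mk_surjective (Ideal.Quotient.mk q)
      Ideal.Quotient.mk_surjective rfl (by
        rw [Ideal.mk_ker, Ideal.mk_ker,
          IsLocalization.map_under (Algebra.algebraMapSubmonoid A' S) B q])
    have e : (Algebra.algebraMapSubmonoid A' S).map (Ideal.Quotient.mk p) =
        Algebra.algebraMapSubmonoid (A' ⧸ p) S := by
      ext x
      exact ⟨fun ⟨_, ⟨a, ha, e⟩, h⟩ => ⟨a, ha, by rw [← h, ← e]; rfl⟩,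
        fun ⟨a, ha, h⟩ => ⟨_, ⟨a, ha, rfl⟩, h⟩⟩
    rwa [e] at this
  exact core h3 h5 l A O T O' (A' ⧸ p) (B ⧸ q) _ S s _ hl hI
    (hA.of_surjective _ Ideal.Quotient.mk_surjective)
    (hQ.of_surjective (e.symm : B ⧸ q →+* _) e.symm.surjective)

lemma surj (A T A' : Type) [CommRing A] [CommRing T] [CommRing A'] [Algebra A T] [Algebra A A']
    (h : Surjective (PrimeSpectrum.comap (algebraMap A A'))) :
    Surjective (PrimeSpectrum.comap (algebraMap T (T ⊗[A] A'))) :=
  (MorphismProperty.of_isPullback (P := @AlgebraicGeometry.Surjective)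
    (isPullback_SpecMap_of_isPushout _ _ _ _ (CommRingCat.isPushout_tensorProduct A T A')).flip
    ⟨h⟩).1

end STEP

open STEP in
theorem step (h1 : DVS_s) (h2 : COVA_s) (h3 : LOCT_s) (h4 : SEC_s) (h5 : STZ_s) : STEP_s := by
  intro l _ X A O T O' _ _ _ _ _ _ _ _ _ _ _ _ _ _ _ S _ _ u F hl hI hR hF
  obtain ⟨s⟩ := h4.2 A O hI hR
  obtain ⟨A', _, _, hA, _, hs⟩ := h2 A
  have hu : ∀ y : Algebra.algebraMapSubmonoid O S, IsUnit ((algebraMap A T).comp (s : O →+* A) y) := by
    rintro ⟨_, a, ha, rfl⟩
    simpa using IsLocalization.map_units T (⟨a, ha⟩ : S)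
  let φ : O' →ₐ[T] T :=
    { IsLocalization.lift hu with
      commutes' := fun t => RingHom.congr_fun (IsLocalization.ringHom_ext S
        (j := (IsLocalization.lift hu).comp (algebraMap T O')) (k := RingHom.id T)
        (RingHom.ext fun a => by
          simp [← IsScalarTower.algebraMap_apply A T O', IsScalarTower.algebraMap_apply A O O'])) t }
  let : Algebra A' (T ⊗[A] A') := Algebra.TensorProduct.rightAlgebra
  have : Lz S A' (T ⊗[A] A') := IsLocalization.tensorRight T S
  have H := h1 l T (T ⊗[A] A') O' T φ (by simpa using hl.map (algebraMap A T))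
    (hA.of_isLocalization (Algebra.algebraMapSubmonoid A' S)) (surj A T A' hs) (fun t => ⟨_, φ.commutes t⟩)
    (fun q _ => quot h3 h5 l A O T O' A' _ S s φ hl hI hA q) _ (hF.pb u)
  have H' : HB (hm u φ) F := hb_of_con fun N => (con_hm_pb u φ).1 (H.con _)
  refine HB.of_comp_left ?_ H'
  rw [← hm_comp, show φ.comp (Algebra.ofId T O') = AlgHom.id T T from Subsingleton.elim _ _, hm_id]
  exact hb_of_isIso _ _

end Pool.Agent.MP_855f4c_ag.E.SB

end

section

/-! Section B, row SPL: splitting off one coordinate of a germ of affine space. -/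

set_option autoImplicit false
set_option backward.isDefEq.respectTransparency false

open Polynomial IsLocalRing Function

namespace Pool.Agent.MP_855f4c_ag.E.SB

open E3 E4 SA

namespace SPL

lemma indX_base {A O σ : Type} [CommRing A] [CommRing O] [Algebra A O] [Algebra A[X] O]
    [IsScalarTower A A[X] O] (x : Option σ → O) (h0 : algebraMap A[X] O X = x none)
    (H : IndX A x) : IndX A[X] fun i => x (some i) := by
  let : Algebra (MvPolynomial (Option σ) A) O :=
    (MvPolynomial.aeval x : MvPolynomial (Option σ) A →ₐ[A] O).toRingHom.toAlgebra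
  let e := MvPolynomial.optionEquivRight A σ
  refine indEt_of_bijective (R := MvPolynomial (Option σ) A) H _ e.symm.toRingEquiv.toRingHom
    e.symm.bijective fun r => ?_
  obtain ⟨r, rfl⟩ := e.surjective r
  have : ((MvPolynomial.aeval fun i => x (some i) : MvPolynomial σ A[X] →ₐ[A[X]] O).restrictScalars
      A).comp e.toAlgHom = MvPolynomial.aeval x := by
    refine MvPolynomial.algHom_ext fun o => ?_
    cases o with
    | none => simp [e, h0]
    | some i => simp [e]
  have h := congr($this r)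
  exact h.trans (congrArg (MvPolynomial.aeval x) (e.symm_apply_apply r).symm)

attribute [local instance] MvPolynomial.algebraMvPolynomial in
lemma indX_cancel {R A₁ O σ : Type} [CommRing R] [CommRing A₁] [CommRing O] [Algebra R A₁]
    [Algebra R O] [Algebra A₁ O] [IsScalarTower R A₁ O] (y : σ → O) (H₁ : IndEt R A₁)
    (H : IndX R y) : IndX A₁ y := by
  let : Algebra (MvPolynomial σ R) O :=
    (MvPolynomial.aeval y : MvPolynomial σ R →ₐ[R] O).toRingHom.toAlgebra
  let : Algebra (MvPolynomial σ A₁) O :=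
    (MvPolynomial.aeval y : MvPolynomial σ A₁ →ₐ[A₁] O).toRingHom.toAlgebra
  have : IsScalarTower (MvPolynomial σ R) (MvPolynomial σ A₁) O :=
    IsScalarTower.of_algebraMap_eq fun r =>
      (MvPolynomial.aeval_map_algebraMap A₁ y r).symm
  exact IndEt.cancel (H₁.of_isPushout (MvPolynomial σ R) (MvPolynomial σ A₁)) H

end SPL

theorem splx : SPL_s := by
  intro A O σ _ _ _ _ _ x H hR
  let : Algebra A[X] O := (aeval (x none) : A[X] →ₐ[A] O).toRingHom.toAlgebra
  have : IsScalarTower A A[X] O :=
    IsScalarTower.of_algebraMap_eq fun a => ((aeval (x none) : A[X] →ₐ[A] O).commutes a).symm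
  have : IsSepClosed (ResidueField O) := SHL.isSepClosed
  obtain ⟨A₁, _, _, _, _, _, H₁, hl⟩ := exists_SH A[X] (ResidueField O)
  have : IsLocalHom (IsScalarTower.toAlgHom A[X] O (ResidueField O)) :=
    ⟨fun a ha => isUnit_of_map_unit (residue O) a ha⟩
  obtain ⟨ψ, hψ⟩ := SHL.lift H₁ (IsScalarTower.toAlgHom A[X] O (ResidueField O))
    (IsScalarTower.toAlgHom A[X] A₁ (ResidueField O))
  let : Algebra A A₁ := ((algebraMap A[X] A₁).comp (algebraMap A A[X])).toAlgebra
  have : IsScalarTower A A[X] A₁ := IsScalarTower.of_algebraMap_eq fun _ => rfl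
  let : Algebra A₁ O := ψ.toRingHom.toAlgebra
  have : IsScalarTower A[X] A₁ O := IsScalarTower.of_algebraMap_eq fun r => (ψ.commutes r).symm
  have : IsScalarTower A A₁ O := IsScalarTower.of_algebraMap_eq fun a => by
    rw [IsScalarTower.algebraMap_apply A A[X] A₁, ← IsScalarTower.algebraMap_apply,
      ← IsScalarTower.algebraMap_apply]
  have hloc : IsLocalHom (algebraMap A₁ O) := ⟨fun a ha => by
    refine isUnit_of_map_unit (algebraMap A₁ (ResidueField O)) a ?_
    have h := congr($hψ a)
    exact h ▸ ha.map (IsScalarTower.toAlgHom A[X] O (ResidueField O))⟩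
  refine ⟨A₁, inferInstance, inferInstance, inferInstance, inferInstance, inferInstance,
    inferInstance, inferInstance, H₁, ⟨⟨fun a ha => ?_⟩, fun z => ?_⟩, ⟨hloc, fun z => ?_⟩,
    SPL.indX_cancel _ H₁ (SPL.indX_base x (aeval_X _) H)⟩
  · refine hR.1.1 a ?_
    rw [IsScalarTower.algebraMap_apply A A₁ O]
    exact ha.map _
  · obtain ⟨a, ha⟩ := hR.2 (algebraMap A₁ O z)
    refine ⟨a, fun h => ha ?_⟩
    rw [IsScalarTower.algebraMap_apply A A₁ O, ← map_sub]
    exact h.map _
  · obtain ⟨a, ha⟩ := hR.2 z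
    exact ⟨algebraMap A A₁ a, by rwa [← IsScalarTower.algebraMap_apply]⟩

end Pool.Agent.MP_855f4c_ag.E.SB

end

section

/-! Section B, row GN: base change along germs of affine space. -/

set_option autoImplicit false
set_option backward.isDefEq.respectTransparency false

open CategoryTheory Limits Abelian Opposite AlgebraicGeometry Polynomial IsLocalRing TensorProduct
open Function

namespace Pool.Agent.MP_855f4c_ag.E.SB

open E3 E4 SA

namespace GN

/-- the statement for a fixed index type -/
def P (l : ℕ) (X : Scheme.{0}) (F : Sh (Scheme.etaleTopology.over X)) (σ : Type) : Prop :=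
  ∀ (A O T O' : Type) [CommRing A] [SHL A] [CommRing O] [SHL O] [Algebra A O] [CommRing T]
  [Algebra A T] [CommRing O'] [Algebra O O'] [Algebra T O'] [Algebra A O'] [IsScalarTower A O O']
  [IsScalarTower A T O'] (S : Submonoid A) [IsLocalization S T] [Lz S O O'] (x : σ → O)
  (u : Spec (.of T) ⟶ X), IsUnit (l : A) → IndX A x → Rs A O → HB (hm u (Algebra.ofId T O')) F

variable {l : ℕ} {X : Scheme.{0}} {F : Sh (Scheme.etaleTopology.over X)}

theorem equiv {α β : Type} (e : α ≃ β) (h : P l X F α) : P l X F β := by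
  intro A O T O' _ _ _ _ _ _ _ _ _ _ _ _ _ S _ _ x u hl hx hr
  refine h A O T O' S (x ∘ e) u hl ?_ hr
  exact @indEt_of_bijective _ _ _ _ _ _ (_) hx (_) (MvPolynomial.renameEquiv A e).toRingHom
    (MvPolynomial.renameEquiv A e).bijective fun p => (MvPolynomial.aeval_rename e x p).symm

theorem hb_bij {R B : Type} [CommRing R] [CommRing B] [Algebra R B] (u : Spec (.of R) ⟶ X)
    (h : Bijective (algebraMap R B)) : HB (hm u (Algebra.ofId R B)) F :=
  have : IsIso (hm u (Algebra.ofId R B)) :=
    ⟨hm u ((AlgEquiv.ofBijective (Algebra.ofId R B) h).symm : B →ₐ[R] R), by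
      rw [← hm_comp, ← hm_id]
      exact congrArg _ (AlgHom.ext (AlgEquiv.ofBijective (Algebra.ofId R B) h).apply_symm_apply), by
      rw [← hm_comp, ← hm_id]
      exact congrArg _ (Subsingleton.elim _ _)⟩
  hb_of_isIso _ F

theorem hb_base {R : Type} [CommRing R] (u : Spec (.of R) ⟶ X) (A D D' : Type) [CommRing A]
    [CommRing D] [CommRing D'] [Algebra R A] [Algebra A D] [Algebra R D] [IsScalarTower R A D]
    [Algebra A D'] [Algebra R D'] [IsScalarTower R A D'] (φ : D →ₐ[A] D') :
    HB (hm (spc (algebraMap R A) ≫ u) φ) F ↔ HB (hm u (φ.restrictScalars R)) F :=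
  hb_of_sq _ _ (obIso u A D').hom (obIso u A D).hom (Over.OverMorphism.ext
    ((Category.id_comp _).trans ((congrArg spc (RingHom.ext fun _ => rfl :
      (φ.restrictScalars R : D →+* D') = (φ : D →+* D'))).trans (Category.comp_id _).symm)))

theorem empty (h3 : SEC_s) : P l X F PEmpty := by
  intro A O T O' _ _ _ _ _ _ _ _ _ _ _ _ _ S _ _ x u _ hx hr
  obtain ⟨s⟩ := h3.1 A O _ x hx hr
  have H : IndEt A O := @indEt_of_bijective _ _ _ _ _ _ (_) hx (_) MvPolynomial.C
    (MvPolynomial.isEmptyRingEquiv A PEmpty).symm.bijective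
    fun a => (MvPolynomial.aeval_C x a).symm
  have e : (Algebra.ofId A O).comp s = AlgHom.id A O := H.ext (residue O) fun z => by
    rw [eq_comm, ← sub_eq_zero, ← map_sub, residue_eq_zero_iff, mem_maximalIdeal, mem_nonunits_iff]
    intro hu
    have := hu.map s
    simp at this
  have hb : Bijective (algebraMap A O) :=
    ⟨LeftInverse.injective s.commutes, fun z => ⟨s z, congr($e z)⟩⟩
  have : IsLocalization S O' := IsLocalization.of_ringEquiv_left
    (M₁ := Algebra.algebraMapSubmonoid O S) (RingEquiv.ofBijective _ hb) rfl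
    (IsScalarTower.algebraMap_apply A O O')
  refine hb_bij u ?_
  have e2 : IsScalarTower.toAlgHom A T O' = (IsLocalization.algEquiv S T O' : T →ₐ[A] O') :=
    IsLocalization.algHom_ext S (Subsingleton.elim _ _)
  have e3 : ⇑(algebraMap T O') = IsLocalization.algEquiv S T O' := funext fun t => congr($e2 t)
  rw [e3]
  exact (IsLocalization.algEquiv S T O').bijective

theorem option [Fact l.Prime] (h1 : STEP_s) (h2 : SPL_s) (hF : Tc l F) {σ : Type}
    (h : P l X F σ) : P l X F (Option σ) := by
  intro A O T O' _ _ _ _ _ _ _ _ _ _ _ _ _ S _ _ x u hl hx hr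
  obtain ⟨A₁, _, _, _, _, _, _, _, i1, r1, r2, i2⟩ := h2 A O σ x hx hr
  let S₁ := Algebra.algebraMapSubmonoid A₁ S
  let T₁ := Localization S₁
  have eS : Algebra.algebraMapSubmonoid O S₁ = Algebra.algebraMapSubmonoid O S := by
    ext z
    constructor
    · rintro ⟨_, ⟨a, ha, rfl⟩, rfl⟩
      exact ⟨a, ha, IsScalarTower.algebraMap_apply A A₁ O a⟩
    · rintro ⟨a, ha, rfl⟩
      exact ⟨_, ⟨a, ha, rfl⟩, (IsScalarTower.algebraMap_apply A A₁ O a).symm⟩
  have : Lz S₁ O O' := by unfold Lz; rw [eS]; infer_instance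
  let : Algebra A₁ O' := ((algebraMap O O').comp (algebraMap A₁ O)).toAlgebra
  have : IsScalarTower A₁ O O' := .of_algebraMap_eq fun _ => rfl
  have u1 : ∀ y : S, IsUnit (algebraMap A T₁ y) := fun y =>
    IsLocalization.map_units T₁ (⟨_, Algebra.mem_algebraMapSubmonoid_of_mem (S := A₁) y⟩ : S₁)
  have u2 : ∀ y : S₁, IsUnit (algebraMap A₁ O' y) := fun y =>
    IsLocalization.map_units O' (⟨_, Algebra.mem_algebraMapSubmonoid_of_mem (S := O) y⟩ :
      Algebra.algebraMapSubmonoid O S₁)
  let : Algebra T T₁ := (IsLocalization.lift (S := T) u1).toAlgebra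
  have : IsScalarTower A T T₁ := .of_algebraMap_eq fun a => (IsLocalization.lift_eq u1 a).symm
  let : Algebra T₁ O' := (IsLocalization.lift (S := T₁) u2).toAlgebra
  have : IsScalarTower A₁ T₁ O' := .of_algebraMap_eq fun a => (IsLocalization.lift_eq u2 a).symm
  have : IsScalarTower T T₁ O' := .of_algebraMap_eq' (IsLocalization.ringHom_ext S
    (RingHom.ext fun a => by
      change algebraMap T O' (algebraMap A T a) =
        algebraMap T₁ O' (algebraMap T T₁ (algebraMap A T a))
      rw [← IsScalarTower.algebraMap_apply A T O', ← IsScalarTower.algebraMap_apply A T T₁,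
        IsScalarTower.algebraMap_apply A A₁ T₁, ← IsScalarTower.algebraMap_apply A₁ T₁ O',
        IsScalarTower.algebraMap_apply A₁ O O', ← IsScalarTower.algebraMap_apply A A₁ O,
        ← IsScalarTower.algebraMap_apply A O O']))
  have b1 := h1 l X A A₁ T T₁ S u F hl i1 r1 hF
  have b2 := h A₁ O T₁ O' S₁ _ (spc (algebraMap T T₁) ≫ u)
    (by simpa using hl.map (algebraMap A A₁)) i2 r2
  have b3 := (hb_base u T₁ T₁ O' (Algebra.ofId T₁ O')).1 b2
  rw [Subsingleton.elim (Algebra.ofId T O') (((Algebra.ofId T₁ O').restrictScalars T).comp (Algebra.ofId T T₁)), hm_comp]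
  exact b3.comp b1

end GN

theorem gn (h1 : STEP_s) (h2 : SPL_s) (h3 : SEC_s) : GN_s := by
  intro l _ X σ _ A O T O' _ _ _ _ _ _ _ _ _ _ _ _ _ S _ _ x u F hl hx hr hF
  exact Finite.induction_empty_option (P := GN.P l X F) GN.equiv (GN.empty h3)
    (fun h => GN.option h1 h2 hF h) σ A O T O' S x u hl hx hr

end Pool.Agent.MP_855f4c_ag.E.SB

end

section

/-! Section B, row GERM: germs at the closed points of a smooth algebra over an aic domain. -/

set_option autoImplicit false
set_option backward.isDefEq.respectTransparency false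

open IsLocalRing

namespace Pool.Agent.MP_855f4c_ag.E.SB

open E3

namespace GERM

/-- Ind-etaleness over affine space passes to a localisation of the base. -/
theorem mv_loc {B V O σ : Type} [CommRing B] [CommRing V] [CommRing O] [Algebra B V]
    (M : Submonoid B) [IsLocalization M V] [Algebra (MvPolynomial σ B) O] [Algebra V O]
    (H : IndEt (MvPolynomial σ B) O)
    (hC : ∀ b, algebraMap (MvPolynomial σ B) O (MvPolynomial.C b) =
      algebraMap V O (algebraMap B V b)) :
    IndX V fun i => algebraMap (MvPolynomial σ B) O (MvPolynomial.X i) := by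
  let : Algebra (MvPolynomial σ B) (MvPolynomial σ V) := MvPolynomial.algebraMvPolynomial
  have h0 := MvPolynomial.isLocalization (σ := σ) M V
  let : Algebra (MvPolynomial σ V) O := (MvPolynomial.aeval
    (fun i => algebraMap (MvPolynomial σ B) O (MvPolynomial.X i)) :
      MvPolynomial σ V →ₐ[V] O).toRingHom.toAlgebra
  have : IsScalarTower (MvPolynomial σ B) (MvPolynomial σ V) O :=
    IsScalarTower.of_algebraMap_eq' (by
      refine MvPolynomial.ringHom_ext (fun b => ?_) fun i => ?_
      · rw [hC]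
        simp [RingHom.algebraMap_toAlgebra]
      · simp [RingHom.algebraMap_toAlgebra])
  exact (IndEt.of_isLocalization (M.map (MvPolynomial.C (σ := σ)))).cancel H

end GERM

theorem germ : GERM_s := by
  intro B R _ _ _ _ _ I hB hI
  obtain ⟨q, hq, hIq⟩ := Ideal.exists_le_maximal I hI
  let P : Ideal B := q.under B
  let V := Localization.AtPrime P
  let κ := P.ResidueField
  have : IsAlgClosed κ := (hB.of_isLocalization (S := V) P.primeCompl).isAlgClosed_residue
  obtain ⟨φ, hφ⟩ := exists_closed_point (κ := κ) (K := q.ResidueField)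
    (Ideal.ResidueField.mapₐ P q (Algebra.ofId B R) rfl) (IsScalarTower.toAlgHom B R q.ResidueField)
  let : Algebra R κ := φ.toRingHom.toAlgebra
  obtain ⟨O, _, _, _, _, hO, hind, hloc⟩ := exists_SH R κ
  have hev : ∀ z : R, algebraMap O κ (algebraMap R O z) = φ z := fun z =>
    (IsScalarTower.algebraMap_apply R O κ z).symm
  have hnu : ∀ y : O, algebraMap O κ y = 0 → ¬ IsUnit y := fun y hy hu =>
    (hu.map (algebraMap O κ)).ne_zero hy
  have hun : ∀ b : P.primeCompl, IsUnit (((algebraMap R O).comp (algebraMap B R)) b) := fun b => by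
    refine isUnit_of_map_unit (algebraMap O κ) _ (isUnit_iff_ne_zero.2 ?_)
    rw [RingHom.comp_apply, hev, φ.commutes, Ne, Ideal.algebraMap_residueField_eq_zero]
    exact b.2
  let σ : V →+* O := IsLocalization.lift hun
  have hσ : ∀ b : B, σ (algebraMap B V b) = algebraMap R O (algebraMap B R b) := fun b =>
    IsLocalization.lift_eq hun b
  have hres : (algebraMap O κ).comp σ = residue V := by
    refine IsLocalization.ringHom_ext P.primeCompl (RingHom.ext fun b => ?_)
    rw [RingHom.comp_apply, RingHom.comp_apply, hσ, hev, φ.commutes]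
    rfl
  have hres' : ∀ v : V, algebraMap O κ (σ v) = residue V v := fun v => congr($hres v)
  let p : Ideal R := RingHom.ker φ.toRingHom
  have : p.IsPrime := RingHom.ker_isPrime _
  have : Algebra.IsSmoothAt B p := Algebra.FormallySmooth.comp B R (Localization.AtPrime p)
  obtain ⟨f, hf, n, _, _, _⟩ := Algebra.IsSmoothAt.exists_isStandardEtale_mvPolynomial (R := B)
    (p := p)
  have hfu : IsUnit (algebraMap R O f) := by
    refine isUnit_of_map_unit (algebraMap O κ) _ (isUnit_iff_ne_zero.2 ?_)
    rw [hev]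
    exact hf
  let τ : Localization.Away f →+* O := IsLocalization.Away.lift f hfu
  have hτ : ∀ z : R, τ (algebraMap R _ z) = algebraMap R O z := fun z =>
    IsLocalization.Away.lift_eq f hfu z
  let : Algebra (Localization.Away f) O := τ.toAlgebra
  have : IsScalarTower R (Localization.Away f) O :=
    IsScalarTower.of_algebraMap_eq fun z => (hτ z).symm
  let : Algebra (MvPolynomial (Fin n) B) O :=
    (τ.comp (algebraMap (MvPolynomial (Fin n) B) (Localization.Away f))).toAlgebra
  have : IsScalarTower (MvPolynomial (Fin n) B) (Localization.Away f) O :=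
    IsScalarTower.of_algebraMap_eq fun _ => rfl
  have h1 : IndEt (Localization.Away f) O :=
    (IndEt.of_isLocalization (Submonoid.powers f)).cancel hind
  have h2 : IndEt (MvPolynomial (Fin n) B) O := IndEt.etale_comp (Localization.Away f) h1
  let : Algebra V O := σ.toAlgebra
  refine ⟨P, inferInstance, O, inferInstance, inferInstance, inferInstance, n, _, hO, hind,
    fun z hz => hnu _ ?_, fun b => (hσ b).symm, GERM.mv_loc P.primeCompl h2 fun b => ?_,
    ⟨fun v hv => ?_⟩, fun z => ?_⟩
  · rw [hev]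
    exact hφ z (Ideal.algebraMap_residueField_eq_zero.2 (hIq hz))
  · refine Eq.trans ?_ (hσ b).symm
    rw [← hτ, ← IsScalarTower.algebraMap_apply B R (Localization.Away f),
      IsScalarTower.algebraMap_apply B (MvPolynomial (Fin n) B) (Localization.Away f)]
    rfl
  · have h3 := hv.map (algebraMap O κ)
    exact isUnit_of_map_unit (residue V) v (hres' v ▸ h3)
  · obtain ⟨a, ha⟩ := residue_surjective (R := V) (algebraMap O κ z)
    refine ⟨a, hnu _ ?_⟩
    rw [map_sub, ← ha]
    exact sub_eq_zero.2 (hres' a).symm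

end Pool.Agent.MP_855f4c_ag.E.SB

end

section

/-! Section B, row ULA0. -/

set_option autoImplicit false
set_option backward.isDefEq.respectTransparency false

open CategoryTheory Limits Abelian Opposite AlgebraicGeometry Polynomial IsLocalRing TensorProduct
open Function

namespace Pool.Agent.MP_855f4c_ag.E.SB

open E3 E4 SA

namespace Ula0

lemma tri (M : Ab.{1}) (V K O O' : Type) [CommRing V] [CommRing K] [CommRing O] [CommRing O']
    [Algebra V K] [Algebra V O] [Algebra V O'] [Algebra K O'] [Algebra O O'] [IsScalarTower V K O']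
    [IsScalarTower V O O'] [SHL V] [SHL K] [SHL O] (h : AB M (spc (algebraMap K O'))) :
    AB M (spc (algebraMap O O')) := by
  let u := 𝟙 (Spec (.of V))
  have h1 := (hb_cst_iff (hm u (up V K O')) M).2 h
  have h2 := (hb_cst_iff (hm u (up V V K)) M).2 (ab_shl M (algebraMap V K))
  have h3 := (hb_cst_iff (hm u (up V V O)) M).2 (ab_shl M (algebraMap V O))
  have e : hm u (up V K O') ≫ hm u (up V V K) = hm u (up V O O') ≫ hm u (up V V O) := by
    rw [← hm_comp, ← hm_comp]
    exact congrArg _ (Subsingleton.elim _ _)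
  have h4 := h1.comp h2
  rw [e] at h4
  exact (hb_cst_iff (hm u (up V O O')) M).1 (h4.of_comp_right h3)

lemma germ (h1 : GN_s) (l : ℕ) [Fact l.Prime] (M : Ab.{1}) (hM : ∀ m : M, ∃ n : ℕ, l ^ n • m = 0)
    (V O O' : Type) [CommRing V] [IsDomain V] [IsLocalRing V] [CommRing O] [SHL O] [Algebra V O]
    [CommRing O'] [Algebra O O'] [Gen V O O'] (hV : Aic V) (hl : IsUnit (l : V)) {n : ℕ}
    (x : Fin n → O) (hx : IndX V x) (hr : Rs V O) : AB M (spc (algebraMap O O')) := by
  let K := FractionRing V
  have := hV.shl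
  have := (hV.of_isLocalization (S := K) (nonZeroDivisors V)).shl
  let : Algebra V O' := ((algebraMap O O').comp (algebraMap V O)).toAlgebra
  have : IsScalarTower V O O' := .of_algebraMap_eq fun _ => rfl
  have hu (s : nonZeroDivisors V) : IsUnit (algebraMap V O' s) :=
    IsLocalization.map_units (M := Algebra.algebraMapSubmonoid O (nonZeroDivisors V)) O'
      ⟨_, s, s.2, rfl⟩
  let : Algebra K O' := (IsLocalization.lift hu).toAlgebra
  have : IsScalarTower V K O' := .of_algebraMap_eq fun v => (IsLocalization.lift_eq hu v).symm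
  exact tri M V K O O' ((hb_cst_iff (hm (𝟙 _) (Algebra.ofId K O')) M).1
    (h1 l _ (Fin n) V O K O' (nonZeroDivisors V) x (𝟙 _) _ hl hx hr (cst_Tc M hM)))

end Ula0

theorem ula0 (h1 : GN_s) (h2 : GERM_s) : ULA0_s := by
  intro l _ C D D' _ _ _ _ _ _ _ _ M hC hl hM
  let u := 𝟙 (Spec (.of D))
  refine (hb_cst_iff (hm u (up D D D')) M).1 (hb_of_con fun N => ?_)
  refine ltg _ _ (cst_Tc (l := l) M hM).1.1 D u (ob u D') _
    (inferInstanceAs (CompactSpace (Spec (.of D'))))
    (inferInstanceAs (Spec (.of D')).IsSeparated) N fun E _ _ _ I hI => ?_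
  let : Algebra C E := ((algebraMap D E).comp (algebraMap C D)).toAlgebra
  have : IsScalarTower C D E := .of_algebraMap_eq fun _ => rfl
  have : Algebra.Smooth C E := .comp C D E
  obtain ⟨P, _, O, _, _, _, n, x, hS, hind, hu, hb, hx, hr⟩ := h2 C E I hC hI
  let : Algebra D O := ((algebraMap E O).comp (algebraMap D E)).toAlgebra
  have : IsScalarTower D E O := .of_algebraMap_eq fun _ => rfl
  let O' := Localization
    (Algebra.algebraMapSubmonoid O (nonZeroDivisors (Localization.AtPrime P)))
  have hl' := glt_loc (D := D) (V := Localization.AtPrime P) (O := O) (O' := O') P hb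
  let : Algebra D' O' := (IsLocalization.map (M := Algebra.algebraMapSubmonoid D (nonZeroDivisors C))
    (T := Algebra.algebraMapSubmonoid O (Algebra.algebraMapSubmonoid D (nonZeroDivisors C))) O'
    (algebraMap D O) (Submonoid.le_comap_map _)).toAlgebra
  have : IsScalarTower D D' O' := .of_algebraMap_eq fun d =>
    (IsLocalization.map_eq (M := Algebra.algebraMapSubmonoid D (nonZeroDivisors C)) (S := D')
      (T := Algebra.algebraMapSubmonoid O (Algebra.algebraMapSubmonoid D (nonZeroDivisors C)))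
      (Q := O') (g := algebraMap D O) (Submonoid.le_comap_map _) d).symm
  have : Algebra.IsPushout D D' O O' :=
    (Algebra.isPushout_of_isLocalization (Algebra.algebraMapSubmonoid D (nonZeroDivisors C))
      D' O O').symm
  refine ⟨O, inferInstance, inferInstance, inferInstance, inferInstance, hS, hind, hu,
    ob u O', hm u (up D O O'), hm u (up D D' O'), isPullback_hm u D D' O O', ?_⟩
  exact ((hb_cst_iff (hm u (up D O O')) M).2 (Ula0.germ h1 l M hM (Localization.AtPrime P) O O'
    (hC.of_isLocalization P.primeCompl)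
    (by simpa using hl.map (algebraMap C (Localization.AtPrime P))) x hx hr)).con _

end Pool.Agent.MP_855f4c_ag.E.SB

end

section

/-! From affine opens to a quasi-compact separated scheme. -/

set_option autoImplicit false
set_option backward.isDefEq.respectTransparency false

open CategoryTheory Limits Abelian Opposite AlgebraicGeometry Polynomial IsLocalRing TensorProduct
open Function

namespace Pool.Agent.MP_855f4c_ag.E.SB

open E3 E4 SA

namespace MVG

variable {Y' Y : Scheme.{0}} (p : Y' ⟶ Y)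

/-- An open of the source, over the target. -/
noncomputable abbrev ov (U : Y'.Opens) : Over Y := Over.mk (U.ι ≫ p)

/-- Inclusions. -/
noncomputable abbrev inc {U V : Y'.Opens} (h : U ≤ V) : ov p U ⟶ ov p V :=
  Over.homMk (Y'.homOfLE h) (Y'.homOfLE_ι_assoc h p)

/-- Restrictions. -/
noncomputable abbrev rs (U : Y.Opens) : ov p (p ⁻¹ᵁ U) ⟶ ov (𝟙 Y) U :=
  Over.homMk (p ∣_ U) ((congrArg _ (Category.comp_id _)).trans (morphismRestrict_ι p U))

lemma con {F : Sh (Scheme.etaleTopology.over Y)} {N : ℕ} {U' V' W' T' : Y'.Opens} {U V : Y.Opens}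
    (a₁ : W' ≤ U') (a₂ : W' ≤ V') (i₁ : U' ≤ T') (i₂ : V' ≤ T') (hW : W' = U' ⊓ V')
    (hT : T' = U' ⊔ V') (w : ov p W' ⟶ ov (𝟙 Y) (U ⊓ V)) (v₁ : ov p U' ⟶ ov (𝟙 Y) U)
    (v₂ : ov p V' ⟶ ov (𝟙 Y) V) (t : ov p T' ⟶ ov (𝟙 Y) (U ⊔ V))
    (e₁ : inc p a₁ ≫ v₁ = w ≫ inc (𝟙 Y) inf_le_left)
    (e₂ : inc p a₂ ≫ v₂ = w ≫ inc (𝟙 Y) inf_le_right)
    (e₃ : inc p i₁ ≫ t = v₁ ≫ inc (𝟙 Y) le_sup_left)
    (e₄ : inc p i₂ ≫ t = v₂ ≫ inc (𝟙 Y) le_sup_right)
    (hw : Con w F N) (h₁ : Con v₁ F N) (h₂ : Con v₂ F N) : Con t F N := by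
  subst hW hT
  have pbk {Z : Scheme.{0}} (r : Z ⟶ Y) (U V : Z.Opens) :
      IsPullback (inc r (inf_le_left : U ⊓ V ≤ U)) (inc r inf_le_right)
        (inc r (le_sup_left : U ≤ U ⊔ V)) (inc r le_sup_right) :=
    have q := isPullback_opens_inf_le (le_sup_left : U ≤ U ⊔ V) le_sup_right
    IsPullback.of_map (Over.forget Y) (Over.OverMorphism.ext q.w) q
  have cov {Z : Scheme.{0}} (U V : Z.Opens) (t : (U ⊔ V).toScheme) :
      t ∈ Set.range (Z.homOfLE (le_sup_left : U ≤ U ⊔ V)) ∨
        t ∈ Set.range (Z.homOfLE (le_sup_right : V ≤ U ⊔ V)) :=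
    (t.2 : t.1 ∈ U ∨ t.1 ∈ V).imp (fun h => ⟨⟨t.1, h⟩, Subtype.ext (Z.homOfLE_apply _ _)⟩)
      fun h => ⟨⟨t.1, h⟩, Subtype.ext (Z.homOfLE_apply _ _)⟩
  have i {Z : Scheme.{0}} (r : Z ⟶ Y) {U V : Z.Opens} (h : U ≤ V) :
      IsOpenImmersion (inc r h).left := inferInstanceAs (IsOpenImmersion (Z.homOfLE h))
  have := i (𝟙 Y) (le_sup_left : U ≤ U ⊔ V)
  have := i (𝟙 Y) (le_sup_right : V ≤ U ⊔ V)
  have := i p (le_sup_left : U' ≤ U' ⊔ V')
  have := i p (le_sup_right : V' ≤ U' ⊔ V')
  exact mv_con (pbk (𝟙 Y) U V) (cov U V) (pbk p U' V') (cov U' V') w v₁ v₂ t e₁ e₂ e₃ e₄ hw h₁ h₂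

lemma mv (M : Ab.{1}) {U V : Y.Opens} (hU : AB M (p ∣_ U)) (hV : AB M (p ∣_ V))
    (hW : AB M (p ∣_ (U ⊓ V))) : AB M (p ∣_ (U ⊔ V)) := by
  have k (U : Y.Opens) : HB (rs p U) ((cst Y).obj M) ↔ AB M (p ∣_ U) := hb_cst_iff _ M
  have e {U V : Y.Opens} (h : U ≤ V) :
      inc p (p.preimage_mono h) ≫ rs p V = rs p U ≫ inc (𝟙 Y) h :=
    Over.OverMorphism.ext (morphismRestrict_homOfLE p U V h).symm
  exact (k _).1 (hb_of_con fun N => con p _ _ _ _ p.preimage_inf p.preimage_sup _ _ _ _
    (e _) (e _) (e _) (e _) (((k _).2 hW).con _) (((k _).2 hU).con _) (((k _).2 hV).con _))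

end MVG

open MVG in
theorem mvg : MVG_s := by
  intro M Y' Y p _ _ h
  have h0 : AB M (p ∣_ ⊥) := h _ (isAffineOpen_bot Y)
  have h1 (S : Y.Opens) (hS : IsCompact (S : Set Y)) :
      ∀ V : Y.Opens, IsAffineOpen V → AB M (p ∣_ (S ⊓ V)) := by
    refine compact_open_induction_on S hS (fun V _ => by rwa [bot_inf_eq]) fun S _ U ih V hV => ?_
    rw [inf_sup_right]
    refine mv p M (ih V hV) (h _ (U.2.inf hV)) ?_
    rw [← inf_inf_distrib_right, inf_assoc]
    exact ih _ (U.2.inf hV)
  have h2 : AB M (p ∣_ ⊤) :=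
    compact_open_induction_on (P := fun S => AB M (p ∣_ S)) ⊤ isCompact_univ h0
      fun S hS U ih => mv p M ih (h _ U.2) (h1 S hS _ U.2)
  let a : ov p (p ⁻¹ᵁ ⊤) ≅ Over.mk p := Over.isoMk Y'.topIso rfl
  let b : ov (𝟙 Y) ⊤ ≅ top Y := Over.isoMk Y.topIso rfl
  exact (hb_of_sq (rs p ⊤) (tp p) a.hom b.hom
    (Over.OverMorphism.ext (morphismRestrict_ι p ⊤).symm)).1 ((hb_cst_iff _ M).2 h2)

end Pool.Agent.MP_855f4c_ag.E.SB

end

section

/-! Section B, row ULA: local acyclicity of smooth morphisms from the affine case. -/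

set_option autoImplicit false
set_option backward.isDefEq.respectTransparency false

open CategoryTheory Limits Abelian Opposite AlgebraicGeometry Function

namespace Pool.Agent.MP_855f4c_ag.E.SB

open E3 E4 SA

namespace ULA

lemma ab_of_sq (M : Ab.{1}) {T' T S' S : Scheme.{0}} (f : T' ⟶ T) (g : S' ⟶ S) (a : T' ⟶ S')
    (b : T ⟶ S) [IsIso a] [IsIso b] (w : a ≫ g = f ≫ b) (h : AB M g) : AB M f := by
  let f₁ : Over.mk (f ≫ b) ⟶ Over.mk b := Over.homMk f
  let a₁ : Over.mk (f ≫ b) ≅ Over.mk g := Over.isoMk (asIso a) w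
  let b₁ : Over.mk b ≅ top S := Over.isoMk (asIso b) (Category.comp_id _)
  exact (hb_cst_iff f₁ M).1 ((hb_of_sq f₁ (tp g) a₁.hom b₁.hom (Over.OverMorphism.ext w)).2 h)

lemma sq (C K D : Type) [CommRing C] [IsDomain C] [Field K] [Algebra C K] [IsFractionRing C K]
    [CommRing D] [Algebra C D] : ∃ (D' : Type) (_ : CommRing D') (_ : Algebra D D')
      (ψ : K →+* D'), Gen C D D' ∧
      IsPullback (spc (algebraMap D D')) (spc ψ) (spc (algebraMap C D)) (spc (algebraMap C K)) := by
  let D' := Localization (Algebra.algebraMapSubmonoid D (nonZeroDivisors C))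
  have hu : ∀ c : nonZeroDivisors C, IsUnit (algebraMap C D' c) := fun c => by
    rw [IsScalarTower.algebraMap_apply C D D']
    exact IsLocalization.map_units D' ⟨_, Algebra.mem_algebraMapSubmonoid_of_mem c⟩
  let : Algebra K D' := (IsLocalization.lift hu).toAlgebra
  have : IsScalarTower C K D' :=
    .of_algebraMap_eq fun c => (IsLocalization.lift_eq hu c).symm
  have := Algebra.isPushout_of_isLocalization (nonZeroDivisors C) K D D'
  exact ⟨D', inferInstance, inferInstance, algebraMap K D', inferInstance,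
    isPullback_SpecMap_of_isPushout _ _ _ _ (CommRingCat.isPushout_of_isPushout C D K D')⟩

end ULA

theorem ula (h1 : ULA0_s) (h2 : MVG_s) : ULA_s := by
  intro l _ C K _ _ _ _ _ Y' Y y _ _ _ p y' M sq hC hl hM
  refine h2 M Y' Y p (QuasiCompact.compactSpace_of_compactSpace y)
    ⟨by rw [← terminal.comp_from y]; infer_instance⟩ fun U hU => ?_
  let φ : C →+* Γ(Y, U) := (Spec.preimage (hU.fromSpec ≫ y)).hom
  have hφ : spc φ = hU.fromSpec ≫ y := Spec.map_preimage _
  let := φ.toAlgebra
  have : Algebra.Smooth C Γ(Y, U) := by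
    have : Smooth (spc φ) := by rw [hφ]; infer_instance
    exact (HasRingHomProperty.Spec_iff (P := @Smooth)).1 this
  obtain ⟨D', _, _, ψ, _, s⟩ := ULA.sq C K Γ(Y, U)
  have s₁ : IsPullback (p ∣_ U ≫ hU.isoSpec.hom) ((p ⁻¹ᵁ U).ι ≫ y') (spc φ)
      (spc (algebraMap C K)) := by
    refine ((isPullback_morphismRestrict p U).paste_vert sq).of_iso (Iso.refl _) hU.isoSpec
      (Iso.refl _) (Iso.refl _) (Category.id_comp _).symm (by simp) ?_ (by simp)
    rw [hφ, hU.isoSpec_hom_fromSpec_assoc]
    exact Category.comp_id _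
  exact ULA.ab_of_sq M _ _ (s₁.isoIsPullback _ _ s).hom hU.isoSpec.hom
    (s₁.isoIsPullback_hom_fst _ _ s) (h1 l C _ D' M hC hl hM)

end Pool.Agent.MP_855f4c_ag.E.SB

end

section

/-! Section B, row SBCX: higher direct images of constant sheaves along smooth maps are lisse. -/

set_option autoImplicit false
set_option backward.isDefEq.respectTransparency false

open CategoryTheory Limits Abelian Opposite AlgebraicGeometry Function

namespace Pool.Agent.MP_855f4c_ag.E.SB

open E3 E4 SA

theorem sbcx (h : ULA_s) : SBCX_s := by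
  intro l _ X Y f _ _ _ M hM q C K _ _ _ _ _ _ a b e _ hC hl
  have := hC.shl
  have := aic_frac hC K
  let g := (Over.pullback f).map (sph (algebraMap C K) e)
  have h1 : g.left ≫ pullback.snd a f = pullback.snd b f := Over.w g
  have h2 : g.left ≫ pullback.fst a f = pullback.fst b f ≫ spc (algebraMap C K) :=
    pullback.lift_fst _ _ _
  have sq : IsPullback g.left (pullback.fst b f) (pullback.fst a f) (spc (algebraMap C K)) :=
    IsPullback.of_right (by rw [h1, e]; exact (IsPullback.of_hasPullback b f).flip) h2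
      (IsPullback.of_hasPullback a f).flip
  have hb := (hb_cst_iff g M).2 (h l C K _ _ (pullback.fst a f) g.left _ M sq hC hl hM) q
  refine (Bijective.of_comp_iff _ (rqη_bij f _ q a)).1 ?_
  have k := (rqη_bij f ((cst X).obj M) q b).comp hb
  rwa [show _ ∘ _ = _ from funext fun x => rqη_res f _ q _ x] at k

end Pool.Agent.MP_855f4c_ag.E.SB

end

section

/-! Section B: assembly. -/

namespace Pool.Agent.MP_855f4c_ag.E.SB

theorem gn_of (h : LA_s) (ha : AFFV_s) : GN_s :=
  gn (step dvs cova loct secs (stz h ha)) splx secs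

theorem ula_of (h : LA_s) (ha : AFFV_s) : ULA_s := ula (ula0 (gn_of h ha) germ) mvg

theorem sbx_of_sbcx (h : SBCX_s) : G.SBX_s := fun l _ X S f _ _ n =>
  h l X S f (AddCommGrpCat.uliftFunctor.{1}.obj (.of (QZ l)))
    (fun m => ((cof_QZ (l := l)).1 m.down).imp fun _ hn => ULift.ext _ _ hn) n

theorem step_of (h : LA_s) (ha : AFFV_s) : STEP_s := step dvs cova loct secs (stz h ha)

theorem ula0_of (h : LA_s) (ha : AFFV_s) : ULA0_s := ula0 (gn_of h ha) germ

theorem sbcx_of (h : LA_s) (ha : AFFV_s) : SBCX_s := sbcx (ula_of h ha)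

theorem sbx_of (h : LA_s) (ha : AFFV_s) : G.SBX_s := sbx_of_sbcx (sbcx (ula_of h ha))

end Pool.Agent.MP_855f4c_ag.E.SB

end
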