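import Pool.Agent.MP_855f4c_ag.EG.Gc
import Pool.Agent.MP_855f4c_ag.EC.Sd
import Pool.Agent.MP_855f4c_ag.EC.DUb
import Pool.Agent.MP_855f4c_ag.EC.De
import Pool.Agent.MP_855f4c_ag.EC.Dd
import Pool.Agent.MP_855f4c_ag.EC.Df
import Pool.Agent.MP_855f4c_ag.EC.Ub

section

set_option autoImplicit false
set_option backward.isDefEq.respectTransparency false

open CategoryTheory Limits Abelian Opposite AlgebraicGeometry Polynomial

namespace Pool.Agent.MP_855f4c_ag.E.Vp

open E3 E4 Function U USq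

/-- The stalks of a lisse sheaf on an integral affine scheme have the same size. -/
lemma gl2_card {l : ℕ} {B : Type} [CommRing B] [IsDomain B] (hl : IsUnit (l : B))
    {G : Sh (Scheme.etaleTopology.over (Spec (.of B)))} (hG : Lcf l G) : ∃ c : ℕ, ∀ (k : Type) [Field k] [IsAlgClosed k]
      (x : Spec (.of k) ⟶ Spec (.of B)), Nat.card (sec G (Over.mk x)) = c := by
  obtain ⟨Ω, _, _, _, _, _⟩ := SA.Glb.closure B
  refine ⟨Nat.card (sec G (ob (uB B) Ω)),
    pts_ind (p := fun T => Nat.card (sec G T) = _) fun k _ _ _ => ?_⟩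
  obtain ⟨b⟩ := exists_plus (B := B) (Ω := Ω) k
  exact (Nat.card_congr (spec (uB B) hG.1.1
    (hG.2.1.mono (Over.homMk (Over.hom _) (Category.comp_id _))) hl b).toEquiv).symm

lemma gl2_kill {l : ℕ} {X : Scheme.{0}} {G : Sh (Scheme.etaleTopology.over X)} (h : l • 𝟙 G = 0) (T : Over X)
    (m : sec G T) : l • m = 0 := congr(app $h T m)

/-- The Kummer cover. -/
lemma gl2_kum {B : Type} [CommRing B] (N : ℕ) (v : B) (hN : IsUnit (N : B)) (hv : IsUnit v)
    (h0 : N ≠ 0) : IsFinite (spc (AdjoinRoot.of (X ^ N - C v))) ∧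
      Etale (spc (AdjoinRoot.of (X ^ N - C v))) ∧
      AlgebraicGeometry.Surjective (spc (AdjoinRoot.of (X ^ N - C v))) := by
  have hm : (X ^ N - C v : B[X]).Monic := monic_X_pow_sub_C v h0
  have := hm.finite_adjoinRoot
  obtain ⟨v, rfl⟩ := hv
  exact ⟨(IsFinite.SpecMap_iff _).2 (RingHom.finite_algebraMap.2 this),
    (HasRingHomProperty.Spec_iff (P := @Etale)).2 (RingHom.etale_algebraMap.2
      (Spg.etale_adjoinRoot hm (separable_X_pow_sub_C_unit v hN))),
    ⟨RingHom.IsIntegral.comap_surjective (algebraMap_isIntegral_iff.2 inferInstance)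
      (Spg.of_inj hm fun _ => by rwa [natDegree_X_pow_sub_C])⟩⟩

theorem gl2 (h1 : GL1_s) (hR : RCW_s) (hM : GAM_s) (hI : INV_s) (hC : CNT_s) : GL2_s := by
  intro l _ A _ L r a _ Ω _ _ hs G hG hl
  have := hs.inj
  have : IsDomain A := (FaithfulSMul.algebraMap_injective A Ω).isDomain _
  have hm : (hp a).Monic := monic_prod_of_monic _ _ fun i _ => monic_X_sub_C (a i)
  have : IsDomain (Localization.Away (hp a)) := IsLocalization.isDomain_localization
    (powers_le_nonZeroDivisors_of_noZeroDivisors hm.ne_zero)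
  have hu : IsUnit (l : Localization.Away (hp a)) := by
    simpa using hs.unit.map ((algebraMap A[X] (Localization.Away (hp a))).comp C)
  obtain ⟨n, hn⟩ := gl2_card hu hG
  have h0 : l ^ n ≠ 0 := pow_ne_zero _ (Fact.out : l.Prime).ne_zero
  let v := algebraMap A[X] (Localization.Away (hp a)) (X - C (a 0))
  have hv : IsUnit v := isUnit_of_dvd_unit
    (map_dvd _ (Finset.dvd_prod_of_mem (fun i => X - C (a i)) (Finset.mem_univ 0)))
    (IsLocalization.Away.algebraMap_isUnit (hp a))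
  obtain ⟨_, _, _⟩ := gl2_kum (l ^ n) v (by simpa using hu.pow n) hv h0
  set κ := spc (AdjoinRoot.of (X ^ l ^ n - C v)) with hκ
  let η : G ⟶ (PF κ).obj ((PB κ).obj G) := (pbpf κ).unit.app G
  have hη : Mono η := unit_mono κ hG.1.1 (Linv.spec hu) (gsurj_of_surjective κ)
  have hE : Lcf l ((PF κ).obj ((PB κ).obj G)) :=
    (ratp ntc ge' alg).lcf l κ _ (ge'.lcfPb l κ G hG)
  have hlE : l • 𝟙 ((PF κ).obj ((PB κ).obj G)) = 0 := by
    have := (nrq.exa κ).1
    have : (PF κ).Additive := (pbpf κ).right_adjoint_additive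
    rw [← (PF κ).map_id, ← (PB κ).map_id, ← Functor.map_nsmul, ← Functor.map_nsmul, hl,
      Functor.map_zero, Functor.map_zero]
  have hQ := (ge'.thick l _).coker η hG hE
  have hlQ : l • 𝟙 (cokernel η) = 0 := by
    rw [← cancel_epi (cokernel.π η), Preadditive.comp_nsmul, Category.comp_id, Limits.comp_zero,
      ← Category.id_comp (cokernel.π η), ← Preadditive.nsmul_comp, hlE, Limits.zero_comp]
  obtain ⟨rc, -⟩ := hR l L a hs.unit
  obtain ⟨-, δ, e1, e2⟩ := jsh'.les L _ η _ hη (ex_coker η) inferInstance 1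
  have hδ : Epi δ := ntc.pte l δ (Linv.spec hs.unit) ((rc _ hQ).1 1).1 ((rc _ hG).1 2).1
    fun k _ _ x s => by
      obtain ⟨τ, rfl⟩ := finp_surj x
      refine (ntc.ex _ _ e2 k _ s).1 (hC l L a η hs.unit hη hG hE hlE k τ ?_ s)
      intro Ω' _ _ _ _ _ β hβ c hc
      have hk : (l : k) ≠ 0 := map_natCast τ l ▸ (hs.unit.map τ).ne_zero
      have hk' : (l : Ω') ≠ 0 := map_natCast β l ▸ (hu.map β).ne_zero
      obtain ⟨z, g, hz, hg, hw⟩ := hM k Ω' (τ (a 0)) (l ^ n)
        (Nat.cast_pow (α := k) l n ▸ pow_ne_zero n hk)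
      have hβv : β v = algebraMap k[X] Ω' (X - C (τ (a 0))) := (hβ _).trans (by simp)
      have hgβ : (g : Ω' →+* Ω').comp β = β :=
        IsLocalization.ringHom_ext (Submonoid.powers (hp a)) (RingHom.ext fun q => by
          simp only [RingHom.comp_apply, hβ]
          exact g.commutes _)
      have hg' : spc (g : Ω' →+* Ω') ≫ spc β = spc β := by rw [finp_comp, hgβ]
      have hgi (i : ℕ) : ((g : Ω' →+* Ω') ^ i).comp β = β :=
        finp_inj ((finp_comp _ _).symm.trans (ratp_fix hg' i))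
      have hpw (i : ℕ) (w : Ω') : ((g : Ω' →+* Ω') ^ i) w = (g ^ i) w := by
        rw [RingHom.coe_pow, AlgEquiv.coe_pow]
        rfl
      have hz' : eval₂ β z (X ^ l ^ n - C v) = 0 := by simp [hz, hβv]
      have ext (χ : AdjoinRoot (X ^ l ^ n - C v) →+* Ω') (hχ : χ.comp (AdjoinRoot.of _) = β)
          (i : ℕ) : spc χ = spc ((g : Ω' →+* Ω') ^ i) ≫ spc (AdjoinRoot.lift β z hz') ↔
            χ (AdjoinRoot.root _) = (g ^ i) z := by
        rw [finp_comp, ← hpw]
        refine ⟨fun e => by rw [finp_inj e, RingHom.comp_apply, AdjoinRoot.lift_root],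
          fun e => congrArg spc (AdjoinRoot.ringHom_ext ?_ ?_)⟩
        · rw [hχ, RingHom.comp_assoc, AdjoinRoot.lift_comp_of, hgi]
        · rw [e, RingHom.comp_apply, AdjoinRoot.lift_root]
      have hfin := (hG.2.2 Ω' (spc β) hk').2
      rw [Set.eq_univ_of_forall (s := {m : sec G (Over.mk (spc β)) | l • m = 0})
        (gl2_kill hl _), Set.finite_univ_iff] at hfin
      refine hI l n κ G Ω' (spc β) (spc (AdjoinRoot.lift β z hz')) g hg' hG.1.1 hk' g.bijective
        (by rw [hκ, finp_comp, AdjoinRoot.lift_comp_of])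
        ((ext _ (AdjoinRoot.lift_comp_of _) _).2 ((AdjoinRoot.lift_root _).trans hg.symm)).symm
        (fun y hy => ?_) hfin (by rw [hn]; exact Nat.lt_pow_self (Fact.out : l.Prime).one_lt)
        (gl2_kill hl _) _ c (hc g hg')
      obtain ⟨χ, rfl⟩ := finp_surj y
      have hχ : χ.comp (AdjoinRoot.of _) = β := finp_inj ((finp_comp _ _).symm.trans hy)
      simp only [ext χ hχ]
      refine hw _ ?_
      have := congrArg χ (AdjoinRoot.eval₂_root (X ^ l ^ n - C v))
      rw [hom_eval₂, hχ] at this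
      simpa [hβv, sub_eq_zero] using this
  refine (h1 l L a Ω hs _ hE hlE).imp₂ (h1 l L a Ω hs _ hQ hlQ) fun B _ γ p1 p2 => ?_
  obtain ⟨-, m2, m3⟩ : True ∧ Ex ((PB (spc γ)).map _) ((PB (spc γ)).map δ) ∧
      Epi ((PB (spc γ)).map δ) := by
    obtain ⟨_, _, _⟩ := nrq.exa (spc γ)
    exact ⟨trivial, gc_ex (nrq.exa _) e1, inferInstance⟩
  have := mono_desc m2
  have : Epi (cokernel.desc _ _ m2.1) := epi_of_epi_fac (cokernel.π_desc _ _ m2.1)
  have := isIso_of_mono_of_epi (cokernel.desc _ _ m2.1)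
  exact (ge'.thick l _).iso (asIso (cokernel.desc _ _ m2.1)) ((ge'.thick l _).coker _ p1 p2)

end Pool.Agent.MP_855f4c_ag.E.Vp

end

section

set_option autoImplicit false
set_option backward.isDefEq.respectTransparency false

open CategoryTheory Limits Abelian Opposite AlgebraicGeometry Polynomial

namespace Pool.Agent.MP_855f4c_ag.E.Vp

open E3 E4 Function U USq

theorem glg (h1 : GL1_s) (h2 : GL2_s) (hD : DIV_s) (hS : STAB_s) (hR : RCW_s) : GLG_s := by
  intro l _ A _ L r a _ Ω _ _ hs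
  obtain ⟨rc, -⟩ := hR l L a hs.unit
  have := hs.ft
  have th := ge'.thick l (Spec (.of (Localization.Away (hp a))))
  let Φ G := ∀ b, EP (fun _ => Lcf l) Ω ((Rc L (hp a) b).obj G)
  have z0 (B : Type) [CommRing B] (γ : A →+* B) (F) (h : IsZero F) : Lcf l ((PB (spc γ)).obj F) :=
    (ge'.thick l _).zero _ (gc_zero (nrq.exa _) h)
  have tor (G) (hG : Lcf l G) (h : l • 𝟙 G = 0) : Φ G := fun b => match b with
    | 0 => .of fun B _ γ => z0 B γ _ (rc G hG).2.1
    | 1 => h1 l L a Ω hs G hG h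
    | 2 => h2 l L a Ω hs G hG h
    | b + 3 => .of fun B _ γ => z0 B γ _ ((rc G hG).2.2 b)
  have ext {F G} (i : F ⟶ G) (hi : Mono i) (hG : Lcf l G) (hF : Φ F) (hK : Φ (cokernel i)) :
      Φ G := fun b => match b with
    | 0 => .of fun B _ γ => z0 B γ _ (rc G hG).2.1
    | b + 1 => by
      obtain ⟨-, δ, -, e1⟩ := jsh'.les L _ i _ hi (ex_coker i) inferInstance b
      obtain ⟨e2, δ', e3, -⟩ := jsh'.les L _ i _ hi (ex_coker i) inferInstance (b + 1)
      exact evt'.mono _ _ _ (fun B _ γ p => (U.sq.{1, 2} _ _ (ge'.thick l _)).1 _ _ _ _ _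
        (gc_ex5 (nrq.exa _) ⟨_, _, _, _, e1, e2, e3⟩) p.1.1 p.1.2 p.2.1 p.2.2)
        (evt'.and _ _ _ (evt'.and _ _ _ (hK b) (hF (b + 1)))
          (evt'.and _ _ _ (hK (b + 1)) (hF (b + 2))))
  have kl (G : Sh (Scheme.etaleTopology.over (Spec (.of (Localization.Away (hp a)))))) :
      l • 𝟙 (kernel (l • 𝟙 G)) = 0 := by
    rw [← cancel_mono (kernel.ι _), Limits.zero_comp, Preadditive.nsmul_comp, Category.id_comp,
      ← kernel.condition (l • 𝟙 G), Preadditive.comp_nsmul, Category.comp_id]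
  have pw (N : ℕ) : ∀ G, Lcf l G → l ^ N • 𝟙 G = 0 → Φ G := by
    induction N with
    | zero => exact fun G hG h => tor G hG (by rw [pow_zero, one_nsmul] at h; rw [h, nsmul_zero])
    | succ N ih =>
      intro G hG h
      have hk := th.ker (l • 𝟙 G) hG hG
      refine ext (kernel.ι (l • 𝟙 G)) inferInstance hG (tor _ hk (kl G))
        (ih _ (th.coker _ hk hG) ?_)
      have w : (l ^ N • 𝟙 G) ≫ (l • 𝟙 G) = 0 := by
        rw [Preadditive.nsmul_comp, Category.id_comp, ← mul_nsmul', ← pow_succ, h]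
      rw [← cancel_epi (cokernel.π _), Limits.comp_zero, Preadditive.comp_nsmul, Category.comp_id,
        ← Category.id_comp (cokernel.π _), ← Preadditive.nsmul_comp, ← kernel.lift_ι _ _ w,
        Category.assoc, cokernel.condition, Limits.comp_zero]
  have := hs.inj
  have := hs.nor
  have : IsDomain A := (FaithfulSMul.algebraMap_injective A Ω).isDomain _
  have h0 := powers_le_nonZeroDivisors_of_noZeroDivisors
    (show (hp a).Monic from monic_prod_of_monic _ _ fun i _ => monic_X_sub_C (a i)).ne_zero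
  have : IsDomain (Localization.Away (hp a)) := IsLocalization.isDomain_localization h0
  have : IsIntegrallyClosed (Localization.Away (hp a)) :=
    isIntegrallyClosed_of_isLocalization _ _ h0
  intro G hG
  obtain ⟨N, K, i, hi, hK, he, hN⟩ := hS l _ G (by
    simpa using hs.unit.map ((algebraMap A[X] (Localization.Away (hp a))).comp C)) hG
  refine ext i hi hG (fun b => ?_) (pw N _ (th.coker i hK hG) hN)
  have hk := th.ker (l • 𝟙 K) hK hK
  refine (tor _ hk (kl K) 1).imp₂ (tor _ hk (kl K) 2) fun B _ γ p1 p2 => ?_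
  choose e1 δ e2 e3 using jsh'.les L _ _ _ inferInstance (CM.ker (l • 𝟙 K)) he
  have e0 (b) : (PB (spc γ)).map ((Rc L (hp a) b).map (l • 𝟙 K)) = l • 𝟙 _ := by
    have := (jsh'.exa L (hp a)).1
    have := (nrq.df L.π).add b
    have := (nrq.exa (spc γ)).1
    have : (Rc L (hp a) b).Additive := inferInstanceAs (js L (hp a) ⋙ Rq L.π b).Additive
    rw [Functor.map_nsmul, Functor.map_nsmul, CategoryTheory.Functor.map_id,
      CategoryTheory.Functor.map_id]
  have t (b) := ntc.pb l (spc γ) _ ((rc K hK).1 b).1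
  refine ⟨t b, hD l _ _ (fun b => (PB (spc γ)).map ((Rc L (hp a) b).map (kernel.ι (l • 𝟙 K))))
    (fun b => (PB (spc γ)).map (δ b)) ((gc_zero (nrq.exa _) (rc _ hk).2.1).mono _)
    (fun b => ?_) (fun b => (t b).2) (fun b => ?_) b,
    fun k _ _ x hx => ((rc K hK).1 b).2 k (x ≫ spc γ) hx⟩
  · rw [← e0]
    exact ⟨gc_ex (nrq.exa _) (e1 b), gc_ex (nrq.exa _) (e2 b), gc_ex (nrq.exa _) (e3 b)⟩
  · match b with
    | 0 => exact (z0 B γ _ (rc _ hk).2.1).2.1
    | 1 => exact p1.2.1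
    | 2 => exact p2.2.1
    | b + 3 => exact (z0 B γ _ ((rc _ hk).2.2 b)).2.1

end Pool.Agent.MP_855f4c_ag.E.Vp

end

section

/-! Row INV: invariant characters of `ρ_* ρ^* G` kill `G`. -/

set_option autoImplicit false
set_option backward.isDefEq.respectTransparency false

open CategoryTheory Limits Abelian Opposite AlgebraicGeometry Polynomial

namespace Pool.Agent.MP_855f4c_ag.E.Vp

open E3 E4 U Function

lemma inv_alg {N : ℕ} {M E : Type 1} {Q Y : Type}
    [AddCommGroup M] [AddCommGroup E] [AddCommGroup Q] (e : E ≃+ (Y → M))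
    (T : AddMonoid.End M) (S : E →+ E) (P : Y → Y) (hP : Bijective P)
    (he : ∀ z y, e (S z) (P y) = T (e z y)) (α : E →+ Q) (hα : ∀ z, α (S z) = α z) (y : ℕ → Y)
    (h1 : ∀ i, y (i + 1) = P (y i)) (h2 : y N = y 0) (h3 : Bijective fun i : Fin N => y i)
    (hA : ∀ b : M →+ Q, (∀ m, b ((T ^ N) m) = b m) → ∀ m, ∑ i ∈ Finset.range N, b ((T ^ i) m) = 0)
    (z : E) (m : M) (hz : ∀ y, e z y = m) : α z = 0 := by
  classical
  have := Finite.of_surjective _ h3.2
  have := Fintype.ofFinite Y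
  let s : Y → M →+ E := fun y => e.symm.toAddMonoidHom.comp (AddMonoidHom.single (fun _ => M) y)
  have hs (y m) : e (s y m) = Pi.single y m := e.apply_symm_apply _
  have k1 (y m) : S (s y m) = s (P y) (T m) := e.injective (funext fun y' => by
    obtain ⟨y', rfl⟩ := hP.2 y'
    rw [he, hs, hs]
    by_cases h : y' = y
    · rw [h, Pi.single_eq_same, Pi.single_eq_same]
    · rw [Pi.single_eq_of_ne h, Pi.single_eq_of_ne fun h' => h (hP.1 h'), map_zero])
  have k2 (i j : ℕ) (m) : α (s (y (i + j)) ((T ^ j) m)) = α (s (y i) m) := by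
    induction j with
    | zero => rfl
    | succ j ih =>
      rw [← add_assoc, h1, pow_succ', ← ih, ← hα (s (y (i + j)) _), k1]
      rfl
  have k3 : z = ∑ y, s y m := e.injective (by
    rw [map_sum]
    simp only [hs]
    exact (funext hz).trans (Finset.univ_sum_single fun _ => m).symm)
  rw [k3, map_sum, ← h3.sum_comp fun y => α (s y m), Fin.sum_univ_eq_sum_range
    (fun i => α (s (y i) m)), ← hA (α.comp (s (y 0))) (fun m => by
      have := k2 0 N m
      rwa [zero_add, h2] at this) (T m), ← Finset.sum_range_reflect]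
  refine Finset.sum_congr rfl fun i hi => ?_
  have := k2 (N - 1 - i) (i + 1) m
  rw [show N - 1 - i + (i + 1) = N by have := Finset.mem_range.1 hi; omega, h2, pow_succ] at this
  exact this.symm

lemma inv_lift {W Z : Scheme.{0}} (c : Z ⟶ W) [IsFinite c] {l : ℕ} {G : Sh (Scheme.etaleTopology.over W)} (hG : Cc l G)
    {Ω : Type} [Field Ω] [IsAlgClosed Ω] (hl : (l : Ω) ≠ 0) (x : Spec (.of Ω) ⟶ W) :
    ∃ e : sec ((PF c).obj ((PB c).obj G)) (Over.mk x) ≃+
        ((Over.mk x ⟶ Over.mk c) → sec G (Over.mk x)),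
      (∀ s y, e (app ((pbpf c).unit.app G) _ s) y = s) ∧
      ∀ (g : Over.mk x ⟶ Over.mk x) z y, e (rsec g _ z) (g ≫ y) = rsec g G (e z y) := by
  let ι (y : Over.mk x ⟶ Over.mk c) : sec G (Over.mk x) ≃+ sec ((PB c).obj G) (Over.mk y.left) :=
    AddEquiv.ofBijective ((atLift c _ y).comp (app ((pbpf c).unit.app G) _)) (atLift_unit c G y)
  let e := (AddEquiv.ofBijective (ratp_e c ((PB c).obj G) (Over.mk x))
    (stalk_bij c (pb_cc c hG) hl x)).trans (AddEquiv.piCongrRight ι).symm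
  have he (z y) : ι y (e z y) = atLift c _ y z := (ι y).apply_symm_apply _
  refine ⟨e, fun s y => (ι y).injective (he _ y), fun g z y => (ι (g ≫ y)).injective ?_⟩
  let v : Over.mk (g ≫ y).left ⟶ Over.mk y.left := Over.homMk g.left rfl
  rw [he, ratp_nat c _ g y (g ≫ y) v rfl, ← he]
  exact (ratp_nat c _ g y (g ≫ y) v rfl _).symm.trans
    (congrArg (atLift c _ (g ≫ y)) (nat ((pbpf c).unit.app G).hom g _).symm)

theorem inv (hN : NIL_s) : INV_s := by
  intro l n _ X' X ρ _ G k _ _ x y₀ γ hγ hG hl hb h0 h1 h2 _ hc ht T _ a ha m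
  obtain ⟨e, e1, e2⟩ := inv_lift ρ hG hl x
  have : IsIso (CommRingCat.ofHom γ) := (ConcreteCategory.isIso_iff_bijective _).2 hb
  have : IsIso (sph γ hγ) :=
    isIso_homMk _ (inferInstanceAs (IsIso (Spec.map (CommRingCat.ofHom γ))))
  let y (i : ℕ) : Over.mk x ⟶ Over.mk ρ := Over.homMk (spc (γ ^ i) ≫ y₀)
    ((Category.assoc _ _ _).trans ((congrArg _ h0).trans (ratp_fix hγ i)))
  refine inv_alg (N := l ^ n) e (rsec (sph γ hγ) G) (rsec (sph γ hγ) _) (sph γ hγ ≫ ·)
    ⟨fun _ _ h => (cancel_epi _).1 h, fun z => ⟨CategoryTheory.inv (sph γ hγ) ≫ z,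
      IsIso.hom_inv_id_assoc _ _⟩⟩ (e2 _) a ha y (fun i => Over.OverMorphism.ext ?_)
    (Over.OverMorphism.ext ?_) ((bijective_iff_existsUnique _).2 fun z => ?_)
    (fun b => hN l n _ T _ b ht hc) _ m (e1 m)
  · exact (congrArg (· ≫ y₀) (ratp_succ γ i)).trans (Category.assoc _ _ _)
  · exact h1.trans ((congrArg (· ≫ y₀) (ratp_zero γ)).trans (Category.id_comp _)).symm
  · obtain ⟨i, hi, hu⟩ := h2 z.left (Over.w z)
    exact ⟨i, Over.OverMorphism.ext hi.symm, fun j hj => hu j (congrArg (·.left) hj).symm⟩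

end Pool.Agent.MP_855f4c_ag.E.Vp

end

section

/-! Row CNT: duality on the fibre, in a natural form. -/

set_option autoImplicit false
set_option backward.isDefEq.respectTransparency false

open CategoryTheory Limits Abelian Opposite AlgebraicGeometry Polynomial

namespace Pool.Agent.MP_855f4c_ag.E.Vp

open E3 E4 Function U

attribute [local irreducible] Ext.comp Ext.mk₀ Ext.mapExactFunctor ShortComplex.ShortExact.extClass

lemma cnt_pt (hD : D1_s) (hP : CV.P1MU_s) {l : ℕ} [Fact l.Prime] {A : Type} [CommRing A]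
    (L : PL (Spec (.of A))) (h : A[X]) {F E : Sh (Scheme.etaleTopology.over L.P)} (u : F ⟶ E) (hF : Gd l L h F)
    (hE : Gd l L h E) (h0 : l • 𝟙 E = 0) {k : Type} (B Ω : Type) [Field k] [IsAlgClosed k]
    (τ : A →+* k) [CommRing B] [Algebra k[X] B] [IsLocalization.Away (h.map τ) B] [Field Ω]
    [IsAlgClosed Ω] [Algebra B Ω] [FaithfulSMul B Ω] [Algebra.IsAlgebraic B Ω] (hk : (l : k) ≠ 0)
    (HK : ∀ α : sec E (ob (uk L τ B) Ω) →+ MuI l Ω,
      (∀ σ m, α (E4.gal (uk L τ B) Ω E.obj σ m) = α m) → ∀ s, α (app u _ s) = 0)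
    (x : H (fbr L.π (spc τ)) F 2) : Hmap u _ 2 x = 0 := by
  obtain ⟨_, _, _, hu, hY, _, _, hA, -⟩ := geo l A L h F hF k B Ω τ hk
  obtain ⟨-, -, -, -, -, -, -, hA', -⟩ := geo l A L h E hE k B Ω τ hk
  obtain ⟨X₀, r, G, ev, t, h1, h2, h3, h4, -⟩ := DU.setup hD hP mui l hk (LY L τ) Ω
  have hb := h4 _ (fY L τ) E hE.1 0 2 (add_zero 2)
  obtain ⟨e, -, e2, e3⟩ := DU.dua2 hu E (ev _) hY hA' ⟨h2, h3 _⟩
    (fun σ s => (h1 _ σ ((Over.map r).map (act (uY L τ B) Ω σ)) rfl s).trans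
      (DU.ev_fix (k := k) σ _)) t full hb
  refine D.CONN.chr (l := l) _ 1 (by rw [pow_one]; exact D.DSET.smul_H h0 _) fun f => ?_
  obtain ⟨φ, rfl⟩ := hb.2 f
  obtain ⟨φ, rfl⟩ := (Ext.mk₀_bijective _ _).2 φ
  have hz : (DU.ps (fY L τ)).map u ≫ φ = 0 :=
    (full l _ B Ω (uY L τ B) hY _ _ hA ⟨h2, h3 _⟩).1 _ fun m => by
      obtain ⟨m, rfl⟩ := (DU.eF Ω hu F).surjective m
      refine (ev _).map_eq_zero_iff.1 (Eq.trans ?_ ((e3 φ _).symm.trans
        (HK _ ((e2 _).1 ⟨_, rfl⟩) m)))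
      exact congrArg (fun z => ev _ (φ.hom.app _ z)) (nat u.hom _ m)
  refine (DU.DD_apply E t _ _ _).trans ((congrArg (fun z => t (Ext.comp z (Ext.mk₀ φ) (add_zero 2)))
    (D.SM.slH_post (f := fY L τ) u x)).trans ?_)
  rw [post_apply, Ext.comp_assoc_of_second_deg_zero, Ext.mk₀_comp_mk₀, hz, Ext.mk₀_zero,
    Ext.comp_zero, map_zero]

theorem cnt (hD : D1_s) (hP : CV.P1MU_s) : CNT_s := by
  intro l _ A _ L r a _ G E η hl _ hG hE h0 k _ _ τ HK s
  have hk : (l : k) ≠ 0 := map_natCast τ l ▸ (hl.map τ).ne_zero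
  have hh : (hp a).map τ ≠ 0 := fun e => ((rcl_lc a).map τ).ne_zero (by
    rw [← coeff_natDegree, ← coeff_map, e, coeff_zero])
  obtain ⟨Ω, _, _, _, _, _, -⟩ := twi_alg k _ hh
  set B := Localization.Away ((hp a).map τ)
  obtain ⟨β, hβ, hx⟩ := twi_gen L (hp a) τ B Ω
  obtain ⟨P, P1, P2, P3⟩ := twi_pt jsh' L (hp a)
  obtain ⟨x, rfl⟩ := (toRq_bij L.π ((js L (hp a)).obj G) 2 (spc τ)).2 s
  refine (toRq_map L.π ((js L (hp a)).map η) x).symm.trans ?_
  rw [cnt_pt hD hP L (hp a) _ (jsh'.gd l L _ _ hG) (jsh'.gd l L _ _ hE) ?_ B Ω τ hk ?_ x, map_zero]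
  · obtain ⟨_, -⟩ := jsh'.exa L (hp a)
    rw [← (js L (hp a)).map_id, ← Functor.map_nsmul, h0, Functor.map_zero]
  intro α hα m
  let _ : Algebra k[X] Ω := ((algebraMap B Ω).comp (algebraMap k[X] B)).toAlgebra
  have : IsScalarTower k[X] B Ω := .of_algebraMap_eq fun _ => rfl
  have hB : Injective (algebraMap k[X] B) :=
    IsLocalization.injective _ (powers_le_nonZeroDivisors_of_noZeroDivisors hh)
  have : FaithfulSMul k[X] Ω := (faithfulSMul_iff_algebraMap_injective _ _).2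
    ((FaithfulSMul.algebraMap_injective B Ω).comp hB)
  have : Algebra.IsAlgebraic k[X] B := IsLocalization.isAlgebraic B (.powers ((hp a).map τ))
  have : IsDomain B := (FaithfulSMul.algebraMap_injective B Ω).isDomain _
  have : Algebra.IsAlgebraic k[X] Ω := .trans k[X] B Ω
  let e := AddEquiv.ofBijective _ (P1 E _ _ _ hx)
  refine Eq.trans (congrArg α (e.eq_symm_apply.2 (P3 _ _ η _ _ _ hx m)))
    (HK Ω β hβ (α.comp e.symm.toAddMonoidHom) (fun g hg z => ?_) _)
  obtain ⟨z, rfl⟩ := e.surjective z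
  let σ : Ω ≃ₐ[B] Ω := AlgEquiv.ofRingEquiv (f := g.toRingEquiv) fun b => DFunLike.congr_fun
    (IsLocalization.ringHom_ext (.powers ((hp a).map τ)) (j := (g : Ω →+* Ω).comp (algebraMap B Ω))
      (k := algebraMap B Ω) (RingHom.ext g.commutes)) b
  refine (congrArg α (e.symm_apply_eq.2 ?_)).trans ((hα σ z).trans
    (congrArg α (e.symm_apply_apply z).symm))
  exact (P2 E _ _ _ _ _ _ hx hx (act (uk L τ B) Ω σ) (sph _ hg) rfl z).symm

end Pool.Agent.MP_855f4c_ag.E.Vp

end
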