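import Pool.Agent.MP_855f4c_ag.EC.Zb
import Pool.Agent.MP_855f4c_ag.EC.E3a
import Pool.Agent.MP_855f4c_ag.EC.Ue
import Pool.Agent.MP_855f4c_ag.EG.Ga
import Pool.Agent.MP_855f4c_ag.EC.Dg
import Pool.Agent.MP_855f4c_ag.EC.M3a

section

/-! Section Z2, pure algebra: the matrix form of `ng_pure`, normal charts, radii. -/

set_option autoImplicit false

namespace Pool.Agent.MP_855f4c_ag.GZ

open Polynomial CategoryTheory CommAlgCat LP EZ E3

/-- Every lisse system on `B` that is pure in characteristic `p` is mw pure on a strict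
neighbourhood of the good reduction locus. -/
def NGp (p l : ℕ) [Fact p.Prime] [Fact l.Prime] (B : Type) [CommRing B]
    (reg : ℝ → (B →+* PadicAlgCl p) → Prop) : Prop :=
  ∀ L : LocSys B ℚ_[l], Lisse L → ∃ r : ℝ, 1 < r ∧ ∀ i : ℤ,
    (∀ [Algebra B (AlgebraicClosure (ZMod p))], Pure L i (AlgebraicClosure (ZMod p))) →
    ∀ [Algebra B (PadicAlgCl p)], reg r (algebraMap B _) → WM L l i ℤ_[p] (PadicAlgCl p)

/-- Automorphisms over `ℤ_p` have powers that fix the point. -/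
def Fx {p : ℕ} [Fact p.Prime] {B : Type} [CommRing B] (β : B →+* PadicAlgCl p) : Prop :=
  ∀ φ u : PadicAlgCl p ≃+* PadicAlgCl p, (∀ o : ℤ_[p], φ (algebraMap _ _ o) = algebraMap _ _ o) →
    (∀ o : ℤ_[p], u (algebraMap _ _ o) = algebraMap _ _ o) →
    ∃ m : ℕ, m ≠ 0 ∧ ∀ z, (φ ^ m) (β z) = β z ∧ (u ^ m) (β z) = β z

lemma fx_of {p : ℕ} [Fact p.Prime] (K : IntermediateField ℚ_[p] (PadicAlgCl p))
    [FiniteDimensional ℚ_[p] K] {O B : Type} [CommRing O] [CommRing B] [Algebra O B]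
    [Algebra.FiniteType O B] (β : B →+* PadicAlgCl p) (h : ∀ c, β (algebraMap O B c) ∈ K) :
    Fx β := by
  classical
  intro φ u hφ hu
  obtain ⟨s, hs⟩ := Algebra.FiniteType.out (R := O) (A := B)
  obtain ⟨t, ht⟩ := Module.Finite.fg_top (R := ℚ_[p]) (M := K)
  let T : Finset (PadicAlgCl p) := s.image β ∪ t.image Subtype.val
  have : @Algebra.FiniteType ℤ (MvPolynomial T ℤ) _ _ (Ring.toIntAlgebra _) := by
    rw [Subsingleton.elim (Ring.toIntAlgebra (MvPolynomial T ℤ)) AddMonoidAlgebra.algebra]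
    infer_instance
  obtain ⟨m, hm, H⟩ := fix_fg (MvPolynomial.eval₂Hom (Int.castRingHom _)
    (Subtype.val : T → PadicAlgCl p)) φ u hφ hu
  have key (g : PadicAlgCl p ≃+* PadicAlgCl p)
      (hg : ∀ o : ℤ_[p], g (algebraMap _ _ o) = algebraMap _ _ o)
      (hT : ∀ z ∈ T, (g ^ m) z = z) (z : B) : (g ^ m) (β z) = β z := by
    have h0 : ∀ (n : ℕ) (o : ℤ_[p]), (g ^ n) (algebraMap _ _ o) = algebraMap _ _ o := fun n o => by
      induction n with
      | zero => rfl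
      | succ n ih => rw [pow_succ, RingAut.mul_apply, hg, ih]
    have h1 : ((g ^ m : PadicAlgCl p ≃+* PadicAlgCl p) : PadicAlgCl p →+* PadicAlgCl p).comp
        (algebraMap ℚ_[p] _) = algebraMap ℚ_[p] _ := IsLocalization.ringHom_ext (nonZeroDivisors ℤ_[p])
      (RingHom.ext fun o => by
        simpa only [RingHom.comp_apply, RingHom.coe_coe, ← IsScalarTower.algebraMap_apply]
          using h0 m o)
    have h2 : ∀ k : K, (g ^ m) k = k := fun k => by
      have hk : k ∈ Submodule.span ℚ_[p] (t : Set K) := ht.ge trivial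
      induction hk using Submodule.span_induction with
      | mem x hx => exact hT _ (Finset.mem_union_right _ (Finset.mem_image_of_mem _ hx))
      | zero => exact map_zero _
      | add x y _ _ hx hy => rw [AddMemClass.coe_add, map_add, hx, hy]
      | smul a x _ hx =>
        rw [IntermediateField.coe_smul, Algebra.smul_def, map_mul, hx]
        exact congrArg (· * _) (RingHom.congr_fun h1 a)
    have hz : z ∈ Algebra.adjoin O (s : Set B) := hs.ge trivial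
    induction hz using Algebra.adjoin_induction with
    | mem x hx => exact hT _ (Finset.mem_union_left _ (Finset.mem_image_of_mem _ hx))
    | algebraMap c => exact h2 ⟨_, h c⟩
    | add x y _ _ hx hy => rw [map_add, map_add, hx, hy]
    | mul x y _ _ hx hy => rw [map_mul, map_mul, hx, hy]
  exact ⟨m, hm, fun z => ⟨key φ hφ (fun y hy => by simpa using (H (.X ⟨y, hy⟩)).1) z,
    key u hu (fun y hy => by simpa using (H (.X ⟨y, hy⟩)).2) z⟩⟩

/-- A power of an automorphism fixes a finite set of algebraic elements. -/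
lemma pow_fix {B Ω : Type} [CommRing B] [Field Ω] [Algebra B Ω] [FaithfulSMul B Ω]
    [Algebra.IsAlgebraic B Ω] (g : Ω ≃ₐ[B] Ω) (E : Finset Ω) :
    ∃ m : ℕ, m ≠ 0 ∧ ∀ e ∈ E, (g ^ m) e = e := by
  have : IsDomain B := (FaithfulSMul.algebraMap_injective B Ω).isDomain
  have h (z : Ω) : ∃ n : ℕ, n ≠ 0 ∧ (g ^ n) z = z := by
    obtain ⟨P, P0, hP⟩ := Algebra.IsAlgebraic.isAlgebraic (R := B) z
    have hm : ∀ k : ℕ, (g ^ k) z ∈ P.rootSet Ω := fun k =>
      (Polynomial.mem_rootSet.2 ⟨P0, by rw [aeval_algHom_apply, hP, map_zero]⟩)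
    obtain ⟨a, b, hab, e⟩ := Set.Finite.exists_lt_map_eq_of_forall_mem hm (P.rootSet_finite _)
    obtain ⟨c, rfl⟩ := Nat.exists_eq_add_of_lt hab
    rw [add_assoc, pow_add, AlgEquiv.mul_apply] at e
    exact ⟨c + 1, c.succ_ne_zero, ((g ^ a).injective e).symm⟩
  choose n n0 hn using h
  refine ⟨∏ e ∈ E, n e, Finset.prod_ne_zero_iff.2 fun e _ => n0 e, fun e he => ?_⟩
  obtain ⟨k, hk⟩ := Finset.dvd_prod_of_mem n he
  rw [hk, pow_mul]
  clear hk
  induction k with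
  | zero => rfl
  | succ k ih => rw [pow_succ, AlgEquiv.mul_apply, hn, ih]

/-- Purity descends from a power. -/
lemma pure_root {F H : Type} [Field F] [CharZero F] [AddCommGroup H] [Module F H]
    (φ : Module.End F H) {Q m i : ℕ} (hm : m ≠ 0) {c : ℚ[X]} (c0 : c ≠ 0)
    (c1 : ∀ z : ℂ, aeval z c = 0 → ‖z‖ ^ 2 = ((Q ^ m : ℕ) : ℝ) ^ i)
    (c2 : aeval (φ ^ m) (c.map (algebraMap ℚ F)) = 0) :
    ∃ c : ℚ[X], c ≠ 0 ∧ (∀ z : ℂ, aeval z c = 0 → ‖z‖ ^ 2 = (Q : ℝ) ^ (i : ℤ)) ∧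
      aeval φ (c.map (algebraMap ℚ F)) = 0 := by
  refine ⟨expand ℚ m c, (expand_eq_zero (Nat.pos_of_ne_zero hm)).not.2 c0, fun z hz => ?_, ?_⟩
  · rw [expand_aeval] at hz
    have := c1 _ hz
    rw [norm_pow, Nat.cast_pow, ← pow_mul, ← pow_mul, mul_comm m, mul_comm m, pow_mul,
      pow_mul] at this
    rw [zpow_natCast]
    exact (pow_left_inj₀ (by positivity) (by positivity) hm).1 this
  · rw [map_expand, expand_aeval, c2]

theorem ncore {p l : ℕ} [Fact p.Prime] [Fact l.Prime] (hlp : l ≠ p)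
    (B P Ω : Type) [CommRing B] [CommRing P] [Field Ω] [Algebra B Ω] [Algebra B P]
    [Algebra P Ω] [IsScalarTower B P Ω] [IsIntegralClosure P B Ω] [IsDomain B]
    [IsIntegrallyClosed B] [IsAlgClosed Ω] [FaithfulSMul B Ω] [Algebra.IsAlgebraic B Ω]
    [CharZero Ω] {reg : ℝ → (B →+* PadicAlgCl p) → Prop} (hN : NGp p l B reg)
    (hF : ∀ r β, reg r β → Fx β) (d : ℕ) (ρ : (Ω ≃ₐ[B] Ω) →* Matrix (Fin d) (Fin d) ℤ_[l])
    (hc : ∀ n : ℕ, ∃ E : Finset Ω, ∀ g : Ω ≃ₐ[B] Ω, (∀ e ∈ E, g e = e) →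
      ∀ a b, (l : ℤ_[l]) ^ n ∣ (ρ g - 1) a b)
    (hI : ∀ a : Ideal P, a.IsMaximal → ∀ g : Ω ≃ₐ[B] Ω,
      (∀ z w : P, algebraMap P Ω w = g (algebraMap P Ω z) → w - z ∈ a) → ρ g = 1) (i : ℤ)
    (hP : ∀ (b : P →+* AlgebraicClosure (ZMod p))
      (ψ : AlgebraicClosure (ZMod p) →+* AlgebraicClosure (ZMod p)) (g : Ω ≃ₐ[B] Ω) (Q : ℕ),
      1 < Q → (∀ z, ψ z ^ Q = z) →
      (∀ z w : P, algebraMap P Ω w = g (algebraMap P Ω z) → b w = ψ (b z)) →
      ∃ c : ℚ[X], c ≠ 0 ∧ (∀ z : ℂ, aeval z c = 0 → ‖z‖ ^ 2 = (Q : ℝ) ^ i) ∧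
        aeval (Matrix.toLin' ((ρ g).map (algebraMap ℤ_[l] ℚ_[l])))
          (c.map (algebraMap ℚ ℚ_[l])) = 0) :
    ∃ r : ℝ, 1 < r ∧ ∀ (b : P →+* PadicAlgCl p), reg r (b.comp (algebraMap B P)) →
      ∀ (φ u : PadicAlgCl p ≃+* PadicAlgCl p) (Q : ℕ), 1 < Q →
        Frob ℤ_[p] Q φ → Frob ℤ_[p] 1 u →
        (∃ (n : ℕ) (r : PadicAlgCl p) (o : ℤ_[p]), r ^ l ^ n = algebraMap _ _ o ∧ u r ≠ r) →
        ∃ m : ℕ, m ≠ 0 ∧ ∃ g h : Ω ≃ₐ[B] Ω,
          (∀ z w : P, algebraMap P Ω w = g (algebraMap P Ω z) → b w = (φ ^ m) (b z)) ∧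
          (∀ z w : P, algebraMap P Ω w = h (algebraMap P Ω z) → b w = (u ^ m) (b z)) ∧
          MwPure (Q ^ m) i (Matrix.toLin' ((ρ g).map (algebraMap ℤ_[l] ℚ_[l])))
            (Matrix.toLin' ((ρ h).map (algebraMap ℤ_[l] ℚ_[l]))) := by
  obtain ⟨L, hL, hE⟩ := exists_locSys ρ hc hI
  obtain ⟨r, hr1, h⟩ := hN L hL
  refine ⟨r, hr1, fun b hb φ u Q hQ hφ hu hr => ?_⟩
  have hinj : Function.Injective (algebraMap B P) := Function.Injective.of_comp
    (f := algebraMap P Ω) (by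
      rw [← RingHom.coe_comp, ← IsScalarTower.algebraMap_eq]
      exact FaithfulSMul.algebraMap_injective B Ω)
  have hint : Algebra.IsIntegral B P := IsIntegralClosure.isIntegral_algebra B Ω
  have pure : ∀ [Algebra B (AlgebraicClosure (ZMod p))],
      Pure L i (AlgebraicClosure (ZMod p)) := by
    intro _ ψ Q' hQ' hψ
    obtain ⟨y, hy⟩ := ext_int (algebraMap B P) (algebraMap_isIntegral_iff.2 hint)
      (algebraMap B (AlgebraicClosure (ZMod p))) (by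
        rw [(RingHom.injective_iff_ker_eq_bot _).1 hinj]; exact bot_le)
    let y' : P →ₐ[B] AlgebraicClosure (ZMod p) := ⟨y, hy⟩
    obtain ⟨E, hE⟩ := hE _ y'
    obtain ⟨g, hg⟩ := zg_lift (Ω := Ω) y' ψ
    obtain ⟨c, c0, c1, c2⟩ := hP y ψ g Q' hQ' hψ hg
    exact ⟨c, c0, c1, zg_aeval E (hE g ψ hg) _ c2⟩
  let _ : Algebra B (PadicAlgCl p) := (b.comp (algebraMap B P)).toAlgebra
  obtain ⟨m, hm, hfix⟩ := hF _ _ hb φ u hφ.1 hu.1
  let φ' : PadicAlgCl p ≃ₐ[B] PadicAlgCl p := { (φ ^ m :) with commutes' := fun r => (hfix r).1 }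
  let u' : PadicAlgCl p ≃ₐ[B] PadicAlgCl p := { (u ^ m :) with commutes' := fun r => (hfix r).2 }
  let b' : P →ₐ[B] PadicAlgCl p := ⟨b, fun _ => rfl⟩
  obtain ⟨E, hE⟩ := hE _ b'
  obtain ⟨g, hg⟩ := zg_lift (Ω := Ω) b' φ'
  obtain ⟨g', hg'⟩ := zg_lift (Ω := Ω) b' u'
  have hu' := frob_pow u hu m
  rw [one_pow] at hu'
  exact ⟨m, hm, g, g', hg, hg', pa_tr E (hE g φ' hg) (hE g' u' hg')
    (h i pure hb φ' u' (Q ^ m) (Nat.one_lt_pow hm hQ) (frob_pow φ hφ m) hu'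
      (move_pow hlp u hu m hm hr))⟩

lemma ex_r {ι : Type} (S : Finset ι) (r : ι → ℝ) (hr : ∀ i ∈ S, 1 < r i) (D : ι → ℕ) :
    ∃ t : ℝ, 1 < t ∧ ∀ i ∈ S, t ^ D i ≤ r i := by
  have h : ∀ᶠ t in nhdsWithin (1 : ℝ) (Set.Ioi 1), ∀ i ∈ S, t ^ D i ≤ r i :=
    (Filter.eventually_all_finset S).2 fun i hi => nhdsWithin_le_nhds
      (((continuous_pow (D i)).tendsto' (1 : ℝ) 1 (one_pow _)).eventually
        (eventually_le_nhds (hr i hi)))
  exact ((eventually_mem_nhdsWithin (a := (1 : ℝ)) (s := Set.Ioi 1)).and h).exists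

lemma norm_adj {R K : Type} [CommRing R] [NormedField K] [IsUltrametricDist K] {s : Set R}
    (hs : Algebra.adjoin ℤ s = ⊤) (a : R) :
    ∃ D : ℕ, ∀ (x : R →+* K) (r : ℝ), 1 ≤ r → (∀ b ∈ s, ‖x b‖ ≤ r) → ‖x a‖ ≤ r ^ D := by
  have ha : a ∈ Algebra.adjoin ℤ s := hs.ge trivial
  induction ha using Algebra.adjoin_induction with
  | mem b hb => exact ⟨1, fun x r _ h => by simpa using h b hb⟩
  | algebraMap c =>
    exact ⟨0, fun x r _ _ => by simpa using IsUltrametricDist.norm_intCast_le_one K c⟩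
  | add a b _ _ ha hb =>
    obtain ⟨D, hD⟩ := ha
    obtain ⟨E, hE⟩ := hb
    refine ⟨D + E, fun x r h1 h => ?_⟩
    rw [map_add]
    exact (IsUltrametricDist.norm_add_le_max _ _).trans (max_le
      ((hD x r h1 h).trans (pow_le_pow_right₀ h1 (Nat.le_add_right _ _)))
      ((hE x r h1 h).trans (pow_le_pow_right₀ h1 (Nat.le_add_left _ _))))
  | mul a b _ _ ha hb =>
    obtain ⟨D, hD⟩ := ha
    obtain ⟨E, hE⟩ := hb
    refine ⟨D + E, fun x r h1 h => ?_⟩
    rw [map_mul, norm_mul, pow_add]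
    exact mul_le_mul (hD x r h1 h) (hE x r h1 h) (norm_nonneg _) (by positivity)

lemma adj_away {O R B : Type} [CommRing O] [CommRing R] [CommRing B] [Algebra O R] [Algebra R B]
    [Algebra O B] [IsScalarTower O R B] (g : R) [IsLocalization.Away g B] {s : Set R}
    (hs : Algebra.adjoin O s = ⊤) :
    Algebra.adjoin O (algebraMap R B '' s ∪ {y | y * algebraMap R B g = 1}) = ⊤ := by
  refine eq_top_iff.2 fun z _ => ?_
  obtain ⟨n, a, h⟩ := IsLocalization.Away.surj g z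
  obtain ⟨y, hy⟩ := (IsLocalization.Away.algebraMap_isUnit (S := B) g).exists_left_inv
  have e : z = algebraMap R B a * y ^ n := by
    rw [← h, mul_assoc, ← mul_pow, mul_comm _ y, hy, one_pow, mul_one]
  have h1 : y ∈ Algebra.adjoin O (algebraMap R B '' s ∪ {y | y * algebraMap R B g = 1}) :=
    Algebra.subset_adjoin (Or.inr hy)
  rw [e]
  refine mul_mem ?_ (pow_mem h1 n)
  have : algebraMap R B a ∈ (Algebra.adjoin O s).map (IsScalarTower.toAlgHom O R B) :=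
    ⟨a, hs.ge trivial, rfl⟩
  rw [AlgHom.map_adjoin] at this
  exact Algebra.adjoin_mono Set.subset_union_left this

end Pool.Agent.MP_855f4c_ag.GZ

end

section

/-! Section Z2: mw purity near good reduction over normal semistable bases. -/

set_option autoImplicit false
set_option backward.isDefEq.respectTransparency false

namespace Pool.Agent.MP_855f4c_ag.GZ

open E E4 EZ CategoryTheory Limits Opposite AlgebraicGeometry Polynomial

section
variable {X Y : Scheme.{0}} (f : X ⟶ Y) {l : ℕ} [Fact l.Prime] {N : ℕ}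
  (hN : ∀ (k : Type) [Field k] [IsAlgClosed k] (t : Spec (.of k) ⟶ Y), (l : k) ≠ 0 →
    ∀ q, N ≤ q → ∀ x : H (fbr f t) (Linf l X) q, x = 0)
  {B : Type} [CommRing B] (u : Spec (.of B) ⟶ Y) (hl : IsUnit (l : B))
  (hL : ∀ i < N, Cc l ((Rq f i).obj (Linf l X)) ∧ Lcf l ((pb u).obj ((Rq f i).obj (Linf l X))) ∧
    Wt l i ((pb u).obj ((Rq f i).obj (Linf l X))))
  {Ω : Type} [Field Ω] [IsAlgClosed Ω] [Algebra B Ω] [FaithfulSMul B Ω]
  [Algebra.IsAlgebraic B Ω]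

include hN hl hL

/-- Purity at the generic point, for one automorphism. -/
lemma pure_one (t : Spec (.of Ω) ⟶ Y) (ht : spc (algebraMap B Ω) ≫ u = t) (g : Ω ≃ₐ[B] Ω)
    (hD : ∀ (hψ : spc (g.toRingEquiv : Ω →+* Ω) ≫ t = t) (Q : ℕ) (j : ℚ_[l] →+* ℂ), 0 < Q →
      (∀ (ζ : Ω) (n : ℕ), ζ ^ l ^ n = 1 → g.toRingEquiv ζ ^ Q = ζ) →
      (∀ i, Cof l (H (fbr f t) (Linf l X) i)) →
      (∀ i, Ev j (Set.Iic ((Q : ℝ) ^ i))
        (Hact f (Linf l X) i (g.toRingEquiv : Ω →+* Ω) hψ)) →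
      ∀ i, Ev j {(Q : ℝ) ^ i} (Hact f (Linf l X) i (g.toRingEquiv : Ω →+* Ω) hψ))
    {p : ℕ} [Fact p.Prime] (b : integralClosure B Ω →+* AlgebraicClosure (ZMod p))
    (ψ : AlgebraicClosure (ZMod p) →+* AlgebraicClosure (ZMod p)) {Q : ℕ}
    (hQ : 1 < Q) (hψ : ∀ z, ψ z ^ Q = z)
    (hg : ∀ z w : integralClosure B Ω, (w : Ω) = g z → b w = ψ (b z)) (i : ℕ)
    (j : ℚ_[l] →+* ℂ) :
    Ev j {(Q : ℝ) ^ i} (gal u Ω ((Rq f i).obj (Linf l X)).obj g) := by
  subst ht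
  have h0 : (l : Ω) ≠ 0 := by simpa using (hl.map (algebraMap B Ω)).ne_zero
  have h1 : (l : AlgebraicClosure (ZMod p)) ≠ 0 := by
    simpa using (hl.map (b.comp (algebraMap B _))).ne_zero
  have hfix : spc (g.toRingEquiv : Ω →+* Ω) ≫ spc (algebraMap B Ω) ≫ u =
      spc (algebraMap B Ω) ≫ u := Over.w (act u Ω g)
  refine (ev_gal u _ g hfix j _).2 ((ev_stk f _ i _ hfix j _).1
    (hD hfix Q j (by omega) (fun ζ n hζ => ?_) (cof_all f hN u hl hL _) (fun i => ?_) i))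
  · have hn : l ^ n ≠ 0 := pow_ne_zero n (Fact.out : l.Prime).ne_zero
    have hi : IsIntegral B ζ := IsIntegral.of_pow (Nat.pos_of_ne_zero hn) (hζ ▸ isIntegral_one)
    have := root_eq b (n := l ^ n) (by simpa using fun h => (h1 h).elim)
      (x := (⟨g ζ, hi.map g⟩ : integralClosure B Ω) ^ Q) (y := ⟨ζ, hi⟩)
      (Subtype.ext (by
        change (g ζ ^ Q) ^ l ^ n = 1
        rw [← pow_mul, mul_comm, pow_mul, ← map_pow, hζ, map_one, one_pow]))
      (Subtype.ext hζ) (by rw [map_pow, hg ⟨ζ, hi⟩ _ rfl, hψ])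
    exact congrArg Subtype.val this
  · by_cases hi : i < N
    · exact (ev_stk f _ i _ hfix j _).2 ((ev_gal u _ g hfix j _).1
        (up u (hL i hi).1 (hL i hi).2.1 hl (hL i hi).2.2 b ψ g hQ hψ hg j))
    · exact ev_zero (hN Ω _ h0 i (not_lt.1 hi)) _ _ _

end

lemma lift_pow {B Ω k : Type} [CommRing B] [Field Ω] [Algebra B Ω] [CommRing k]
    (b : integralClosure B Ω →+* k) (ψ : k →+* k) (g : Ω ≃ₐ[B] Ω) {Q : ℕ} (hψ : ∀ z, ψ z ^ Q = z)
    (hg : ∀ z w : integralClosure B Ω, (w : Ω) = g z → b w = ψ (b z)) (m : ℕ) :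
    (∀ z, (ψ ^ m) z ^ Q ^ m = z) ∧
      ∀ z w : integralClosure B Ω, (w : Ω) = (g ^ m) z → b w = (ψ ^ m) (b z) := by
  induction m with
  | zero => exact ⟨fun z => by simp, fun z w h => congrArg b (Subtype.ext h)⟩
  | succ m ih =>
    refine ⟨fun z => ?_, fun z w h => ?_⟩
    · rw [pow_succ', RingHom.mul_def, RingHom.comp_apply, pow_succ', pow_mul, hψ, ih.1]
    · rw [pow_succ', RingHom.mul_def, RingHom.comp_apply,
        ← ih.2 z ⟨(g ^ m) z, z.2.map (g ^ m)⟩ rfl]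
      exact hg _ _ (by rw [h, pow_succ', AlgEquiv.mul_apply])

/-- The main step: a normal base on which lisse pure systems are mw pure near good reduction. -/
theorem ngen (hS : G.SBX_s) (hW : G.WTX_s) (hP : PBCX_s) (hD : DW_s) (hC : CDX_s) (p l : ℕ)
    [Fact p.Prime] [Fact l.Prime] (hlp : l ≠ p) (R : Type) [CommRing R] [Algebra.FiniteType ℤ R]
    (X : Scheme.{0}) (f : X ⟶ Spec (.of R)) [Smooth f] [IsProper f] (B Ω : Type) [CommRing B]
    [IsDomain B] [IsIntegrallyClosed B] [Field Ω] [IsAlgClosed Ω] [CharZero Ω] [Algebra B Ω]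
    [FaithfulSMul B Ω] [Algebra.IsAlgebraic B Ω] (τ : R →+* B) (hl : IsUnit (l : B))
    {reg : ℝ → (B →+* PadicAlgCl p) → Prop} (hm : ∀ r r' β, r ≤ r' → reg r β → reg r' β)
    (hG : NGp p l B reg) (hF : ∀ r β, reg r β → Fx β) :
    ∃ r : ℝ, 1 < r ∧ ∀ β : B →+* PadicAlgCl p, reg r β → At f p l (spc (β.comp τ)) := by
  classical
  have : IsNoetherianRing R := Algebra.FiniteType.isNoetherianRing ℤ R
  obtain ⟨N, hN⟩ := hC R X f
  obtain ⟨S, hS'⟩ := hD R Ω ((algebraMap B Ω).comp τ) X f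
  let v : Spec (.of B) ⟶ Spec (.of R) := spc τ
  have hv : ∀ {k : Type} [CommRing k] (β : B →+* k), spc β ≫ v = spc (β.comp τ) := fun β => by
    rw [← Spec.map_comp, ← CommRingCat.ofHom_comp]
  have hL : ∀ i, Cc l ((Rq f i).obj (Linf l X)) ∧
      Lcf l ((pb v).obj ((Rq f i).obj (Linf l X))) ∧
      Wt l i ((pb v).obj ((Rq f i).obj (Linf l X))) := fun i => by
    have h1 := hP l R X X _ f f (𝟙 _) (𝟙 _) (IsPullback.of_horiz_isIso ⟨by simp⟩) _ i
      (G0.linf_Tc l X)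
    refine ⟨h1.1, ⟨h1.pb v, (Lis.map_iff v _ _).2 ((hS l X _ f i).mono (Over.homMk (𝟙 _ ≫ v))),
      fun k _ _ x hk => (hW l R X f i).2 k (x ≫ v) hk⟩, fun k _ _ x Q ψ h j => ?_⟩
    exact (hW l R X f i).1 k (x ≫ v) Q ψ
      ⟨h.ne, h.lt, h.pow, h.alg, by rw [← Category.assoc, h.fix]⟩ j
  have hN' := fun (k : Type) [Field k] [IsAlgClosed k] => hN l _ (G0.linf_Tc l X) k
  have hl0 : l ≠ 0 := (Fact.out : l.Prime).ne_zero
  have hlk : (l : PadicAlgCl p) ≠ 0 := Nat.cast_ne_zero.2 hl0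
  choose d E ρ e1 e2 e3 using fun i => rep (Ω := Ω) v (hL i).1 (hL i).2.1 hl
  choose r hr1 hz using fun i : ℕ => ncore hlp B (integralClosure B Ω) Ω hG hF (d i) (ρ i) (e2 i)
    (e3 i) i fun b ψ g Q hQ hψ hg => by
      obtain ⟨m, m0, hm⟩ := pow_fix g S
      obtain ⟨a1, a2⟩ := lift_pow b ψ g hψ hg m
      have key := pure_one f hN' v hl (fun i _ => hL i) _ (hv _) (g ^ m)
        (fun hψ Q j => hS' l _ hψ Q j hm) b (ψ ^ m) (Nat.one_lt_pow m0 hQ) a1 a2 i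
      obtain ⟨c, c0, c1, c2⟩ := zpure (Vm l (gal v Ω ((Rq f i).obj (Linf l X)).obj (g ^ m)))
        (((Q ^ m : ℕ) : ℝ) ^ i)
        (fun j => (key j).imp fun c hc => ⟨hc.1, hc.2.1, fun z hz =>
          (hc.2.2 z (by rwa [IsRoot, Polynomial.eval_map] at hz)).le⟩)
        (fun j => (key j).imp fun c hc => ⟨hc.1, hc.2.1, fun z hz =>
          (hc.2.2 z (by rwa [IsRoot, Polynomial.eval_map] at hz)).ge⟩)
      refine pure_root _ m0 c0 c1 ?_
      have := aeval_tr (E i) (e1 i (g ^ m)) _ c2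
      rwa [map_pow, ← RingHom.mapMatrix_apply, map_pow, Matrix.toLin'_pow] at this
  obtain ⟨t, t1, ht'⟩ := ex_r (Finset.range N) r (fun i _ => hr1 i) fun _ => 1
  refine ⟨t, t1, fun β hβ i φ u hφ hu Q hQ f1 f2 hr => ?_⟩
  obtain ⟨b, hb⟩ := LP.ext_int (algebraMap B (integralClosure B Ω))
    (algebraMap_isIntegral_iff.2 inferInstance) β (by
      rw [(RingHom.injective_iff_ker_eq_bot _).1 fun _ _ h =>
        FaithfulSMul.algebraMap_injective B Ω (congrArg Subtype.val h)]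
      exact bot_le)
  obtain rfl : b.comp (algebraMap B _) = β := RingHom.ext hb
  have ht := hv (b.comp (algebraMap B _))
  obtain ⟨Θ, hΘ⟩ := hl_V l (fbr f (spc ((b.comp (algebraMap B _)).comp τ))) i fun j _ =>
    ht ▸ cof_all f hN' v hl (fun i _ => hL i) _ j
  by_cases hi : i < N
  swap
  · exact mw_zero (fun w => Θ.injective (V.ext fun _ =>
      (hN' _ _ hlk i (not_lt.1 hi) _).trans (hN' _ _ hlk i (not_lt.1 hi) _).symm)) _ _ _ _
  obtain ⟨m, hm, g, h, hg, hh, hw⟩ := hz i b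
    (hm _ _ _ ((pow_one t).ge.trans (ht' i (Finset.mem_range.2 hi))) hβ) φ u Q hQ f1 f2 hr
  obtain ⟨e, he⟩ := spec_of v b _ ht (hL i).1 (hL i).2.1 hl
  rw [conj_pow (E i) e _ _ _ _ m (e1 i g) (he g _ (spc_pow φ hφ m) hg) (rsec_pow φ hφ _ m),
    conj_pow (E i) e _ _ _ _ m (e1 i h) (he h _ (spc_pow u hu m) hh) (rsec_pow u hu _ m)] at hw
  exact mw_tr _
    (fun w => conj_tr Θ (stk f (Linf l X) i _) _ _ _ (stk_act f _ i _ hφ) w _ (hΘ _ w))
    (fun w => conj_tr Θ (stk f (Linf l X) i _) _ _ _ (stk_act f _ i _ hu) w _ (hΘ _ w))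
    (LP.MwPure.of_pow Q hQ i _ _ m hm hw)

theorem ngs' (hS : G.SBX_s) (hW : G.WTX_s) (hP : PBCX_s) (hD : DW_s) (hC : CDX_s) (p l : ℕ)
    [Fact p.Prime] [Fact l.Prime] (hlp : l ≠ p) (R : Type) [CommRing R] [Algebra.FiniteType ℤ R]
    (X : Scheme.{0}) (f : X ⟶ Spec (.of R)) [Smooth f] [IsProper f]
    (K : IntermediateField ℚ_[p] (PadicAlgCl p)) [FiniteDimensional ℚ_[p] K] (O A : Type)
    [CommRing O] [Algebra O (PadicAlgCl p)]
    (hO : ∀ c, algebraMap O (PadicAlgCl p) c ∈ K ∧ ‖algebraMap O (PadicAlgCl p) c‖ ≤ 1)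
    (w : O) (w0 : algebraMap O (PadicAlgCl p) w ≠ 0) (w1 : ‖algebraMap O (PadicAlgCl p) w‖ < 1)
    {P : Type} [CommRing P] [Algebra O P] [Algebra.FiniteType O P] {j : ℕ} {t : Fin j → P}
    (hSP : LP.SP w t) [CommRing A] [Algebra O A] [Algebra P A] [IsScalarTower O P A]
    [Algebra.Smooth P A] [Algebra R A] (s : Set A) (hs : Algebra.adjoin O s = ⊤) [IsDomain A]
    [IsIntegrallyClosed A] : G.Near p l f O s := by
  by_cases hA : Nonempty (A →+* PadicAlgCl p)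
  swap
  · exact ⟨2, one_lt_two, fun _ => (hA ⟨algebraMap _ _⟩).elim⟩
  have : CharZero A := hA.some.charZero
  obtain ⟨Ω, _, _, _, inj, _⟩ := exists_omega A
  have : CharZero Ω := charZero_of_injective_algebraMap inj
  have hl0 : l ≠ 0 := (Fact.out : l.Prime).ne_zero
  obtain ⟨B, _, _, _, _, _, _, _, _, _, -⟩ := exists_away A Ω inj (l : A) (Nat.cast_ne_zero.2 hl0)
  have hl : IsUnit (l : B) := by
    simpa using IsLocalization.Away.algebraMap_isUnit (S := B) (l : A)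
  let _ : Algebra O B := ((algebraMap A B).comp (algebraMap O A)).toAlgebra
  let _ : Algebra P B := ((algebraMap A B).comp (algebraMap _ A)).toAlgebra
  have : IsScalarTower O A B := .of_algebraMap_eq fun _ => rfl
  have : IsScalarTower P A B := .of_algebraMap_eq fun _ => rfl
  have : IsScalarTower O P B := .of_algebraMap_eq (R := O) fun c =>
    (congrArg (algebraMap A B) (IsScalarTower.algebraMap_apply O P A c) :)
  have : Algebra.Smooth A B := .of_isLocalization_Away (l : A)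
  have : Algebra.Smooth P B := .comp _ A B
  have : Algebra.FiniteType O B := .trans (S := P) inferInstance inferInstance
  obtain ⟨r, r1, h⟩ := ngen hS hW hP hD hC p l hlp R X f B Ω
    ((algebraMap A B).comp (algebraMap R A)) hl
    (reg := fun r β => (∀ c, β (algebraMap O B c) = algebraMap O _ c) ∧
      ∀ a ∈ algebraMap A B '' s ∪ {y | y * algebraMap A B l = 1}, ‖β a‖ ≤ r)
    (fun _ _ _ h H => ⟨H.1, fun a ha => (H.2 a ha).trans h⟩)
    (fun L hL => by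
      obtain ⟨r, r1, h⟩ := LP.ng_pure p l hlp K O B hO w w0 w1 hSP _
        (adj_away (l : A) hs) L hL
      exact ⟨r, r1, fun i H _ hb =>
        have : IsScalarTower O B (PadicAlgCl p) := .of_algebraMap_eq fun c => (hb.1 c).symm
        h i (fun _ => H) hb.2⟩)
    fun _ β H => fx_of K β fun c => (H.1 c).symm ▸ (hO c).1
  refine ⟨r, r1, fun hr i φ u Q => ?_⟩
  have hlk : IsUnit (algebraMap A (PadicAlgCl p) l) := by simpa using hl0
  let β : B →+* PadicAlgCl p := IsLocalization.Away.lift (l : A) hlk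
  have hβ : ∀ a, β (algebraMap A B a) = algebraMap A _ a := IsLocalization.Away.lift_eq _ hlk
  have e : β.comp ((algebraMap A B).comp (algebraMap R A)) = algebraMap R _ :=
    RingHom.ext fun c => (hβ _).trans (IsScalarTower.algebraMap_apply R A _ c).symm
  have H := h β ⟨fun c => (hβ _).trans (IsScalarTower.algebraMap_apply O A _ c).symm, by
    rintro a (⟨a, ha, rfl⟩ | ha)
    · exact (hβ a).symm ▸ hr a ha
    · have h1 := congrArg (‖β ·‖) ha
      have h2 : ‖(l : PadicAlgCl p)‖ = 1 := by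
        rw [← map_natCast (algebraMap ℚ_[p] (PadicAlgCl p)), PadicAlgCl.norm_extends,
          Padic.norm_natCast_eq_one_iff]
        exact (Nat.coprime_primes Fact.out Fact.out).2 hlp.symm
      simp only [map_mul, map_natCast, norm_mul, h2, mul_one, map_one, norm_one] at h1
      exact h1.le.trans r1.le⟩
  rw [e] at H
  exact H i φ.toRingEquiv u.toRingEquiv _ _ Q

theorem ngs (hS : G.SBX_s) (hW : G.WTX_s) (hP : PBCX_s) (hD : DW_s) (hC : CDX_s) : G.NGS_s :=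
  fun p l _ _ hlp R _ _ X f _ _ K _ O A _ _ hO w w0 w1 j _ _ _ _ _ _ s hs ⟨_, _⟩ =>
    ngs' hS hW hP hD hC p l hlp R X f K O A hO w w0 w1 (LP.sm_sp w j) s hs

end Pool.Agent.MP_855f4c_ag.GZ

end

section

/-! From `ℤ_p` to an arbitrary discrete valuation ring. -/

set_option autoImplicit false
set_option backward.isDefEq.respectTransparency false

open CategoryTheory Limits AlgebraicGeometry Function

namespace Pool.Agent.MP_855f4c_ag.E.G

open LP M3

def NGD_s : Prop := ∀ (O Ω : Type) [CommRing O] [IsDomain O] [IsDiscreteValuationRing O]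
  [Finite (IsLocalRing.ResidueField O)] [Field Ω] [CharZero Ω] [IsAlgClosed Ω] [Algebra O Ω]
  [FaithfulSMul O Ω] [Algebra.IsAlgebraic O Ω] (l : ℕ) [Fact l.Prime], IsUnit (l : O) →
  ∀ w : O, w ≠ 0 → ¬ IsUnit w → ∀ (j : ℕ) (A : Type) [CommRing A] [Algebra O A]
    (g : Ch w j →ₐ[O] A), g.toRingHom.Smooth → ∀ s : Set A, Algebra.adjoin O s = ⊤ →
    ∀ (R : Type) [CommRing R] [Algebra.FiniteType ℤ R] (ρ : R →+* A) (X : Scheme.{0})
      (f : X ⟶ Spec (.of R)) [Smooth f] [IsProper f],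
      ∃ N : ℕ, ∀ (x : A →ₐ[O] Ω) [Algebra R Ω], (∀ r, algebraMap R Ω r = x (ρ r)) →
        (∀ a ∈ s, IsIntegral O (algebraMap O Ω w * x a ^ N)) →
        ∀ (i : ℕ) (φ u : Ω ≃ₐ[R] Ω) (Q : ℕ), 1 < Q → Frob O Q φ → Frob O 1 u →
          (∃ (n : ℕ) (r : Ω) (o : O), r ^ l ^ n = algebraMap O Ω o ∧ u r ≠ r) →
          Mw Q i (E.gal f l i φ) (E.gal f l i u)

section
variable {p : ℕ} [Fact p.Prime] {O : Type} [CommRing O] [IsDomain O] [IsDiscreteValuationRing O]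
  (χ : O →+* PadicAlgCl p) (h : ∀ o, ‖χ o‖ ≤ 1)
include h

lemma nu_lt (o : O) (ho : ¬ IsUnit o) : ‖χ o‖ < 1 := by
  obtain ⟨π, hπ⟩ := IsDiscreteValuationRing.exists_irreducible O
  have p0 : (p : O) ≠ 0 := fun e => (Nat.cast_ne_zero.2 (Fact.out : p.Prime).ne_zero :
    (p : PadicAlgCl p) ≠ 0) (by rw [← map_natCast χ, e, map_zero])
  obtain ⟨n, v, e⟩ := IsDiscreteValuationRing.eq_unit_mul_pow_irreducible p0 hπ
  have h1 : ‖χ π‖ < 1 := (h π).lt_of_ne fun e1 => by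
    have h2 : ‖χ p‖ * ‖χ (v⁻¹ : Oˣ)‖ = 1 := by
      rw [← norm_mul, ← map_mul, e, mul_right_comm, Units.mul_inv, one_mul, map_pow, norm_pow, e1,
        one_pow]
    exact (mul_lt_one_of_nonneg_of_lt_one_left (norm_nonneg _)
      (by rw [map_natCast]; exact ISO.norm_p) (h _)).ne h2
  obtain ⟨c, rfl⟩ : π ∣ o := by
    rw [← Ideal.mem_span_singleton, ← hπ.maximalIdeal_eq]; exact ho
  rw [map_mul, norm_mul]
  exact mul_lt_one_of_nonneg_of_lt_one_left (norm_nonneg _) h1 (h c)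

lemma fin_K [Finite (IsLocalRing.ResidueField O)] :
    ∃ K : IntermediateField ℚ_[p] (PadicAlgCl p), FiniteDimensional ℚ_[p] K ∧ ∀ o, χ o ∈ K := by
  obtain ⟨π, hπ⟩ := IsDiscreteValuationRing.exists_irreducible O
  choose c hc using IsLocalRing.residue_surjective (R := O)
  let S : Set (PadicAlgCl p) := insert (χ π) (Set.range (χ ∘ c))
  have : Finite S := ((Set.finite_range _).insert _).to_subtype
  let K := IntermediateField.adjoin ℚ_[p] S
  have hK : FiniteDimensional ℚ_[p] K := IntermediateField.finiteDimensional_adjoin fun x _ =>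
    Algebra.IsIntegral.isIntegral x
  have hs := IntermediateField.subset_adjoin ℚ_[p] S
  have key (n : ℕ) : ∀ o, ∃ k ∈ K, ‖χ o - k‖ ≤ ‖χ π‖ ^ n := by
    induction n with
    | zero => exact fun o => ⟨0, zero_mem _, by simpa using h o⟩
    | succ n ih =>
      intro o
      obtain ⟨d, hd⟩ : π ∣ o - c (IsLocalRing.residue O o) := by
        rw [← Ideal.mem_span_singleton, ← hπ.maximalIdeal_eq, ← IsLocalRing.residue_eq_zero_iff,
          map_sub, hc, sub_self]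
      obtain ⟨k, hk, e⟩ := ih d
      refine ⟨χ (c (IsLocalRing.residue O o)) + χ π * k,
        add_mem (hs (.inr ⟨_, rfl⟩)) (mul_mem (hs (.inl rfl)) hk), ?_⟩
      rw [← sub_sub, ← map_sub, hd, map_mul, ← mul_sub, norm_mul, pow_succ']
      exact mul_le_mul_of_nonneg_left e (norm_nonneg _)
  refine ⟨K, hK, fun o => ?_⟩
  have cl : IsClosed (K : Set (PadicAlgCl p)) :=
    Submodule.closed_of_finiteDimensional K.toSubalgebra.toSubmodule
  refine cl.closure_subset (Metric.mem_closure_iff.2 fun ε hε => ?_)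
  obtain ⟨n, hn⟩ := exists_pow_lt_of_lt_one hε (nu_lt χ h π hπ.not_isUnit)
  obtain ⟨k, hk, e⟩ := key n o
  exact ⟨k, hk, by rw [dist_eq_norm]; exact e.trans_lt hn⟩

end

theorem ngd (hN : NGT_s) (hP : PBCX_s) (hE : EMB_s) (hI : ISO_s) (hX : EXT_s) (hF : FRB_s) :
    NGD_s := by
  intro O Ω _ _ _ _ _ _ _ _ _ _ l _ ul w w0 w1 j A _ _ g hg s hs R _ _ ρ X f _ _
  have : IsNoetherianRing R := Algebra.FiniteType.isNoetherianRing ℤ R
  obtain ⟨p, hp⟩ := CharP.exists (IsLocalRing.ResidueField O)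
  have : Fact p.Prime := ⟨CharP.char_is_prime (IsLocalRing.ResidueField O) p⟩
  have up : ¬ IsUnit (p : O) := fun h =>
    (h.map (IsLocalRing.residue O)).ne_zero (by rw [map_natCast, CharP.cast_eq_zero])
  have : CharZero O := (algebraMap O Ω).charZero
  obtain ⟨χ, c1, c2⟩ := hE p O up
  obtain ⟨ι, hι⟩ := exists_iota (Ω := Ω) χ c1
  obtain ⟨K, hK, c3⟩ := fin_K χ c2
  have hl : l ≠ p := fun e => up (e ▸ ul)
  let := χ.toAlgebra
  let := g.toRingHom.toAlgebra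
  let := ρ.toAlgebra
  have : IsScalarTower O (Ch w j) A := tow_of _ fun c => (g.commutes c).symm
  have : Algebra.Smooth (Ch w j) A := hg
  have w2 : χ w ≠ 0 := (map_ne_zero_iff χ c1).2 w0
  obtain ⟨r, r1, H⟩ := hN p l hl R X f K O A (fun c => ⟨c3 c, c2 c⟩) w w2 (nu_lt χ c2 w w1) j s hs
    trivial
  obtain ⟨N, hN⟩ := pow_unbounded_of_one_lt ‖χ w‖⁻¹ r1
  refine ⟨N, fun x _ hx hi i φ u Q hQ hφ hu ⟨n, z, o, hz, huz⟩ => ?_⟩
  have c4 : ∀ o, ‖ι (algebraMap O Ω o)‖ ≤ 1 := fun o => (hι o).symm ▸ c2 o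
  let : Algebra R (PadicAlgCl p) := (ι.comp (algebraMap R Ω)).toAlgebra
  let : Algebra A (PadicAlgCl p) := (ι.comp x.toRingHom).toAlgebra
  have : IsScalarTower O A (PadicAlgCl p) := .of_algebraMap_eq fun c =>
    ((congrArg ι (x.commutes c)).trans (hι c)).symm
  have : IsScalarTower R A (PadicAlgCl p) := .of_algebraMap_eq fun c => congrArg ι (hx c)
  have ext (g : Ω ≃ₐ[R] Ω) (q : ℕ) (hq : 0 < q) (hg : Frob O q g) :
      ∃ (g' : PadicAlgCl p ≃ₐ[ℚ_[p]] PadicAlgCl p) (g'' : PadicAlgCl p ≃ₐ[R] PadicAlgCl p),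
        ⇑g' = g'' ∧ (∀ z, g'' (ι z) = ι (g z)) ∧ Frob ℤ_[p] q g' := by
    obtain ⟨a1, a2⟩ := hI p O Ω ι up c4 q g hq hg
    obtain ⟨g', hg'⟩ := (hX p Ω ι).2 g a1
    refine ⟨g', { g'.toRingEquiv with
      commutes' := fun r => (hg' _).trans (congrArg ι (g.commutes r)) }, rfl, hg',
      (hF p g').1 q _ (hX p Ω ι).1 ?_⟩
    rintro _ ⟨z, rfl⟩ hz
    rw [hg']
    exact a2 z hz
  obtain ⟨φ', φ'', a1, a2, a3⟩ := ext φ Q (by omega) hφ
  obtain ⟨u', u'', b1, b2, b3⟩ := ext u 1 one_pos hu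
  have b4 := (hF p u').2 l hl b3 n (ι z) (by rw [← map_pow, hz, b1, b2, hu.1]) fun e =>
    huz (ι.injective (by rwa [b1, b2] at e))
  rw [a1] at a3
  rw [b1] at b3 b4
  have e : spc ι ≫ spc (algebraMap R Ω) = spc (algebraMap R (PadicAlgCl p)) := by
    rw [← Spec.map_comp, ← CommRingCat.ofHom_comp]; rfl
  have hr : ∀ a ∈ s, ‖algebraMap A (PadicAlgCl p) a‖ ≤ r := fun a ha => by
    have h1 : ‖ι (algebraMap O Ω w * x a ^ N)‖ ≤ 1 := H7.val_int (ISO.vv ι) c4 (hi a ha)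
    rw [map_mul, hι, map_pow, norm_mul, norm_pow, ← le_inv_mul_iff₀ (norm_pos_iff.2 w2),
      mul_one] at h1
    exact (lt_of_pow_lt_pow_left₀ N (by linarith) (h1.trans_lt hN)).le
  have H1 : M2.MwG f l i Q φ'' u'' := H hr i φ'' u'' Q hQ a3 b3 b4
  have H2 : M2.MwG f l i Q φ u :=
    mwG_ext hP f l ι e (Nat.cast_ne_zero.2 (Fact.out : l.Prime).ne_zero) a2 b2 H1
  exact H2

end Pool.Agent.MP_855f4c_ag.E.G

end
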