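import Pool.Agent.MP_855f4c_ag.EG.Gc
import Pool.Agent.MP_855f4c_ag.EC.M3a

section

/-! Row NIL: the norm of a long cyclic `l`-group kills small invariants. -/

set_option autoImplicit false

open Polynomial

namespace Pool.Agent.MP_855f4c_ag.E.Vp

theorem nil_poly (l n : ℕ) [Fact l.Prime] :
    (X - 1 : (ZMod l)[X]) ^ l ^ n = X ^ l ^ n - 1 ∧
      (X - 1 : (ZMod l)[X]) ^ (l ^ n - 1) = ∑ i ∈ Finset.range (l ^ n), X ^ i := by
  have h : (X - 1 : (ZMod l)[X]) ^ l ^ n = X ^ l ^ n - 1 := by rw [sub_pow_char_pow, one_pow]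
  refine ⟨h, mul_right_cancel₀ (b := X - 1) (by simpa using X_sub_C_ne_zero (1 : ZMod l)) ?_⟩
  rw [geom_sum_mul, ← h, ← pow_succ, Nat.sub_add_cancel (Nat.one_le_pow _ _ (Fact.out : l.Prime).pos)]

theorem nil_ring (l n : ℕ) [Fact l.Prime] {R : Type 1} [Ring R] (hl : (l : R) = 0) (x : R) :
    (x - 1) ^ l ^ n = x ^ l ^ n - 1 ∧ (x - 1) ^ (l ^ n - 1) = ∑ i ∈ Finset.range (l ^ n), x ^ i := by
  let f : ZMod l →+* R := ZMod.castHom (ringChar.dvd hl) R
  let e : (ZMod l)[X] →+* R := eval₂RingHom' f x fun a => by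
    obtain ⟨a, rfl⟩ := ZMod.natCast_zmod_surjective a
    rw [map_natCast]
    exact Nat.cast_commute _ _
  have hx : e X = x := eval₂_X _ _
  obtain ⟨h1, h2⟩ := nil_poly l n
  have h3 := congrArg e h1
  have h4 := congrArg e h2
  simp only [map_pow, map_sub, map_one, map_sum, hx] at h3 h4
  exact ⟨h3, h4⟩

theorem nil : NIL_s := by
  intro l n _ M T _ _ _ φ b hl hc hb m
  obtain ⟨h1, h2⟩ := nil_ring l n (R := AddMonoid.End M) (AddMonoidHom.ext hl) φ
  have h3 : ∀ m, b (((φ - 1) ^ l ^ n) m) = 0 := fun m => by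
    rw [h1]
    exact (map_sub b _ _).trans (sub_eq_zero.mpr (hb m))
  have h4 : ∀ i j : ℕ, i < j → j < l ^ n → ((φ - 1) ^ i) m = ((φ - 1) ^ j) m →
      b (((φ - 1) ^ (l ^ n - 1)) m) = 0 := fun i j hij hj h => by
    have e1 : (φ - 1) ^ (l ^ n - 1) = (φ - 1) ^ (l ^ n - 1 - i) * (φ - 1) ^ i := by
      rw [← pow_add]; congr 1; omega
    have e2 : (φ - 1) ^ (l ^ n - 1 - i) * (φ - 1) ^ j = (φ - 1) ^ l ^ n * (φ - 1) ^ (j - i - 1) := by
      rw [← pow_add, ← pow_add]; congr 1; omega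
    have e3 : ∀ (s t : AddMonoid.End M) (x : M), (s * t) x = s (t x) := fun _ _ _ => rfl
    rw [e1, e3, h, ← e3, e2]
    exact h3 _
  have h5 : b (((φ - 1) ^ (l ^ n - 1)) m) = 0 := by
    have := Fintype.ofFinite M
    obtain ⟨i, j, hij, h⟩ := Fintype.exists_ne_map_eq_of_card_lt
      (fun i : Fin (l ^ n) => ((φ - 1) ^ (i : ℕ)) m)
      (by rwa [Fintype.card_fin, ← Nat.card_eq_fintype_card])
    rcases lt_or_gt_of_ne hij with h' | h'
    · exact h4 i j h' j.2 h
    · exact h4 j i h' i.2 h.symm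
  rw [h2] at h5
  rw [← h5, ← map_sum]
  exact congrArg b (AddMonoidHom.finsetSum_apply _ _ m).symm

end Pool.Agent.MP_855f4c_ag.E.Vp

end

section

/-! Row NNA: normal subrings of finite type in every characteristic. -/

set_option autoImplicit false

namespace Pool.Agent.MP_855f4c_ag.E.Vp

open Algebra in
open scoped IntermediateField.algebraAdjoinAdjoin in
/-- A finite subset of a field lies in a normal subring of finite type. -/
lemma nna_fin (Ω : Type) [Field Ω] (s : Finset Ω) :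
    ∃ C : Subring Ω, (s : Set Ω) ⊆ C ∧ FiniteType ℤ C ∧ IsIntegrallyClosed C := by
  classical
  obtain _ | ⟨p, hp, _⟩ := CharP.exists' Ω
  · exact EZ.nnz_fin Ω s
  let := ZMod.algebra Ω p
  let L := IntermediateField.adjoin (ZMod p) (s : Set Ω)
  have : EssFiniteType (ZMod p) L := IntermediateField.essFiniteType_iff.2 ⟨s, rfl⟩
  obtain ⟨t, ht, hsep⟩ := exists_isTranscendenceBasis_and_isSeparable_of_perfectField (ZMod p) L
  let P : Subalgebra (ZMod p) L := adjoin (ZMod p) (t : Set L)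
  let F := IntermediateField.adjoin (ZMod p) (t : Set L)
  have e : MvPolynomial t (ZMod p) ≃ₐ[ZMod p] P := (AlgebraicIndependent.aevalEquiv ht.1).trans
    (Subalgebra.equivOfEq _ _ (by simp [P]))
  have : IsIntegrallyClosed P := .of_equiv e.toRingEquiv
  have : FiniteType (ZMod p) P := (Subalgebra.fg_iff_finiteType P).mp ⟨t, rfl⟩
  have : FiniteType ℤ P := .trans (S := ZMod p) inferInstance inferInstance
  have : EssFiniteType F L := .of_comp (ZMod p) _ _
  have : FiniteDimensional F L := Algebra.finite_of_essFiniteType_of_isAlgebraic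
  obtain ⟨C, h1, h2, h3⟩ := EZ.nnz_core P F L
    (s.attach.image fun x : s => (⟨x.1, IntermediateField.subset_adjoin _ _ x.2⟩ : L))
  let e' := C.equivMapOfInjective (algebraMap L Ω) (algebraMap L Ω).injective
  exact ⟨C.map (algebraMap L Ω), fun x hx => ⟨⟨x, IntermediateField.subset_adjoin _ _ hx⟩,
    h1 (Finset.mem_image_of_mem _ (Finset.mem_attach _ ⟨x, hx⟩)), rfl⟩,
    h2.of_surjective e'.toRingHom.toIntAlgHom e'.surjective, .of_equiv e'⟩

theorem nna : NNA_s := by
  classical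
  intro Ω _ A h
  obtain ⟨s, hs⟩ := h.out
  obtain ⟨C, h1, h2⟩ := nna_fin Ω (s.image Subtype.val)
  refine ⟨C, fun x hx => ?_, h2⟩
  have hx' : (⟨x, hx⟩ : A) ∈ Algebra.adjoin ℤ (s : Set A) := hs ▸ Algebra.mem_top
  rw [Algebra.adjoin_int] at hx'
  exact (Subring.closure_le (t := C.comap A.subtype)).mpr
    (fun y hy => h1 (Finset.mem_image_of_mem _ hy)) hx'

end Pool.Agent.MP_855f4c_ag.E.Vp

end

section

set_option autoImplicit false
set_option backward.isDefEq.respectTransparency false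

open CategoryTheory Limits Abelian Opposite AlgebraicGeometry Polynomial

namespace Pool.Agent.MP_855f4c_ag.E.Vp

open E3 E4 Function U

/-- A generically lisse sheaf whose generic stalk has rank zero is generically null. -/
theorem r2e_nul (l : ℕ) [Fact l.Prime] {A : Type} [CommRing A] (Ω : Type) [Field Ω] [IsAlgClosed Ω]
    [Algebra A Ω] [FaithfulSMul A Ω] [Algebra.IsAlgebraic A Ω] (hl : IsUnit (l : A))
    (F : Sh (Scheme.etaleTopology.over (Spec (.of A)))) (hF : EP (fun _ => Lcf l) Ω F)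
    (h0 : rk l (sec F (Over.mk (spc (algebraMap A Ω)))) = 0) : EP (fun _ => Nul l) Ω F := by
  obtain ⟨A', ft, α, hα, H⟩ := hF
  refine ⟨A', ft, α, hα, fun B _ β => ⟨H B β, fun k _ _ x hk => ?_⟩⟩
  let _ : Algebra A A' := α.toAlgebra
  have : IsScalarTower A A' Ω := .of_algebraMap_eq fun a => (RingHom.congr_fun hα a).symm
  have : Algebra.IsAlgebraic A' Ω := Algebra.IsAlgebraic.extendScalars (R := A) fun a b e =>
    FaithfulSMul.algebraMap_injective A Ω <| by
      rw [IsScalarTower.algebraMap_apply A A' Ω, e, ← IsScalarTower.algebraMap_apply]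
  have key (y) (e : y = spc (algebraMap A Ω)) : rk l (sec F (Over.mk y)) = 0 := e ▸ h0
  have h1 := sub.nul l A' Ω ((PB (spc α)).obj F) (map_natCast α l ▸ hl.map α)
    (H A' (RingHom.id _)) (key _ <| by
      change (spc (algebraMap A' Ω) ≫ 𝟙 _) ≫ spc α = _
      rw [Category.comp_id, twi_spc]
      exact congrArg spc hα)
  have h2 (y) (e : y = (x ≫ spc β) ≫ spc α) : rk l (sec F (Over.mk y)) = 0 :=
    e ▸ h1.2 k (x ≫ spc β) hk
  exact h2 _ (by rw [Category.assoc, twi_spc]; rfl)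

theorem r2e (hL : GLG_s) (hR : RCW_s) (hO : COI_s) (hD : DU2_s) (hC : GdCof_s) : R2E_s := by
  intro l _ A _ L r a _ a₁ k _ _ hs h₁ G hG'
  have hN := ntc
  have hJ := jsh'
  have hA := alg
  have hG := ge'
  have := hs.nor
  have := hs.cl
  have := hs.inj
  have := hs.alg
  have := (FaithfulSMul.algebraMap_injective A k).isDomain
  have hm : (hp a).Monic := monic_prod_of_monic _ _ fun i _ => monic_X_sub_C (a i)
  have hh : IsUnit (hp a).leadingCoeff := hm.leadingCoeff ▸ isUnit_one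
  have h0 := (hm.map (algebraMap A k)).ne_zero
  obtain ⟨Ω, _, _, _, _, _, -⟩ := twi_alg k _ h0
  set B := Localization.Away ((hp a).map (algebraMap A k))
  obtain ⟨β, hβ, hx⟩ := twi_gen L (hp a) (algebraMap A k) B Ω
  let _ := β.toAlgebra
  obtain ⟨_, _⟩ := r2_alg (B := Localization.Away (hp a)) (B' := B) (Ω := Ω) (hp a) h0 hβ
  let ι : k →+* Ω := (algebraMap B Ω).comp ((algebraMap k[X] B).comp C)
  have hl : (l : k) ≠ 0 := map_natCast (algebraMap A k) l ▸ (hs.unit.map _).ne_zero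
  have hlΩ : (l : Ω) ≠ 0 := fun e => hl (ι.injective (by rw [map_natCast, e, map_zero]))
  obtain ⟨K, W, i, p, hi, hip, hp', hK, hW, hr⟩ := hO l (hp a) a₁ k Ω ι
    (RingHom.ext fun c => ((hβ (C c)).trans (by rw [map_C]; rfl)).symm) hs.unit
    (by simpa [hp, eval_prod, IsUnit.prod_univ_iff] using h₁) G hG'
  refine ⟨K, W, i, p, hi, hip, hp', hK, hW, ?_⟩
  have hPW := hG.lcfPb l (gu (hp a)) W hW
  have hk := (hN.ex i p hip Ω _).addMonoidHom_ker_eq.trans hr
  have hon := hN.epi p hp' Ω (spc β ≫ 𝟙 _)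
  have r₁ := r2_rank hD hC hJ hN hA l L (hp a) _ hh hl hlΩ hβ hx G hG' _ (hPW.2.2 Ω _ hlΩ) hon hk
  have r₂ := r2_rank hD hC hJ hN hA l L (hp a) _ hh hl hlΩ hβ hx _ hPW (AddMonoidHom.id _)
    (hPW.2.2 Ω _ hlΩ) surjective_id <| le_antisymm
      (fun m hm => (show m = 0 from hm) ▸ zero_mem _) <| (AddSubgroup.closure_le _).2 <| by
        rintro _ ⟨g, m, hg, rfl⟩
        obtain ⟨m, rfl⟩ := hon m
        have := hk.ge (AddSubgroup.subset_closure ⟨g, m, hg, rfl⟩)
        rw [AddMonoidHom.mem_ker, map_sub] at this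
        exact (congrArg (· - _) (nat p.hom (act _ Ω g) m)).symm.trans this
  obtain ⟨-, δ, ⟨w, hδ⟩, -⟩ := hJ.les L _ i p hi hip hp' 2
  have he : Epi ((Rc L (hp a) 2).map p) :=
    hδ.epi_f ((((hR l L a hs.unit).1 K hK).2.2 0).eq_of_tgt _ _)
  have l₁ := (((hR l L a hs.unit).1 G hG').1 2).2
  refine r2e_nul l k hs.unit _ ((hL l L a k hs G hG' 2).imp₂ (hL l L a k hs _ hPW 2)
    fun B' _ γ e₁ e₂ => ?_) ?_
  · obtain ⟨_, _, _⟩ := nrq.exa (spc γ)
    exact (hG.thick l _).iso (PreservesKernel.iso (PB (spc γ)) _).symm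
      ((hG.thick l _).ker ((PB (spc γ)).map ((Rc L (hp a) 2).map p)) e₁ e₂)
  · have := (hG.add l (kernel.ι _) _ inferInstance ⟨_, ShortComplex.exact_kernel _⟩ he l₁ k
      (spc (algebraMap A k))).1 hl
    rw [r₁, r₂] at this
    exact Nat.add_right_cancel (this.symm.trans (zero_add _).symm)

end Pool.Agent.MP_855f4c_ag.E.Vp

end

section

set_option autoImplicit false
set_option backward.isDefEq.respectTransparency false

open CategoryTheory Limits Abelian Opposite AlgebraicGeometry Polynomial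

namespace Pool.Agent.MP_855f4c_ag.E.Vp

open E3 E4 Function U

theorem rcw (hP : PBC_s) (hC : GdCof_s) (hD : CD3_s) (hTF : TF_s) (hCT : CT_s) : RCW_s := by
  intro l _ A _ L r a _ hs
  have hl : Linv l (Spec (.of A)) := Linv.spec hs
  have hN := ntc
  have hJ := jsh'
  have hA := alg
  refine ⟨fun G hG => ?_, fun G hG k _ _ t Q ψ e => ?_,
    fun w G G₁ G' i p _ _ hG' hG₁ hG hw k _ _ t Q ψ e j => ?_⟩
  · have g := hJ.gd l L _ G hG
    refine ⟨fun b => ⟨hP l _ L _ b g.1,
      fun k _ _ x hk => rcl_cof _ (hN.stk L.π _ b k x) ((hC l A L _ _ (rcl_lc a) g k x hk).2 b)⟩,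
      hN.ptz l _ hl (hP l _ L _ 0 g.1) fun k _ _ x s => ?_,
      fun b => hN.ptz l _ hl (hP l _ L _ _ g.1) fun k _ _ x s => ?_⟩
    · obtain ⟨s, rfl⟩ := (hN.stk L.π _ 0 k x).2 s
      rw [(hC l A L _ _ (rcl_lc a) g k x (hl k x)).1 s, map_zero]
    · obtain ⟨s, rfl⟩ := (hN.stk L.π _ (b + 3) k x).2 s
      rw [hD l _ L _ g.1 k x (hl k x) b s, map_zero]
  · have h (b) := (hA.iso l _ (Hact L.π ((js L (hp a)).obj G) b ψ e.fix) (rsec (sph ψ e.fix) _)
      (hN.stk L.π _ b k t) (stk_res L.π _ b _)).1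
    have h0 := hTF l A L _ _ _ (rcl_lc a) (rcl_eval a 0) (hJ.gd l L _ G hG.1) k t Q ψ e
    rw [h, h] at h0
    refine Exists.imp (fun c hc => h0.symm.trans hc) ?_
    refine finsum_induction (fun z : ℚ_[l] => ∃ c : ℚ, z = c) ⟨0, Rat.cast_zero.symm⟩ ?_
      fun x => hJ.rat l L _ G hG.2 k x.1 Q ψ ⟨e.ne, e.lt, e.pow, e.alg, x.2.2⟩
    rintro _ _ ⟨c, rfl⟩ ⟨d, rfl⟩
    exact ⟨c + d, (Rat.cast_add c d).symm⟩
  · obtain ⟨_, _, _⟩ := hJ.exa L (hp a)
    exact ((hA.iso l _ (Hact L.π ((js L (hp a)).obj G) 1 ψ e.fix) (rsec (sph ψ e.fix) _)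
      (hN.stk L.π _ 1 k t) (stk_res L.π _ 1 _)).2.2 j _).1
      (hCT l A L _ _ _ _ _ ((js L (hp a)).map i) ((js L (hp a)).map p) w (rcl_lc a) (rcl_eval a 0)
        (hJ.gd l L _ G hG) (hJ.gd l L _ G₁ hG₁) (hJ.gd l L _ G' hG'.1) (hJ.rat l L _ G' hG'.2)
        (hJ.wt l w L _ G hw) k t Q ψ e j)

end Pool.Agent.MP_855f4c_ag.E.Vp

end

section

/-! Row SPA: the generic point of the affine line, up to a power of Frobenius. -/

set_option autoImplicit false

open Polynomial

namespace Pool.Agent.MP_855f4c_ag.E.Vp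

open U

lemma spa_sep (F : Type) {K' : Type} [Field F] [Field K'] [Algebra F K'] [Algebra.IsAlgebraic F K']
    (c : ℕ) [ExpChar F c] (S : Set K') (hS : S.Finite) :
    ∃ n : ℕ, ∀ x ∈ S, IsSeparable F (x ^ c ^ n) := by
  have : ExpChar (separableClosure F K') c :=
    expChar_of_injective_algebraMap (algebraMap F (separableClosure F K')).injective c
  have h : ∀ x : K', ∃ n : ℕ, ∀ m, n ≤ m → IsSeparable F (x ^ c ^ m) := fun x => by
    obtain ⟨n, y, hy⟩ := IsPurelyInseparable.pow_mem (separableClosure F K') c x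
    refine ⟨n, fun m hm => ?_⟩
    obtain ⟨k, rfl⟩ := Nat.exists_eq_add_of_le hm
    rw [pow_add, pow_mul, ← hy]
    exact pow_mem y.2 (c ^ k)
  choose N hN using h
  obtain ⟨n, hn⟩ := (hS.image N).bddAbove
  exact ⟨n, fun x hx => hN x n (hn ⟨x, hx, rfl⟩)⟩

lemma spa_add {K : Type} [Field K] (c n : ℕ) [hc : ExpChar K c] (A : Subring K) {E : Type}
    [CommRing E] (g : A →+* E) (x y : E) : (x + y) ^ c ^ n = x ^ c ^ n + y ^ c ^ n := by
  cases hc with
  | zero => simp
  | prime hp =>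
    obtain ⟨r, hr⟩ := exists_add_pow_prime_pow_eq hp x y n
    have h0 : (c : A) = 0 := Subtype.ext (by simp)
    have h1 : (c : E) = 0 := by rw [← map_natCast g, h0, map_zero]
    rw [hr, h1]; ring

/-- The field theory: a primitive element with denominators. -/
lemma spa_prim (R F : Type) {K' : Type} [CommRing R] [IsDomain R] [IsIntegrallyClosed R] [Field K']
    [Field F] [Algebra R F] [IsFractionRing R F] [Algebra R K'] [FaithfulSMul R K']
    [Algebra F K'] [IsScalarTower R F K'] [Algebra.IsAlgebraic R K']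
    (S : Set K') (hS : S.Finite) (hsep : ∀ x ∈ S, IsSeparable F x) :
    ∃ (θ : K') (m : R[X]), m.Monic ∧ m.natDegree ≠ 0 ∧ aeval θ m = 0 ∧
      (∀ g : F[X], aeval θ g = 0 → m.map (algebraMap R F) ∣ g) ∧
      (∃ d : R, d ≠ 0 ∧ ∃ u v : R[X], u * m + v * derivative m = C d) ∧
      ∀ x ∈ S, ∃ d : R, d ≠ 0 ∧ ∃ g : R[X], algebraMap R K' d * x = aeval θ g := by
  have : Algebra.IsAlgebraic F K' := Algebra.IsAlgebraic.extendScalars (R := R)
    (FaithfulSMul.algebraMap_injective R F)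
  have hint : ∀ x : K', IsIntegral F x := fun x => (Algebra.IsAlgebraic.isAlgebraic x).isIntegral
  have := hS.to_subtype
  let L := IntermediateField.adjoin F S
  have : FiniteDimensional F L := IntermediateField.finiteDimensional_adjoin fun x _ => hint x
  have : Algebra.IsSeparable F L := (IntermediateField.isSeparable_adjoin_iff_isSeparable F K').2 hsep
  have hL : L ≤ separableClosure F K' := IntermediateField.adjoin_le_iff.2 hsep
  obtain ⟨θ₀, h₀⟩ := Field.exists_primitive_element F L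
  obtain ⟨y, hy, hθ⟩ := (Algebra.IsAlgebraic.isAlgebraic (R := R) (θ₀ : K')).exists_integral_multiple
  have hinj := FaithfulSMul.algebraMap_injective R F
  have hm := minpoly.isIntegrallyClosed_eq_field_fractions' F hθ
  refine ⟨y • (θ₀ : K'), minpoly R _, minpoly.monic hθ, (minpoly.natDegree_pos hθ).ne',
    minpoly.aeval _ _, fun g hg => hm ▸ minpoly.dvd F _ hg, ?_, fun x hx => ?_⟩
  · obtain ⟨u, v, h⟩ : (minpoly F (y • (θ₀ : K'))).Separable := by
      have h5 := IntermediateField.smul_mem _ (hL θ₀.2) (x := algebraMap R F y)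
      rwa [algebraMap_smul] at h5
    obtain ⟨b, hb, hu⟩ := IsLocalization.integerNormalization_spec (nonZeroDivisors R) u
    obtain ⟨c, hc, hv⟩ := IsLocalization.integerNormalization_spec (nonZeroDivisors R) v
    refine ⟨b * c, mul_ne_zero (nonZeroDivisors.ne_zero hb) (nonZeroDivisors.ne_zero hc),
      C c * IsLocalization.integerNormalization (nonZeroDivisors R) u,
      C b * IsLocalization.integerNormalization (nonZeroDivisors R) v, map_injective _ hinj ?_⟩
    simp only [Polynomial.map_add, Polynomial.map_mul, hu, hv, map_C, ← derivative_map, ← hm]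
    rw [Algebra.smul_def b, Algebra.smul_def c, Polynomial.algebraMap_apply,
      Polynomial.algebraMap_apply, map_mul, map_mul]
    linear_combination (C (algebraMap R F b) * C (algebraMap R F c)) * h
  · have h1 : x ∈ IntermediateField.adjoin F {(θ₀ : K')} := by
      have h2 : (⟨x, IntermediateField.subset_adjoin F S hx⟩ : L) ∈
          IntermediateField.adjoin F {θ₀} := h₀ ▸ IntermediateField.mem_top
      have h3 := IntermediateField.adjoin_map F {θ₀} L.val
      rw [Set.image_singleton] at h3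
      exact h3 ▸ ⟨_, h2, rfl⟩
    have h4 : x ∈ IntermediateField.adjoin F {y • (θ₀ : K')} := by
      refine (IntermediateField.adjoin_simple_le_iff.2 ?_) h1
      have h5 := IntermediateField.smul_mem _
        (IntermediateField.mem_adjoin_simple_self F (y • (θ₀ : K'))) (x := (algebraMap R F y)⁻¹)
      rwa [← algebraMap_smul F y, smul_smul, inv_mul_cancel₀ ((map_ne_zero_iff _ hinj).2 hy),
        one_smul, algebraMap_smul] at h5
    have h6 : x ∈ Algebra.adjoin F {y • (θ₀ : K')} := by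
      rw [← IntermediateField.adjoin_simple_toSubalgebra_of_isAlgebraic
        (Algebra.IsAlgebraic.isAlgebraic _)]
      exact h4
    rw [Algebra.adjoin_singleton_eq_range_aeval] at h6
    obtain ⟨p, hp⟩ := h6
    obtain ⟨b, hb, hu⟩ := IsLocalization.integerNormalization_spec (nonZeroDivisors R) p
    refine ⟨b, nonZeroDivisors.ne_zero hb,
      IsLocalization.integerNormalization (nonZeroDivisors R) p, ?_⟩
    rw [← aeval_map_algebraMap F, hu, ← algebraMap_smul F b, map_smul, algebraMap_smul,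
      Algebra.smul_def]
    exact congrArg _ hp.symm

open Spg in
theorem spa : SPA_s := by
  intro A₀ K K' _ _ _ _ ι _ _ _ _ A' _ α' hα'
  classical
  let F := FractionRing K[X]
  let : Algebra F K' := FractionRing.liftAlgebra K[X] K'
  have : IsScalarTower K[X] F K' := FractionRing.isScalarTower_liftAlgebra K[X] K'
  obtain ⟨s, hs⟩ := U.Spg.gens A'
  obtain ⟨c, hc⟩ := ExpChar.exists K
  have hcF : ExpChar F c := expChar_of_injective_algebraMap (algebraMap K F).injective c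
  have hcK : ExpChar K' c := expChar_of_injective_algebraMap (algebraMap F K').injective c
  have : Algebra.IsAlgebraic F K' := Algebra.IsAlgebraic.extendScalars (R := K[X])
    (FaithfulSMul.algebraMap_injective K[X] F)
  obtain ⟨n, hn⟩ := spa_sep F c (A'.subtype '' s) (s.finite_toSet.image _)
  let Φ : A' →+* K' := (iterateFrobenius K' c n).comp A'.subtype
  have hΦ : ∀ x, Φ x = (x : K') ^ c ^ n := fun _ => rfl
  obtain ⟨θ, m, hm, hm0, hθ, hd, ⟨d, hd0, u, v, huv⟩, hx⟩ :=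
    spa_prim K[X] F (Φ '' s) (s.finite_toSet.image _) (by
      rintro _ ⟨x, hx, rfl⟩
      exact hn _ ⟨x, hx, rfl⟩)
  choose dx hdx gx hgx using fun x : s => hx (Φ x) ⟨x, x.2, rfl⟩
  have hδ : d * ∏ x, dx x ≠ 0 := mul_ne_zero hd0 (Finset.prod_ne_zero_iff.2 fun x _ => hdx x)
  obtain ⟨r, a, a₁, ha, ha₁, hdiv⟩ := U.Spg.roots _ hδ
  generalize (d * ∏ x, dx x).natDegree = N at hdiv
  obtain ⟨e, he⟩ : d ∣ hp a ^ N := (dvd_mul_right _ _).trans hdiv
  choose ex hex using fun x : s => show dx x ∣ hp a ^ N from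
    ((Finset.dvd_prod_of_mem dx (Finset.mem_univ x)).mul_left d).trans hdiv
  obtain ⟨A, hA, ⟨⟨⟨⟨⟨⟨⟨⟨k1, k2⟩, k3⟩, k4⟩, k5⟩, mA, rfl⟩, uA, k7⟩, vA, k8⟩, k9⟩⟩ :=
    (((((((((Lg.ft ι).and (Lg.all fun i => Lg.mem (a i))).and (Lg.mem a₁)).and
      (Lg.all fun i => Lg.all fun j => Lg.mem (a i - a j)⁻¹)).and
      (Lg.all fun i => Lg.mem (a₁ - a i)⁻¹)).and (Lg.poly2 m)).and (Lg.poly2 (C e * u))).and
      (Lg.poly2 (C e * v))).and (Lg.all fun x : s => Lg.poly2 (C (ex x) * gx x))).ex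
  let aA : Fin (r + 1) → A := fun i => ⟨a i, k2 i⟩
  have i1 : Function.Injective (mapRingHom A.subtype) := map_injective _ A.subtype_injective
  have hh : (hp aA).map A.subtype = hp a := U.Spg.hp_map _ _
  have h0 : hp aA ≠ 0 := (monic_prod_of_monic _ _ fun i _ => monic_X_sub_C (aA i)).ne_zero
  have hmA : mA.Monic := monic_of_injective i1 hm
  obtain ⟨φ, hφ, hφ1, hφ2⟩ := U.Spg.core F A (hp aA) h0 θ mA hmA hθ hd
  have hr : ∀ x : A', Φ x ∈ φ.range := hs K' Φ φ.range fun x hx => by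
    obtain ⟨g, hg⟩ := k9 ⟨x, hx⟩
    refine hφ2 _ N g ?_
    rw [hg, hh, hex ⟨x, hx⟩, map_mul, map_mul, aeval_C, ← hgx ⟨x, hx⟩, mul_comm (algebraMap _ _ _),
      mul_assoc]
  let E := RingEquiv.ofBijective φ.rangeRestrict
    ⟨fun x y e => hφ (congrArg Subtype.val e), φ.rangeRestrict_surjective⟩
  let βA : A' →+* _ := E.symm.toRingHom.comp (Φ.codRestrict φ.range hr)
  have hβA : ∀ x, φ (βA x) = Φ x := fun x => congrArg Subtype.val (E.apply_symm_apply ⟨Φ x, hr x⟩)
  let α : A₀ →+* A := ι.codRestrict A k1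
  have hsep : (mA.map (algebraMap A[X] (Localization.Away (hp aA)))).Separable := by
    have h1 : uA * mA + vA * derivative mA = C (hp aA ^ N) := by
      apply map_injective _ i1
      rw [Polynomial.map_add, Polynomial.map_mul, Polynomial.map_mul, k7, k8, ← derivative_map,
        map_C, map_pow, coe_mapRingHom, hh, he, map_mul, ← huv]
      ring
    have h2 := congrArg (Polynomial.map (algebraMap A[X] (Localization.Away (hp aA)))) h1
    rw [Polynomial.map_add, Polynomial.map_mul, Polynomial.map_mul, ← derivative_map, map_C] at h2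
    refine ⟨C (IsLocalization.Away.invSelf (hp aA) ^ N) * uA.map (algebraMap _ _),
      C (IsLocalization.Away.invSelf (hp aA) ^ N) * vA.map (algebraMap _ _), ?_⟩
    rw [mul_assoc, mul_assoc, ← mul_add, h2, ← map_mul, map_pow, ← mul_pow, mul_comm,
      IsLocalization.Away.mul_invSelf, one_pow, map_one]
  refine ⟨A, hA, α, r, aA, ⟨a₁, k3⟩, rfl, fun i j hij => ?_, fun i => ?_, fun B _ β => ?_⟩
  · exact IsUnit.of_mul_eq_one ⟨_, k4 i j⟩
      (Subtype.ext (mul_inv_cancel₀ (sub_ne_zero.2 (ha.ne hij))))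
  · exact IsUnit.of_mul_eq_one ⟨_, k5 i⟩ (Subtype.ext (mul_inv_cancel₀ (sub_ne_zero.2 (ha₁ i))))
  · let RB := Localization.Away (hp fun i => β (aA i))
    let g₁ : A[X] →+* RB := (algebraMap B[X] RB).comp (mapRingHom β)
    have hu : IsUnit (g₁ (hp aA)) := by
      change IsUnit (algebraMap B[X] RB ((hp aA).map β))
      rw [U.Spg.hp_map]
      exact IsLocalization.Away.algebraMap_isUnit _
    let ρ : Localization.Away (hp aA) →+* RB := IsLocalization.Away.lift _ hu
    have hρ : ρ.comp (algebraMap A[X] _) = g₁ := IsLocalization.Away.lift_comp _ hu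
    let mB := (mA.map (algebraMap A[X] (Localization.Away (hp aA)))).map ρ
    have hmB : mB.Monic := (hmA.map _).map _
    have := hmB.finite_adjoinRoot
    have hadd : ∀ (E : Type) [CommRing E], (AdjoinRoot mB →+* E) →
        ∀ x y : E, (x + y) ^ c ^ n = x ^ c ^ n + y ^ c ^ n := fun E _ g =>
      spa_add c n A (g.comp (((AdjoinRoot.of mB).comp g₁).comp C))
    have hq : c ^ n ≠ 0 := (expChar_pow_pos K c n).ne'
    let φD : AdjoinRoot mB →+* AdjoinRoot mB :=
      { toFun := fun x => x ^ c ^ n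
        map_one' := one_pow _
        map_mul' := fun x y => mul_pow x y _
        map_zero' := zero_pow hq
        map_add' := hadd _ (RingHom.id _) }
    refine ⟨AdjoinRoot mB, inferInstance, inferInstance, this, U.Spg.etale_adjoinRoot hmB hsep.map,
      RingHom.IsIntegral.comap_surjective (algebraMap_isIntegral_iff.2 inferInstance)
        (U.Spg.of_inj hmB fun _ => ?_), (AdjoinRoot.map ρ _ mB dvd_rfl).comp βA, φD,
      ⟨c ^ n, hq, fun _ => rfl, hadd⟩, ?_⟩
    · have h3 : mB = mA.map g₁ := by rw [← hρ, ← Polynomial.map_map]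
      rw [h3, hmA.natDegree_map]
      rwa [hmA.natDegree_map] at hm0
    · refine RingHom.ext fun p => ?_
      have h4 : βA (α' p) = AdjoinRoot.of _ (algebraMap A[X] _ (p.map α)) ^ c ^ n := hφ (by
        rw [hβA, map_pow, hφ1, Polynomial.map_map, hΦ]
        exact congrArg (· ^ c ^ n) (RingHom.congr_fun hα' p))
      change AdjoinRoot.map ρ _ mB dvd_rfl (βA (α' p)) =
        AdjoinRoot.of mB (algebraMap B[X] RB (p.map (β.comp α))) ^ c ^ n
      rw [h4, map_pow, AdjoinRoot.map_of, ← Polynomial.map_map]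
      exact congrArg (fun z => AdjoinRoot.of mB z ^ c ^ n) (RingHom.congr_fun hρ _)

end Pool.Agent.MP_855f4c_ag.E.Vp

end

section

/-! Section V, row STAB: the divisible part of a lisse cofinite sheaf. -/

set_option autoImplicit false
set_option backward.isDefEq.respectTransparency false

open CategoryTheory Limits Abelian Opposite AlgebraicGeometry

namespace Pool.Agent.MP_855f4c_ag.E.Vp

open E3 E4 Function U

lemma stab_app {X : Scheme.{0}} (n : ℕ) (F : Sh (Scheme.etaleTopology.over X)) (T : Over X) (s : sec F T) :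
    app (n • 𝟙 F) T s = n • s := by
  induction n with
  | zero => rw [zero_smul, zero_smul]; rfl
  | succ n ih => rw [succ_nsmul, succ_nsmul, ← ih]; rfl

theorem stab : STAB_s := by
  intro l _ B _ _ _ G hl hG
  let Ω := AlgebraicClosure (FractionRing B)
  have : Algebra.IsAlgebraic B (FractionRing B) := IsLocalization.isAlgebraic _ (nonZeroDivisors B)
  have : Algebra.IsAlgebraic B Ω := Algebra.IsAlgebraic.trans B (FractionRing B) Ω
  have : FaithfulSMul B Ω := (faithfulSMul_iff_algebraMap_injective B Ω).2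
    ((algebraMap (FractionRing B) Ω).injective.comp (IsFractionRing.injective B (FractionRing B)))
  obtain ⟨c, hc⟩ := (hG.2.2 Ω (ob (𝟙 _) Ω).hom (by
    simpa using (hl.map (algebraMap B Ω)).ne_zero)).div
  obtain ⟨K, i, _, hK, hi⟩ := sub.sub l B Ω G hl hG (nsmulAddMonoidHom (l ^ c)).range (by
    rintro g _ ⟨m, rfl⟩
    exact ⟨_, (map_nsmul (E4.gal (𝟙 _) Ω G.obj g) _ m).symm⟩)
  have hQ := (ge'.thick l _).coker i hK hG
  have hr : ∀ m, ∃ t, app i (ob (𝟙 _) Ω) t = l ^ c • m := fun m =>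
    (hi.ge ⟨m, rfl⟩ : l ^ c • m ∈ (app i (ob (𝟙 _) Ω)).range)
  refine ⟨c, K, i, ‹_›, hK, ?_, ?_⟩
  · refine lis_epi (Ω := Ω) hK.1.1 (sub_lis hK) hl hK.1.1 (sub_lis hK) _ fun s => ?_
    obtain ⟨m, hm⟩ := hi.le ⟨s, rfl⟩
    obtain ⟨m', hm'⟩ := hc (c + 1) m
    obtain ⟨t, ht⟩ := hr m'
    refine ⟨t, ntc.mono i ‹_› _ ((congrArg _ (stab_app l K _ t)).trans ?_)⟩
    rw [map_nsmul, ht, ← mul_smul, ← pow_succ', ← hm']
    exact hm
  · refine lis_hom_ext (Ω := Ω) hQ.1.1 (sub_lis hQ) hl hQ.1.1 (sub_lis hQ) _ fun s => ?_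
    obtain ⟨m, rfl⟩ := ntc.epi (cokernel.π i) inferInstance Ω _ s
    obtain ⟨t, ht⟩ := hr m
    refine (stab_app _ _ _ _).trans ?_
    rw [← map_nsmul]
    exact (congrArg _ ht.symm).trans congr(($(cokernel.condition i)).hom.app _ t)

end Pool.Agent.MP_855f4c_ag.E.Vp

end

section

/-! Row TWE. -/

set_option autoImplicit false
set_option backward.isDefEq.respectTransparency false

open CategoryTheory Limits Abelian Opposite AlgebraicGeometry Polynomial

namespace Pool.Agent.MP_855f4c_ag.E.Vp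

open E3 E4 Function U USq

theorem twe_core (l : ℕ) [Fact l.Prime] {X : Scheme.{0}} {s y y' c : Sh (Scheme.etaleTopology.over X)} (i : s ⟶ y')
    (q : y' ⟶ c) (p : s ⟶ y) (e1 : Ex i q) (e2 : Epi q) (hp : Epi p) (hs : Lcf l s) (hy : Lcf l y)
    (hc : Lcf l c) (hy' : RatS l y')
    (hr : ∀ (k : Type) [Field k] [IsAlgClosed k] (x : Spec (.of k) ⟶ X), (l : k) ≠ 0 →
      rk l (sec y' (Over.mk x)) = rk l (sec s (Over.mk x)) + rk l (sec c (Over.mk x))) :
    Cl l y := by
  have th := ge'.thick l X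
  refine ge'.clQuo l p hp ?_ hy
  obtain ⟨j, hj⟩ := twc_epi e1
  have hI := th.ker q hy'.1 hc
  refine ge'.clMid l _ j (twc_ker j)
    (ge'.nul l 0 _ ⟨th.ker j hs hI, fun k _ _ x hl => ?_⟩).2.1.1
    (ge'.clSub l (kernel.ι _) inferInstance (.rat hy') hI) hs
  have a1 := (ge'.add l _ j inferInstance (twc_ker j) hj hs.2.2 k x).1 hl
  have a2 := (ge'.add l _ _ inferInstance (twc_ker _) e2 hy'.1.2.2 k x).1 hl
  have a3 := hr k x hl
  omega

theorem twe_pb {X Y : Scheme.{0}} (g : Y ⟶ X) {F G K : Sh (Scheme.etaleTopology.over X)} {i : F ⟶ G} {p : G ⟶ K}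
    (h : Ex i p ∧ Epi p) : Ex ((PB g).map i) ((PB g).map p) ∧ Epi ((PB g).map p) := by
  obtain ⟨_, _, _⟩ := nrq.exa g
  obtain ⟨h1, _⟩ := h
  exact ⟨⟨_, h1.2.map (PB g)⟩, inferInstance⟩

theorem twe (hG : GLG_s) (RC : RCW_s) (TI : TWI_s) : TWE_s := by
  intro l _ A _ L r a _ Ω _ _ ca W
  have rc := (RC l L a ca.unit).1
  have hm : IsUnit (hp a).leadingCoeff := by
    have : (hp a).Monic := monic_prod_of_monic _ _ fun i _ => monic_X_sub_C (a i)
    rw [this.leadingCoeff]
    exact isUnit_one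
  refine ⟨fun hW => ?_, fun w hW hw k _ _ x Q ψ h j => ?_⟩
  swap
  · have := ((TI l L _ W hm hW k x h.ne).2 Q ψ h).2 j _ (hw k x Q ψ h j)
    rwa [← pow_add, add_comm 2 w] at this
  have th := ge'.thick l (Spec (.of A))
  have lc (F) (hF : Lcf l F) := hG l L a Ω ca _ (ge'.lcfPb l (gu (hp a)) F hF) 2
  have ex {F G K : Sh (Scheme.etaleTopology.over (Spec (.of A)))} (i : F ⟶ G) (p : G ⟶ K) (hi : Mono i) (h : Ex i p)
      (hp' : Epi p) (hF : Lcf l F) :
      Ex ((Rc L (hp a) 2).map ((PB (gu (hp a))).map i))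
        ((Rc L (hp a) 2).map ((PB (gu (hp a))).map p)) ∧
      Epi ((Rc L (hp a) 2).map ((PB (gu (hp a))).map p)) := by
    obtain ⟨_, _, _⟩ := nrq.exa (gu (hp a))
    obtain ⟨h1, δ, h2, -⟩ := jsh'.les L _ ((PB (gu (hp a))).map i) ((PB (gu (hp a))).map p)
      inferInstance ⟨_, h.2.map (PB (gu (hp a)))⟩ inferInstance 2
    exact ⟨h1, epi_of_zero h2 ((rc _ (ge'.lcfPb l _ F hF)).2.2 0)⟩
  refine (U.sq.{1, 2} _ _ th).2.2 (RatS l) (fun _ => True)
    (fun F => EP (fun _ => Cl l) Ω ((Rc L (hp a) 2).obj ((PB (gu (hp a))).obj F))) (fun _ h => h.1)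
    (fun _ _ _ _ _ => trivial) (fun _ _ _ _ _ => trivial)
    (fun {S Y Y'} i p hi hp' hY' hS hY _ => ?_) (fun S hS h1 h2 _ p1 p3 => ?_) W
    ((ge'.clG l W).1 hW) trivial
  · have hC := th.coker i hS hY'.1
    have e0 := ex _ p inferInstance (twc_ker p) hp' (th.ker p hS hY)
    have e1 := ex i _ hi (ex_coker i) inferInstance hS
    have c' : RatT l ((Rc L (hp a) 2).obj ((PB (gu (hp a))).obj Y')) := fun k _ _ x Q ψ h => by
      obtain ⟨c, hc⟩ := hY'.2 k x Q ψ h
      exact ⟨Q * c, ((TI l L _ Y' hm hY'.1 k x h.ne).2 Q ψ h).1.trans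
        ((congrArg ((Q : ℚ_[l]) * ·) hc).trans (by push_cast; rfl))⟩
    refine evt'.mono _ _ _ (fun B _ γ z => ?_)
      (evt'.and _ _ _ (evt'.and _ _ _ (lc S hS) (lc Y hY)) (evt'.and _ _ _ (lc _ hC) (lc _ hY'.1)))
    refine twe_core l _ _ _ (twe_pb (spc γ) e1).1 (twe_pb (spc γ) e1).2 (twe_pb (spc γ) e0).2
      z.1.1 z.1.2 z.2.1 ⟨z.2.2, ge'.ratPb l _ _ c'⟩ fun k _ _ x hl => ?_
    have a3 := (ge'.add l i _ hi (ex_coker i) inferInstance hY'.1.2.2 k (x ≫ spc γ)).1 hl
    have b1 := (TI l L _ S hm hS k (x ≫ spc γ) hl).1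
    have b2 := (TI l L _ Y' hm hY'.1 k (x ≫ spc γ) hl).1
    have b3 := (TI l L _ _ hm hC k (x ≫ spc γ) hl).1
    exact b2.trans (a3.trans (congrArg₂ (· + ·) b1.symm b3.symm))
  · exact EP.imp₃ p1 p3 (lc _ h2) fun B _ γ => ge'.clMid l _ _
      (twe_pb (spc γ) (ex S.f S.g hS.mono_f ⟨S.zero, hS.exact⟩ hS.epi_g h1)).1

end Pool.Agent.MP_855f4c_ag.E.Vp

end

section

set_option autoImplicit false
set_option backward.isDefEq.respectTransparency false

open CategoryTheory Limits Abelian Opposite AlgebraicGeometry Polynomial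

namespace Pool.Agent.MP_855f4c_ag.E.Vp

open E3 E4 Function U

/-- An eventual property moves along an embedding of fields. -/
lemma upa_map {A₀ Ω Ω' : Type} [CommRing A₀] [Field Ω] [Field Ω'] {ι : A₀ →+* Ω} (j : Ω →+* Ω')
    {P : ∀ (B : Type) [CommRing B], (A₀ →+* B) → Prop} (h : Evt ι P) : Evt (j.comp ι) P := by
  obtain ⟨A, ft, α, hα, H⟩ := h
  let e := A.equivMapOfInjective j j.injective
  refine ⟨A.map j, Algebra.FiniteType.of_surjective e.toRingHom.toIntAlgHom e.surjective,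
    e.toRingHom.comp α, ?_, fun B _ β => H B (β.comp e.toRingHom)⟩
  rw [← hα]
  rfl

lemma upa_alg (A : Type) [CommRing A] [IsDomain A] :
    FaithfulSMul A (AlgebraicClosure (FractionRing A)) ∧
      Algebra.IsAlgebraic A (AlgebraicClosure (FractionRing A)) := by
  refine ⟨?_, (IsFractionRing.comap_isAlgebraic_iff (K := FractionRing A)).2 inferInstance⟩
  rw [faithfulSMul_iff_algebraMap_injective,
    IsScalarTower.algebraMap_eq A (FractionRing A) (AlgebraicClosure (FractionRing A))]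
  exact (algebraMap (FractionRing A) _).injective.comp (IsFractionRing.injective A (FractionRing A))

theorem upa (hNN : NNA_s) (hS : SPA_s) (hF : FRD_s) (hC : CSE_s) (hP : PBC_s) : UPA_s := by
  intro LL Y L w F h n l _ hl
  have hG := ge'
  obtain ⟨htc, hev⟩ := h l hl
  refine ⟨hP l Y L (F l) n htc, ?_⟩
  intro A₀ K _ _ _ _ ι a hlK
  obtain ⟨_, _⟩ := upa_alg K[X]
  have hlK' : (l : AlgebraicClosure (FractionRing K[X])) ≠ 0 := fun e => hlK <|
    ((algebraMap K[X] (AlgebraicClosure (FractionRing K[X]))).comp C).injective <| by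
      rw [map_natCast, e, map_zero]
  have : Algebra.FiniteType ℤ A₀[X] := Algebra.FiniteType.trans (S := A₀) inferInstance inferInstance
  obtain ⟨A', _, α', hα', hA'⟩ := hev A₀[X] (AlgebraicClosure (FractionRing K[X]))
    ((algebraMap K[X] _).comp (mapRingHom ι)) (L.pnt (spc C ≫ a) (pt1 X)) hlK'
  obtain ⟨A, _, α, r, b, b₁, rfl, hb, hb₁, hD⟩ := hS A₀ K _ ι A' α' hα'
  obtain ⟨A₂, f₂, α₂, hα₂, h₂⟩ := evt'.and _ _ _
    (evt'.all A.subtype _ fun i => hev A K A.subtype (L.pnt (spc α ≫ a) (pt1 (b i))) hlK)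
    (hev A K A.subtype (L.pnt (spc α ≫ a) (pt2 (0 : A))) hlK)
  obtain ⟨A₃, f₃, h₃, hs⟩ := spf.1 K Unit (fun _ => A₂) {(l : K)} fun _ => f₂
  obtain ⟨B, hB, fB, nor⟩ := hNN K A₃ f₃
  let γ : A →+* B := (Subring.inclusion ((h₃ ()).trans hB)).comp α₂
  have hu : IsUnit (l : B) := IsUnit.of_mul_eq_one
    ⟨(l : K)⁻¹, hB (hs _ (Finset.mem_singleton_self _)).2⟩ (Subtype.ext (by simp [hlK]))
  obtain ⟨h1, h2⟩ := h₂ B (Subring.inclusion ((h₃ ()).trans hB))
  obtain ⟨i1, i2⟩ := upa_alg B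
  let j : AlgebraicClosure (FractionRing B) →ₐ[B] K := IsAlgClosed.lift
  obtain ⟨L', p, hp', hpt⟩ := up_bc L (spc (γ.comp α) ≫ a)
  obtain ⟨u⟩ := nrq.bc hp' (F l) n
  have ht := ntc.pb l p _ htc
  have key := hC l L' (fun i => γ (b i)) (γ b₁) (AlgebraicClosure (FractionRing B))
    ⟨nor, fB, hu, fun i j hij => by rw [← map_sub]; exact (hb i j hij).map γ, inferInstance, i1, i2⟩
    (fun i => by rw [← map_sub]; exact (hb₁ i).map γ) w _ ht ?_ (fun i => ?_) ?_ n
  · have e : A.subtype.comp α =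
        ((j : AlgebraicClosure (FractionRing B) →+* K).comp (algebraMap B _)).comp (γ.comp α) := by
      rw [j.comp_algebraMap, ← hα₂]
      rfl
    rw [e]
    refine evt'.trans _ _ _ (evt'.mono _ _ _ (fun B' _ δ hδ _ => ?_) (upa_map _ key))
    rw [← up_comp (γ.comp α) δ, Category.assoc]
    exact hG.cwIso l _ (pb_comp _ _ _) (hG.cwIso l _ ⟨(PB (spc δ)).mapIso u.symm⟩ hδ)
  · obtain ⟨D, _, _, hf, he, hs, β', φ, hφ, hβ'⟩ := hD B γ
    refine up_gen (ratp ntc hG alg) hG ntc l w L' _ D hf he hs hu _ ht fun hu' => ?_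
    have h0 := hA' D β' hu'
    rw [hβ', ← up_comp _ φ, Category.assoc] at h0
    refine up_two hG l w _ _ _ ?_
      (hG.cwIso l w (hF l D φ hφ hu' _ (ntc.pb l _ _ htc)) (up_two hG l w _ _ _ rfl h0))
    rw [hpt, up_pt, map_pt1, ← Category.assoc, up_comp]
    congr 2
    · congr 1
      ext x
      simp
    · simp
  · refine up_two hG l w _ _ _ ?_ (h1 i hu)
    rw [hpt, up_pt, map_pt1, Category.id_comp]
  · refine up_two hG l w _ _ _ ?_ (h2 hu)
    rw [hpt, up_pt, map_pt2, Category.id_comp, map_zero]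

end Pool.Agent.MP_855f4c_ag.E.Vp

end
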