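import Pool.Agent.MP_855f4c_ag.EG.Gc
import Pool.Agent.MP_855f4c_ag.EG.Gd
import Pool.Agent.MP_855f4c_ag.EG.Gf
import Pool.Agent.MP_855f4c_ag.EC.All
import Pool.Agent.MP_855f4c_ag.EG.Gb
import Pool.Agent.MP_855f4c_ag.EG.Ge
import Pool.Agent.MP_855f4c_ag.EG.Ga

section

/-! Assembly of section V. -/

namespace Pool.Agent.MP_855f4c_ag.E.Vp

open U

/-- Upper bounds for the weights and finiteness at all points. -/
theorem wtx_of (hP : PBC_s) (hG : DEG_s) (hC : GdCof_s) (hD : CD3_s) (hU : DU2_s) (hTF : TF_s)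
    (hCT : CT_s) (hN : CNT_s) : G.WTX_s :=
  have rc := rcw hP hC hD hTF hCT
  have g1 := gl1 gen rc hG
  have gl := glg g1 (gl2 g1 rc gam (inv nil) hN) div stab rc
  have ti := twi hU hC jsh' ntc ge' alg
  have cm := cme gl rc ti (twe gl rc ti) (r2e gl rc (coi sub ge' ntc) hU hC)
  wtx (gca hP) fna (upa nna spa frd (cse cm rc (strip nrq ntc nez ge' lers')) hP) ena

end Pool.Agent.MP_855f4c_ag.E.Vp

end

section

/-! Section V, closed form. -/

namespace Pool.Agent.MP_855f4c_ag.E.Vp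

open All

theorem wtxA : G.WTX_s :=
  wtx_of pbc (SA.deg_of_la la) CV.gdcofA CV.cd3A All.du2 (W.tf_final CV.gdcofA All.du1 All.du2)
    (W.ct_final pbc (SA.deg_of_la la) CV.gdcofA All.du1 All.du2)
    (cnt (D.d1All CV.curveA CV.p1muA CV.cd3A) CV.p1muA)

end Pool.Agent.MP_855f4c_ag.E.Vp

end

section

/-! Assembly of the sections B, V, Z2, Z3. -/

namespace Pool.Agent.MP_855f4c_ag.E.G

theorem sbxA : SBX_s := SB.sbx_of All.la PB.affv_final

theorem ngsA : NGS_s := GZ.ngs sbxA Vp.wtxA All.pbcx All.dw All.cdx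

theorem ngtA : NGT_s := ngt ngsA pnorm smn

theorem nglA : NGL_s := ngl ngtA

end Pool.Agent.MP_855f4c_ag.E.G

end
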