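import Pool.Agent.MP_855f4c_ag.EC.Uf
import Pool.Agent.MP_855f4c_ag.EG.Ga
import Pool.Agent.MP_855f4c_ag.EC.F2f

section

/-! Section V: weights at all points. Definitions, row statements and assembly. -/

set_option autoImplicit false
set_option backward.isDefEq.respectTransparency false

open CategoryTheory Limits Abelian Opposite AlgebraicGeometry Polynomial

namespace Pool.Agent.MP_855f4c_ag.E.Vp

open E3 E4 Function U

/-- Generically, one prime at a time and in every characteristic, in `Cl` with weights `≤ w`. -/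
def GoodA (LL : Set ℕ) (X : Scheme.{0}) (w : ℕ) (F : Fam X) : Prop :=
  ∀ (l : ℕ) [Fact l.Prime], l ∈ LL → Tc l (F l) ∧
    ∀ (A₀ Ω : Type) [CommRing A₀] [Algebra.FiniteType ℤ A₀] [Field Ω] [IsAlgClosed Ω]
      (ι : A₀ →+* Ω) (a : Spec (.of A₀) ⟶ X), (l : Ω) ≠ 0 →
      Evt ι fun B _ γ => IsUnit (l : B) → CW l w ((PB (spc γ ≫ a)).obj (F l))

/-- `P` holds for the pull-back of `F` to some finitely generated subring of `Ω`. -/
def EP (P : ∀ X : Scheme.{0}, Sh (Scheme.etaleTopology.over X) → Prop) {A : Type} [CommRing A] (Ω : Type) [Field Ω]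
    [Algebra A Ω] (F : Sh (Scheme.etaleTopology.over (Spec (.of A)))) : Prop :=
  Evt (algebraMap A Ω) fun _ _ γ => P _ ((PB (spc γ)).obj F)

/-- A normal base with `l` invertible, disjoint sections and a geometric generic point. -/
structure CA (l : ℕ) {A : Type} [CommRing A] {r : ℕ} (a : Fin (r + 1) → A) (Ω : Type) [Field Ω]
    [Algebra A Ω] : Prop where
  nor : IsIntegrallyClosed A
  ft : Algebra.FiniteType ℤ A
  unit : IsUnit (l : A)
  disj : ∀ i j, i ≠ j → IsUnit (a i - a j)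
  cl : IsAlgClosed Ω
  inj : FaithfulSMul A Ω
  alg : Algebra.IsAlgebraic A Ω

/-- `φ` is a power map that is additive on all algebras (the identity, or a Frobenius). -/
def Frb {D : Type} [CommRing D] (φ : D →+* D) : Prop :=
  ∃ q : ℕ, q ≠ 0 ∧ (∀ x, φ x = x ^ q) ∧
    ∀ (E : Type) [CommRing E], (D →+* E) → ∀ x y : E, (x + y) ^ q = x ^ q + y ^ q

/-- Generization is injective on sections over aic local domains. -/
def Inj (l : ℕ) {X : Scheme.{0}} (P : PSh X) : Prop :=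
  ∀ (C K : Type) [CommRing C] [IsDomain C] [IsLocalRing C] [Field K] [Algebra C K]
    [IsFractionRing C K] (a : Spec (.of C) ⟶ X) (b : Spec (.of K) ⟶ X)
    (h : spc (algebraMap C K) ≫ a = b), Aic C → IsUnit (l : C) →
      Injective (P.map (sph (algebraMap C K) h).op)

/-! ### Algebra -/

/-- Row NNA: a finitely generated subring lies in a normal one. -/
def NNA_s : Prop :=
  ∀ (Ω : Type) [Field Ω] (A : Subring Ω), Algebra.FiniteType ℤ A →
    ∃ A' : Subring Ω, A ≤ A' ∧ Algebra.FiniteType ℤ A' ∧ IsIntegrallyClosed A'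

/-- Row SPA: the generic point of the affine line, up to a power of Frobenius. -/
def SPA_s : Prop :=
  ∀ (A₀ K K' : Type) [CommRing A₀] [Algebra.FiniteType ℤ A₀] [Field K] [IsAlgClosed K]
    (ι : A₀ →+* K) [Field K'] [Algebra K[X] K'] [FaithfulSMul K[X] K']
    [Algebra.IsAlgebraic K[X] K'] (A' : Subring K') [Algebra.FiniteType ℤ A']
    (α' : A₀[X] →+* A'), A'.subtype.comp α' = (algebraMap K[X] K').comp (mapRingHom ι) →
    ∃ (A : Subring K) (_ : Algebra.FiniteType ℤ A) (α : A₀ →+* A) (r : ℕ) (a : Fin (r + 1) → A)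
      (a₁ : A), A.subtype.comp α = ι ∧ (∀ i j, i ≠ j → IsUnit (a i - a j)) ∧
      (∀ i, IsUnit (a₁ - a i)) ∧
      ∀ (B : Type) [CommRing B] (β : A →+* B),
        ∃ (D : Type) (_ : CommRing D) (_ : Algebra (Localization.Away (hp fun i => β (a i))) D),
          Module.Finite (Localization.Away (hp fun i => β (a i))) D ∧
          Algebra.Etale (Localization.Away (hp fun i => β (a i))) D ∧
          Function.Surjective
            (PrimeSpectrum.comap (algebraMap (Localization.Away (hp fun i => β (a i))) D)) ∧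
          ∃ (β' : A' →+* D) (φ : D →+* D), Frb φ ∧ β'.comp α' = φ.comp
            (((algebraMap (Localization.Away (hp fun i => β (a i))) D).comp
              (algebraMap B[X] _)).comp (mapRingHom (β.comp α)))

/-- Row FRD: the pull-back along Frobenius changes nothing. -/
def FRD_s : Prop :=
  ∀ (l : ℕ) (D : Type) [CommRing D] (φ : D →+* D), Frb φ → IsUnit (l : D) →
    ∀ F : Sh (Scheme.etaleTopology.over (Spec (.of D))), Tc l F → Is ((PB (spc φ)).obj F) F

/-! ### Generic lissity -/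

/-- Row GEN. -/
def GEN_s : Prop :=
  ∀ (l : ℕ) (A Ω : Type) [CommRing A] [Algebra.FiniteType ℤ A] [Field Ω] [IsAlgClosed Ω]
    [Algebra A Ω] [FaithfulSMul A Ω] [Algebra.IsAlgebraic A Ω] (F : Sh (Scheme.etaleTopology.over (Spec (.of A)))),
    Cc l F → Finite (sec F (Over.mk (spc (algebraMap A Ω)))) → Inj l F.obj →
    EP (fun X G => Lis l G.obj (top X)) Ω F

/-- Row RCW: the parts of RCL that hold over every base. -/
def RCW_s : Prop :=
  ∀ (l : ℕ) [Fact l.Prime] {A : Type} [CommRing A] (L : PL (Spec (.of A))) {r : ℕ}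
    (a : Fin (r + 1) → A) [IsOpenImmersion (L.u (hp a))], IsUnit (l : A) →
    (∀ G, Lcf l G → (∀ b, Tc l ((Rc L (hp a) b).obj G) ∧ CofS l ((Rc L (hp a) b).obj G)) ∧
      IsZero ((Rc L (hp a) 0).obj G) ∧ ∀ b, IsZero ((Rc L (hp a) (b + 3)).obj G)) ∧
    (∀ G, RatS l G → ∀ (k : Type) [Field k] [IsAlgClosed k] (t : Spec (.of k) ⟶ Spec (.of A))
      (Q : ℕ) (ψ : k →+* k) (e : Fr l t Q ψ),
      ∃ c : ℚ, trF ((Rc L (hp a) 2).obj G) e - trF ((Rc L (hp a) 1).obj G) e = c) ∧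
    ∀ (w : ℕ) (G G₁ G' : Sh (Scheme.etaleTopology.over (Spec (.of (Localization.Away (hp a)))))) (i : G₁ ⟶ G')
      (p : G₁ ⟶ G), Mono i → Epi p → RatS l G' → Lcf l G₁ → Lcf l G → Wt l w G →
      Wt l (w + 1) ((Rc L (hp a) 1).obj G)

/-- Generic lissity in degree `b` for coefficients killed by `l`. -/
def GLb (b : ℕ) : Prop :=
  ∀ (l : ℕ) [Fact l.Prime] {A : Type} [CommRing A] (L : PL (Spec (.of A))) {r : ℕ}
    (a : Fin (r + 1) → A) [IsOpenImmersion (L.u (hp a))] (Ω : Type) [Field Ω] [Algebra A Ω],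
    CA l a Ω → ∀ G, Lcf l G → l • 𝟙 G = 0 → EP (fun _ => Lcf l) Ω ((Rc L (hp a) b).obj G)

/-- Row GL1 (from GEN, RCW, DEG). -/
def GL1_s : Prop := GLb 1

/-- Row GL2 (from GL1, RCW, DU2). -/
def GL2_s : Prop := GLb 2

/-- Row DIV: the chase for divisible coefficients. -/
def DIV_s : Prop :=
  ∀ (l : ℕ) {X : Scheme.{0}} (F A : ℕ → Sh (Scheme.etaleTopology.over X)) (i : ∀ b, A b ⟶ F b)
    (δ : ∀ b, F b ⟶ A (b + 1)), Mono (i 0) →
    (∀ b, Ex (i b) (l • 𝟙 (F b)) ∧ Ex (l • 𝟙 (F b)) (δ b) ∧ Ex (δ b) (i (b + 1))) →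
    (∀ b, Tor l (F b).obj) → (∀ b, Lis l (A b).obj (top X)) → ∀ b, Lis l (F b).obj (top X)

/-- Row STAB: the divisible part. -/
def STAB_s : Prop :=
  ∀ (l : ℕ) [Fact l.Prime] (B : Type) [CommRing B] [IsDomain B] [IsIntegrallyClosed B]
    (G : Sh (Scheme.etaleTopology.over (Spec (.of B)))), IsUnit (l : B) → Lcf l G →
    ∃ (N : ℕ) (K : Sh (Scheme.etaleTopology.over (Spec (.of B)))) (i : K ⟶ G), Mono i ∧ Lcf l K ∧ Epi (l • 𝟙 K) ∧
      l ^ N • 𝟙 (cokernel i) = 0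

/-- Row GLG (from GL1, GL2, DIV, STAB, RCW). -/
def GLG_s : Prop :=
  ∀ (l : ℕ) [Fact l.Prime] {A : Type} [CommRing A] (L : PL (Spec (.of A))) {r : ℕ}
    (a : Fin (r + 1) → A) [IsOpenImmersion (L.u (hp a))] (Ω : Type) [Field Ω] [Algebra A Ω],
    CA l a Ω → ∀ G, Lcf l G → ∀ b, EP (fun _ => Lcf l) Ω ((Rc L (hp a) b).obj G)

/-! ### The curve step -/

/-- Row R2E (from GLG, RCW, COI, DU2, GdCof). -/
def R2E_s : Prop :=
  ∀ (l : ℕ) [Fact l.Prime] {A : Type} [CommRing A] (L : PL (Spec (.of A))) {r : ℕ}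
    (a : Fin (r + 1) → A) [IsOpenImmersion (L.u (hp a))] (a₁ : A) (Ω : Type) [Field Ω]
    [Algebra A Ω], CA l a Ω → (∀ i, IsUnit (a₁ - a i)) → ∀ G, Lcf l G →
      ∃ (K : Sh (Scheme.etaleTopology.over (Spec (.of (Localization.Away (hp a)))))) (W : Sh (Scheme.etaleTopology.over (Spec (.of A))))
        (i : K ⟶ G) (p : G ⟶ (PB (gu (hp a))).obj W), Mono i ∧ Ex i p ∧ Epi p ∧ Lcf l K ∧
        Lcf l W ∧ EP (fun _ => Nul l) Ω (kernel ((Rc L (hp a) 2).map p))

/-- Row TWE (from GLG, RCW, TWI). -/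
def TWE_s : Prop :=
  ∀ (l : ℕ) [Fact l.Prime] {A : Type} [CommRing A] (L : PL (Spec (.of A))) {r : ℕ}
    (a : Fin (r + 1) → A) [IsOpenImmersion (L.u (hp a))] (Ω : Type) [Field Ω] [Algebra A Ω],
    CA l a Ω → ∀ W : Sh (Scheme.etaleTopology.over (Spec (.of A))),
      (Cl l W → EP (fun _ => Cl l) Ω ((Rc L (hp a) 2).obj ((PB (gu (hp a))).obj W))) ∧
      ∀ w, Lcf l W → Wt l w W → Wt l (w + 2) ((Rc L (hp a) 2).obj ((PB (gu (hp a))).obj W))

/-- Row CME (from GLG, RCW, TWI, TWE, R2E). -/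
def CME_s : Prop :=
  ∀ (l : ℕ) [Fact l.Prime] {A : Type} [CommRing A] (L : PL (Spec (.of A))) {r : ℕ}
    (a : Fin (r + 1) → A) [IsOpenImmersion (L.u (hp a))] (a₁ : A) (Ω : Type) [Field Ω]
    [Algebra A Ω], CA l a Ω → (∀ i, IsUnit (a₁ - a i)) → ∀ (w : ℕ) G, CW l w G →
      ∀ b, EP (fun _ => CW l (w + b)) Ω ((Rc L (hp a) b).obj G)

/-- Row CSE (from CME, RCW, STRIP). -/
def CSE_s : Prop :=
  ∀ (l : ℕ) [Fact l.Prime] {A : Type} [CommRing A] (L : PL (Spec (.of A))) {r : ℕ}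
    (a : Fin (r + 1) → A) (a₁ : A) (Ω : Type) [Field Ω] [Algebra A Ω], CA l a Ω →
    (∀ i, IsUnit (a₁ - a i)) →
    ∀ (w : ℕ) (F : Sh (Scheme.etaleTopology.over L.P)), Tc l F → CW l w ((PB (L.u (hp a))).obj F) →
      (∀ i, CW l w ((PB (L.pnt (𝟙 _) (pt1 (a i)))).obj F)) →
      CW l w ((PB (L.pnt (𝟙 _) (pt2 (0 : A)))).obj F) →
      ∀ b, EP (fun _ => CW l (w + b)) Ω ((Rq L.π b).obj F)

/-! ### The devissage -/

/-- Row GCA. -/
def GCA_s : Prop := ∀ LL : Set ℕ, Th0 LL (GoodA LL)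

/-- Row FNA. -/
def FNA_s : Prop := ∀ LL : Set ℕ, ThF (GoodA LL)

/-- Row UPA (from NNA, SPA, FRD, CSE, PBC). -/
def UPA_s : Prop := ∀ LL : Set ℕ, ThP (GoodA LL)

/-- Row ENA: from generic to all points. -/
def ENA_s : Prop :=
  ∀ (l : ℕ) [Fact l.Prime] (R : Type) [CommRing R] [Algebra.FiniteType ℤ R] (w : ℕ)
    (F : Fam (Spec (.of R))), GoodA {l} _ w F → Wt l w (F l) ∧ CofS l (F l)

/-! ### Tools and assembly -/

lemma evt_of {A₀ Ω : Type} [CommRing A₀] [Algebra.FiniteType ℤ A₀] [Field Ω] (ι : A₀ →+* Ω)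
    {P : ∀ (B : Type) [CommRing B], (A₀ →+* B) → Prop} (h : ∀ (B : Type) [CommRing B] γ, P B γ) :
    Evt ι P :=
  evt'.mono ι _ _ (fun B _ γ _ => h B γ)
    (evt'.all ι (I := Empty) (fun _ _ _ _ => True) fun i => i.elim)

section ep
variable {P Q R T : ∀ X : Scheme.{0}, Sh (Scheme.etaleTopology.over X) → Prop} {A : Type} [CommRing A] {Ω : Type}
  [Field Ω] [Algebra A Ω] {F G K N : Sh (Scheme.etaleTopology.over (Spec (.of A)))}

lemma EP.of [Algebra.FiniteType ℤ A]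
    (h : ∀ (B : Type) [CommRing B] (γ : A →+* B), P _ ((PB (spc γ)).obj F)) : EP P Ω F :=
  evt_of _ h

lemma EP.imp (h₁ : EP P Ω F)
    (h : ∀ (B : Type) [CommRing B] (γ : A →+* B), P _ ((PB (spc γ)).obj F) →
      Q _ ((PB (spc γ)).obj G)) : EP Q Ω G := evt'.mono _ _ _ h h₁

lemma EP.imp₂ (h₁ : EP P Ω F) (h₂ : EP Q Ω G)
    (h : ∀ (B : Type) [CommRing B] (γ : A →+* B), P _ ((PB (spc γ)).obj F) →
      Q _ ((PB (spc γ)).obj G) → R _ ((PB (spc γ)).obj K)) : EP R Ω K :=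
  evt'.mono _ _ _ (fun B _ γ p => h B γ p.1 p.2) (evt'.and _ _ _ h₁ h₂)

lemma EP.imp₃ (h₁ : EP P Ω F) (h₂ : EP Q Ω G) (h₃ : EP R Ω K)
    (h : ∀ (B : Type) [CommRing B] (γ : A →+* B), P _ ((PB (spc γ)).obj F) →
      Q _ ((PB (spc γ)).obj G) → R _ ((PB (spc γ)).obj K) → T _ ((PB (spc γ)).obj N)) :
    EP T Ω N :=
  evt'.mono _ _ _ (fun B _ γ p => h B γ p.1.1 p.1.2 p.2)
    (evt'.and _ _ _ (evt'.and _ _ _ h₁ h₂) h₃)

end ep

lemma g0a (LL : Set ℕ) (X : Scheme.{0}) : GoodA LL X 0 fun l _ => Linf l X :=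
  fun l _ _ => ⟨G0.linf_Tc l X, fun _ _ _ _ _ _ ι _ _ => evt_of ι fun _ _ _ _ =>
    ⟨.rat (G0.linf_ratS _ l), G0.linf_wt _ l⟩⟩

theorem wtx (h1 : GCA_s) (h2 : FNA_s) (h3 : UPA_s) (h4 : ENA_s) : G.WTX_s := by
  intro l _ R _ _ X f _ n
  have : IsNoetherianRing R := Algebra.FiniteType.isNoetherianRing ℤ R
  have := gxa' {l} _ (h1 _) (h2 _) (h3 _) R X X _ f f (𝟙 _) (𝟙 _)
    (IsPullback.of_horiz_isIso ⟨by simp⟩) 0 _ (g0a _ X) n
  rw [zero_add] at this
  exact h4 l R n (fun l _ => (Rq f n).obj (Linf l X)) this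

end Pool.Agent.MP_855f4c_ag.E.Vp

end

section

/-! Section V: the rows of GL2. -/

set_option autoImplicit false
set_option backward.isDefEq.respectTransparency false

open CategoryTheory Limits Abelian Opposite AlgebraicGeometry Polynomial

namespace Pool.Agent.MP_855f4c_ag.E.Vp

open E3 E4 Function U

/-- Row NIL: the norm of a long cyclic `l`-group kills small invariants. -/
def NIL_s : Prop :=
  ∀ (l n : ℕ) [Fact l.Prime] (M : Type 1) (T : Type) [AddCommGroup M] [Finite M] [AddCommGroup T]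
    (φ : AddMonoid.End M) (b : M →+ T), (∀ m : M, l • m = 0) → Nat.card M < l ^ n →
    (∀ m, b ((φ ^ l ^ n) m) = b m) → ∀ m, ∑ i ∈ Finset.range (l ^ n), b ((φ ^ i) m) = 0

/-- Row GAM: a generator of the monodromy of a Kummer cover. -/
def GAM_s : Prop :=
  ∀ (k Ω : Type) [Field k] [IsAlgClosed k] [Field Ω] [IsAlgClosed Ω] [Algebra k[X] Ω]
    [FaithfulSMul k[X] Ω] [Algebra.IsAlgebraic k[X] Ω] (c : k) (N : ℕ), (N : k) ≠ 0 →
    ∃ (z : Ω) (g : Ω ≃ₐ[k[X]] Ω), z ^ N = algebraMap k[X] Ω (X - C c) ∧ (g ^ N) z = z ∧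
      ∀ w : Ω, w ^ N = algebraMap k[X] Ω (X - C c) → ∃! i : Fin N, w = (g ^ (i : ℕ)) z

/-- Row INV (from NIL): invariant characters of `ρ_* ρ^* G` kill `G`. -/
def INV_s : Prop :=
  ∀ (l n : ℕ) [Fact l.Prime] {X' X : Scheme.{0}} (ρ : X' ⟶ X) [IsFinite ρ] (G : Sh (Scheme.etaleTopology.over X))
    (k : Type) [Field k] [IsAlgClosed k] (x : Spec (.of k) ⟶ X) (y₀ : Spec (.of k) ⟶ X')
    (γ : k →+* k) (hγ : spc γ ≫ x = x), Cc l G → (l : k) ≠ 0 → Bijective γ → y₀ ≫ ρ = x →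
    spc (γ ^ l ^ n) ≫ y₀ = y₀ →
    (∀ y : Spec (.of k) ⟶ X', y ≫ ρ = x → ∃! i : Fin (l ^ n), y = spc (γ ^ (i : ℕ)) ≫ y₀) →
    Finite (sec G (Over.mk x)) → Nat.card (sec G (Over.mk x)) < l ^ n →
    (∀ m : sec G (Over.mk x), l • m = 0) →
    ∀ (T : Type) [AddCommGroup T] (a : sec ((PF ρ).obj ((PB ρ).obj G)) (Over.mk x) →+ T),
      (∀ s, a (rsec (sph γ hγ) _ s) = a s) → ∀ m, a (app ((pbpf ρ).unit.app G) (Over.mk x) m) = 0

/-- Row CNT (from DU2, GdCof, RCW): counting the top cohomology of a fibre. -/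
def CNT_s : Prop :=
  ∀ (l : ℕ) [Fact l.Prime] {A : Type} [CommRing A] (L : PL (Spec (.of A))) {r : ℕ}
    (a : Fin (r + 1) → A) [IsOpenImmersion (L.u (hp a))]
    {G E : Sh (Scheme.etaleTopology.over (Spec (.of (Localization.Away (hp a)))))} (η : G ⟶ E), IsUnit (l : A) →
    Mono η → Lcf l G → Lcf l E → l • 𝟙 E = 0 →
    ∀ (k : Type) [Field k] [IsAlgClosed k] (τ : A →+* k),
      (∀ (Ω : Type) [Field Ω] [IsAlgClosed Ω] [Algebra k[X] Ω] [FaithfulSMul k[X] Ω]
        [Algebra.IsAlgebraic k[X] Ω] (β : Localization.Away (hp a) →+* Ω),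
        (∀ q, β (algebraMap A[X] _ q) = algebraMap k[X] Ω (q.map τ)) →
        ∀ c : sec E (Over.mk (spc β)) →+ MuI l Ω,
          (∀ (g : Ω ≃ₐ[k[X]] Ω) (hg : spc (g : Ω →+* Ω) ≫ spc β = spc β) s,
            c (rsec (sph (g : Ω →+* Ω) hg) E s) = c s) →
          ∀ m, c (app η (Over.mk (spc β)) m) = 0) →
      ∀ s, app ((Rc L (hp a) 2).map η) (Over.mk (spc τ)) s = 0

end Pool.Agent.MP_855f4c_ag.E.Vp

end

section

/-! Row CME: the curve step, generically on the base. -/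

set_option autoImplicit false
set_option backward.isDefEq.respectTransparency false

open CategoryTheory Limits Abelian Opposite AlgebraicGeometry Polynomial

namespace Pool.Agent.MP_855f4c_ag.E.Vp

open E3 E4 Function U USq

theorem CME.ex {X Y : Scheme.{0}} (g : Y ⟶ X) {F G K : Sh (Scheme.etaleTopology.over X)} {φ : F ⟶ G} {χ : G ⟶ K}
    (h : Ex φ χ) : Ex ((PB g).map φ) ((PB g).map χ) := by
  obtain ⟨_, _, _⟩ := nrq.exa g
  exact ⟨_, h.2.map _⟩

theorem CME.mono {X Y : Scheme.{0}} (g : Y ⟶ X) {F G : Sh (Scheme.etaleTopology.over X)} {φ : F ⟶ G} (h : Mono φ) :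
    Mono ((PB g).map φ) := by
  obtain ⟨_, _, _⟩ := nrq.exa g
  infer_instance

theorem CME.zero {X Y : Scheme.{0}} (g : Y ⟶ X) {F : Sh (Scheme.etaleTopology.over X)} (h : IsZero F) :
    IsZero ((PB g).obj F) := by
  obtain ⟨_, _, _⟩ := nrq.exa g
  exact (PB g).map_isZero h

theorem cme (LG : GLG_s) (RC : RCW_s) (TI : TWI_s) (TC : TWE_s) (R2 : R2E_s) : CME_s := by
  intro l _ A _ L r a _ a₁ Ω _ _ cs hu w
  have := cs.ft
  have GE := ge'
  have JS := jsh'
  obtain ⟨s, hs⟩ := CM.sec a a₁ hu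
  obtain ⟨rc, rt, rw1⟩ := RC l L a cs.unit
  have gl := LG l L a Ω cs
  have hm : IsUnit (hp a).leadingCoeff := by
    have : (hp a).Monic := monic_prod_of_monic _ _ fun i _ => monic_X_sub_C (a i)
    rw [this.leadingCoeff]
    exact isUnit_one
  have iso (W : Sh (Scheme.etaleTopology.over (Spec (.of A)))) : Is ((PB s).obj ((PB (gu (hp a))).obj W)) W := by
    obtain ⟨e⟩ := pb_comp s (gu (hp a)) W
    rw [hs] at e
    exact ⟨e ≪≫ (pb_id W).some⟩
  have mid {F G K : Sh (Scheme.etaleTopology.over (Spec (.of A)))} {φ : F ⟶ G} {χ : G ⟶ K} (h : Ex φ χ)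
      (hF : EP (fun _ => Cl l) Ω F) (hK : EP (fun _ => Cl l) Ω K) (hG : EP (fun _ => Lcf l) Ω G) :
      EP (fun _ => Cl l) Ω G :=
    hF.imp₃ hK hG fun _ _ γ => GE.clMid l _ _ (CME.ex (spc γ) h)
  have top (G) (hG : Lcf l G) : (Cl l G → EP (fun _ => Cl l) Ω ((Rc L (hp a) 2).obj G)) ∧
      (Wt l w G → EP (fun _ => Wt l (w + 2)) Ω ((Rc L (hp a) 2).obj G)) ∧ ∃ K, Lcf l K ∧
      Evt (algebraMap A Ω) fun B _ γ => ∀ (k : Type) [Field k] [IsAlgClosed k]
        (t : Spec (.of k) ⟶ Spec (.of B)) (Q : ℕ) (ψ : k →+* k) (e : Fr l t Q ψ),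
        trF ((Rc L (hp a) 2).obj G) (ge_fr e (spc γ)) +
          Q * trF ((PB s).obj K) (ge_fr e (spc γ)) = Q * trF ((PB s).obj G) (ge_fr e (spc γ)) := by
    obtain ⟨K, W, i, p, hi, hx, hp', hK, hW, hN⟩ := R2 l L a a₁ Ω cs hu G hG
    obtain ⟨-, δ, h1, -⟩ := JS.les L _ i p hi hx hp' 2
    have e2 := epi_of_zero h1 ((rc K hK).2.2 0)
    obtain ⟨m1, m2, m3⟩ := CM.map (nrq.exa s) hi hx hp'
    obtain ⟨e⟩ := iso W
    have hq : Epi ((PB s).map p ≫ e.hom) := epi_comp _ _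
    have hsG := GE.lcfPb l s G hG
    refine ⟨fun h => mid (CM.ker _) (hN.imp fun _ _ _ h => (GE.nul l 0 _ h).2.1.1)
      ((TC l L a Ω cs W).1 (GE.clQuo l _ hq (GE.clPb l s G h) hW)) (gl G hG 2),
      fun h => hN.imp fun _ _ γ hN => GE.wtMid l _ _ _ (CME.ex (spc γ) (CM.ker _)) hN.1.2.2
        (GE.nul l _ _ hN).2.1.2 (GE.wtPb l _ _ _
          ((TC l L a Ω cs W).2 w hW (GE.wtQuo l w _ hq hsG.2.2 (GE.wtPb l w s G h)))),
      K, hK, evt'.mono _ _ _ (fun B _ γ hN k _ _ t Q ψ f => ?_) hN⟩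
    have h0 : trF (kernel ((Rc L (hp a) 2).map p)) (ge_fr f (spc γ)) = 0 :=
      (GE.nul l 0 _ hN).2.2 k t Q ψ f
    rw [(GE.add l _ _ inferInstance (CM.ker _) e2 ((rc G hG).1 2).2 k _).2 Q ψ _, h0,
      ((TI l L _ W hm hW k _ f.ne).2 Q ψ _).1, (GE.add l _ _ m1 m2 m3 hsG.2.2 k _).2 Q ψ _,
      (GE.trIso l ⟨e⟩ k _).2 Q ψ _]
    ring
  have one (G) (hG : RatS l G) : EP (fun _ => Cl l) Ω ((Rc L (hp a) 1).obj G) := by
    obtain ⟨-, -, K, hK, h⟩ := top G hG.1
    have hsK := GE.lcfPb l s K hK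
    refine evt'.mono _ _ _ (fun B _ γ ⟨⟨h1, h3⟩, h⟩ => ?_) (evt'.and _ _ _ (evt'.and _ _ _
      (gl G hG.1 1) (gl _ (GE.lcfPb l (gu (hp a)) _ hsK) 2)) h)
    have h2 := (sq _ _ (GE.thick l _)).2.1 _ _ h1 h3
    refine GE.clSub l biprod.inl inferInstance (.rat ⟨h2, fun k _ _ t Q ψ f => ?_⟩) h1
    obtain ⟨c, hc⟩ := rt G hG k _ Q ψ (ge_fr f (spc γ))
    obtain ⟨d, hd⟩ := GE.ratPb l s G hG.2 k _ Q ψ (ge_fr f (spc γ))
    refine ⟨Q * d - c, ((GE.add l biprod.inl biprod.snd inferInstance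
      ⟨_, (ShortComplex.Splitting.ofHasBinaryBiproduct _ _).exact⟩ inferInstance h2.2.2 k t).2
        Q ψ f).trans ?_⟩
    change trF ((Rc L (hp a) 1).obj G) (ge_fr f (spc γ)) + trF ((Rc L (hp a) 2).obj
      ((PB (gu (hp a))).obj ((PB s).obj K))) (ge_fr f (spc γ)) = _
    rw [((TI l L _ _ hm hsK k _ f.ne).2 Q ψ _).1]
    push_cast
    rw [← hc, ← hd]
    linear_combination h k t Q ψ f
  have zero (v) (F : Sh (Scheme.etaleTopology.over (Spec (.of A)))) (h : IsZero F) : EP (fun _ => CW l v) Ω F :=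
    EP.of fun _ _ γ => (GE.nul l v _ (GE.zero l _ (CME.zero (spc γ) h))).2.1
  intro G hG
  refine (sq _ _ (GE.thick l _)).2.2 (RatS l) (Wt l w)
    (fun G => ∀ b, EP (fun _ => CW l (w + b)) Ω ((Rc L (hp a) b).obj G)) (fun _ h => h.1)
    (fun f hf _ _ h => GE.wtSub l w f hf h) (fun f hf h _ h' => GE.wtQuo l w f hf h.2.2 h')
    (fun {S Y Y'} i p hi hp' hY' hS hY hw b => ?_) (fun S hS h1 h2 _ p1 p3 b => ?_) G
    ((GE.clG l G).1 hG.1) hG.2
  · have cS := GE.clSub l i hi (.rat hY') hS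
    match b with
    | 0 => exact zero _ _ (rc Y hY).2.1
    | 1 =>
      obtain ⟨-, δ, -, h1⟩ := JS.les L _ i _ hi (ex_coker i) inferInstance 0
      obtain ⟨-, δ', h2, -⟩ := JS.les L _ _ p inferInstance (CM.ker p) hp' 1
      have hk := (GE.thick l _).ker p hS hY
      have m := mono_of_zero h1 (rc _ ((GE.thick l _).coker i hS hY'.1)).2.1
      exact (mid h2 ((one Y' hY').imp₂ (gl S hS 1) fun _ _ γ =>
        GE.clSub l _ (CME.mono (spc γ) m))
        ((top _ hk).1 (GE.clSub l (kernel.ι p) inferInstance cS hk)) (gl Y hY 1)).imp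
        fun _ _ _ h => ⟨h, GE.wtPb l _ _ _ (rw1 w Y S Y' i p hi hp' hY' hS hY hw)⟩
    | 2 =>
      exact ((top Y hY).1 (GE.clQuo l p hp' cS hY)).imp₂ ((top Y hY).2.1 hw)
        fun _ _ _ h h' => ⟨h, h'⟩
    | b + 3 => exact zero _ _ ((rc Y hY).2.2 b)
  · have h := (JS.les L _ S.f S.g hS.mono_f ⟨S.zero, hS.exact⟩ hS.epi_g b).1
    exact (p1 b).imp₃ (p3 b) (gl _ h2 b) fun _ _ γ q1 q3 q2 =>
      ⟨GE.clMid l _ _ (CME.ex (spc γ) h) q1.1 q3.1 q2,
        GE.wtMid l _ _ _ (CME.ex (spc γ) h) (GE.lcf l _ q1.1).2.2 q1.2 q3.2⟩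

end Pool.Agent.MP_855f4c_ag.E.Vp

end

section

/-! Row CSE: the curve step with the boundary, generically. -/

set_option autoImplicit false
set_option backward.isDefEq.respectTransparency false

open CategoryTheory Limits Abelian Opposite AlgebraicGeometry Polynomial

namespace Pool.Agent.MP_855f4c_ag.E.Vp

open E3 E4 Function U

/-- STRIP after a base change. -/
theorem cse_bc (hS : STRIP_s) (hG : GE_s) (hN : NRQ_s) (hT : NTC_s) (hZ : NEZ_s) (l : ℕ)
    [Fact l.Prime] (w : ℕ) {X Y S : Scheme.{0}} (f : X ⟶ Y) (t : S ⟶ Y) (O : X.Opens) {I : Type}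
    [Finite I] (σ : I → (Y ⟶ X)) (F : Sh (Scheme.etaleTopology.over X)) (hl : Linv l Y) (hF : Tc l F)
    (hc : ∀ i, IsClosedImmersion (σ i)) (hs : ∀ i, σ i ≫ f = 𝟙 Y) (ho : ∀ i y, σ i y ∉ O)
    (hu : ∀ (k : Type) [Field k] [IsAlgClosed k] (x : Spec (.of k) ⟶ X), (∃ t, x t ∉ O) →
      ∃! i, x = (x ≫ f) ≫ σ i) (hw : ∀ i, CW l w ((PB (σ i)).obj F))
    (hO : ∀ b, CW l (w + b) ((PB t).obj ((Rq f b).obj ((ez O).obj F)))) (b : ℕ) :
    CW l (w + b) ((PB t).obj ((Rq f b).obj F)) := by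
  have hp := IsPullback.of_hasPullback f t
  let σ' : I → (S ⟶ pullback f t) := fun i =>
    pullback.lift (t ≫ σ i) (𝟙 S) (by rw [Category.assoc, hs, Category.comp_id, Category.id_comp])
  have e1 (i : I) : σ' i ≫ pullback.fst f t = t ≫ σ i := pullback.lift_fst _ _ _
  have e2 (i : I) : σ' i ≫ pullback.snd f t = 𝟙 S := pullback.lift_snd _ _ _
  obtain ⟨u⟩ := hN.bc hp F b
  refine hG.cwIso l _ ⟨u.symm⟩ (hS l w (pullback.snd f t) (pullback.fst f t ⁻¹ᵁ O) σ' _
    (hl.of_hom t) (hT.pb l _ _ hF) (fun i => ?_) e2 (fun i y h => ?_) (fun k _ _ x ⟨z, hz⟩ => ?_)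
    (fun i => ?_) (fun b => ?_) b)
  · have := hc i
    have sq : IsPullback (σ' i) t (pullback.fst f t) (σ i) :=
      IsPullback.of_right (h₁₂ := pullback.snd f t) (h₂₂ := f) (v₁₃ := t)
        (by rw [e2, hs]; exact IsPullback.of_horiz_isIso ⟨by simp⟩) (e1 i) hp.flip
    exact MorphismProperty.of_isPullback (P := @IsClosedImmersion) sq.flip this
  · refine ho i (t y) ?_
    have : (σ' i ≫ pullback.fst f t) y ∈ O := h
    rwa [e1] at this
  · have key (i : I) : x = (x ≫ pullback.snd f t) ≫ σ' i ↔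
        x ≫ pullback.fst f t = ((x ≫ pullback.fst f t) ≫ f) ≫ σ i := by
      have e : ((x ≫ pullback.snd f t) ≫ σ' i) ≫ pullback.fst f t =
          ((x ≫ pullback.fst f t) ≫ f) ≫ σ i := by
        simp only [Category.assoc, e1]
        rw [← Category.assoc (pullback.fst f t), pullback.condition, Category.assoc]
      refine ⟨fun h => (congrArg (· ≫ pullback.fst f t) h).trans e,
        fun h => pullback.hom_ext (h.trans e.symm) ?_⟩
      rw [Category.assoc, e2, Category.comp_id]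
    simp only [key]
    exact hu k _ ⟨z, hz⟩
  · exact up_two hG l w _ _ _ (e1 i)
      (hG.cwIso l _ (pb_comp _ _ _) ⟨hG.clPb l _ _ (hw i).1, hG.wtPb l _ _ _ (hw i).2⟩)
  · obtain ⟨v⟩ := hN.bc hp ((ez O).obj F) b
    obtain ⟨v'⟩ := hZ.pb (pullback.fst f t) O F
    exact hG.cwIso l _ ⟨v ≪≫ (Rq _ b).mapIso v'⟩ (hO b)

/-- The boundary sections. -/
noncomputable def cse_z {A : Type} [CommRing A] {r : ℕ} (a : Fin (r + 1) → A) :
    Option (Fin (r + 1)) → (Spec (.of A) ⟶ P1) := fun i => i.elim (pt2 0) fun i => pt1 (a i)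

theorem cse_out {A : Type} [CommRing A] (L : PL (Spec (.of A))) {r : ℕ} (a : Fin (r + 1) → A)
    (i : Option (Fin (r + 1))) (y : Spec (.of A)) :
    L.pnt (𝟙 _) (cse_z a i) y ∉ (L.u (hp a)).opensRange := by
  cases i with
  | none => exact L.pt2_zero_notMem_u _ _ y
  | some i =>
    have := L.pt1_mem_u (hp a) (RingHom.id A) (a i) y
    rw [CommRingCat.ofHom_id, Spec.map_id] at this
    exact fun h => this.1 h ((congrArg (· ∈ y.asIdeal) (rcl_eval a i)).mpr (zero_mem _))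

theorem cse_uni {A : Type} [CommRing A] (L : PL (Spec (.of A))) {r : ℕ} (a : Fin (r + 1) → A)
    (hd : ∀ i j, i ≠ j → IsUnit (a i - a j)) (k : Type) [Field k] (x : Spec (.of k) ⟶ L.P)
    (hx : ∃ t, x t ∉ (L.u (hp a)).opensRange) :
    ∃! i, x = (x ≫ L.π) ≫ L.pnt (𝟙 _) (cse_z a i) := by
  obtain ⟨t, ht⟩ := hx
  obtain ⟨φ, hφ⟩ := Spec.map_surjective (x ≫ L.π)
  have h0 : x = (x ≫ L.π) ≫ L.pnt (𝟙 _) (cse_z a none) ↔ x ≫ L.q = pt2 0 := by
    rw [L.comp_pnt, Category.comp_id]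
    nth_rewrite 1 [← L.pnt_eta x]
    rw [L.pnt_inj, and_iff_right rfl, ← hφ]
    exact Eq.congr_right ((map_pt2 φ.hom 0).trans (congrArg _ (map_zero _)))
  have h1 (i) : x = (x ≫ L.π) ≫ L.pnt (𝟙 _) (cse_z a (some i)) ↔ x ≫ L.q = pt1 (φ.hom (a i)) := by
    rw [L.comp_pnt, Category.comp_id]
    nth_rewrite 1 [← L.pnt_eta x]
    rw [L.pnt_inj, and_iff_right rfl, ← hφ]
    exact Eq.congr_right (map_pt1 φ.hom _)
  obtain ⟨c, hc⟩ | hc := pt_field (x ≫ L.q)
  · have h2 : eval₂ φ.hom c (hp a) ∈ t.asIdeal := by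
      by_contra h
      refine ht ?_
      rw [← L.pnt_eta x, ← hφ, hc]
      exact (L.pt1_mem_u _ φ.hom c t).2 h
    rw [(eq_bot_or_eq_top t.asIdeal).resolve_right t.isPrime.ne_top, Ideal.mem_bot, rcl_eval₂,
      Finset.prod_eq_zero_iff] at h2
    obtain ⟨i, -, h2⟩ := h2
    rw [sub_eq_zero] at h2
    refine ⟨some i, (h1 i).2 (h2 ▸ hc), fun j hj => ?_⟩
    cases j with
    | none => exact (pt1_ne_pt2_zero c (hc.symm.trans (h0.1 hj))).elim
    | some j =>
      refine congrArg _ (by_contra fun h => ((hd j i h).map φ.hom).ne_zero ?_)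
      rw [map_sub, ← h2, ← pt1_inj.1 (hc.symm.trans ((h1 j).1 hj)), sub_self]
  · refine ⟨none, h0.2 hc, fun j hj => ?_⟩
    cases j with
    | none => rfl
    | some j => exact (pt1_ne_pt2_zero _ (((h1 j).1 hj).symm.trans hc)).elim

theorem cse (hM : CME_s) (hR : RCW_s) (hS : STRIP_s) : CSE_s := by
  intro l _ A _ L r a a₁ Ω _ _ hs h₁ w F hF hu ha hi b
  have := hs.ft
  have h3 := evt'.all (algebraMap A Ω) (I := Fin 3)
    (fun i _ _ γ => CW l (w + i) ((PB (spc γ)).obj ((Rc L (hp a) i).obj ((PB (L.u (hp a))).obj F))))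
    fun i => hM l L a a₁ Ω hs h₁ w _ hu i
  refine evt'.mono _ _ _ (fun B _ γ h => ?_) h3
  refine cse_bc hS ge' nrq ntc nez l w L.π (spc γ) (L.u (hp a)).opensRange
    (fun i => L.pnt (𝟙 _) (cse_z a i)) F (Linv.spec hs.unit) hF (fun i => inferInstance)
    (fun i => L.pnt_π _ _) (cse_out L a) (fun k _ _ => cse_uni L a hs.disj k) (fun i => ?_)
    (fun b => ?_) b
  · cases i with
    | none => exact hi
    | some i => exact ha i
  · obtain ⟨e⟩ := jsh'.ez L (hp a) F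
    refine ge'.cwIso l _ ⟨((PB (spc γ)).mapIso ((Rq L.π b).mapIso e)).symm⟩ ?_
    by_cases hb : b < 3
    · exact h ⟨b, hb⟩
    · obtain ⟨c, rfl⟩ : ∃ c, b = c + 3 := ⟨b - 3, by omega⟩
      have := (nrq.exa (spc γ)).1
      exact (ge'.nul l _ _ (ge'.zero l _ ((PB (spc γ)).map_isZero
        (((hR l L a hs.unit).1 _ (ge'.lcf l _ hu.1)).2.2 c)))).2.1

end Pool.Agent.MP_855f4c_ag.E.Vp

end

section

/-! Row DIV: lissity for divisible coefficients. -/

set_option autoImplicit false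
set_option backward.isDefEq.respectTransparency false

open CategoryTheory Limits Abelian Opposite AlgebraicGeometry

namespace Pool.Agent.MP_855f4c_ag.E.Vp

open E3 E4 Function U

section alg
variable {M N : Type*} [AddCommGroup M] [AddCommGroup N] (l : ℕ) (φ : M →+ N)

lemma div_inj (hM : ∀ m : M, ∃ k : ℕ, l ^ k • m = 0) (h : ∀ m, l • m = 0 → φ m = 0 → m = 0) :
    Injective φ := by
  refine (injective_iff_map_eq_zero φ).2 fun m hm => ?_
  obtain ⟨k, hk⟩ := hM m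
  induction k generalizing m with
  | zero => rwa [pow_zero, one_smul] at hk
  | succ k ih =>
    exact h m (ih _ (by rw [map_nsmul, hm, smul_zero]) (by rwa [← mul_smul, ← pow_succ])) hm

lemma div_surj (hN : ∀ n : N, ∃ k : ℕ, l ^ k • n = 0) (h : ∀ n, l • n = 0 → ∃ m, φ m = n)
    (h' : ∀ m n, φ m = l • n → ∃ m', l • m' = m) : Surjective φ := by
  intro n
  obtain ⟨k, hk⟩ := hN n
  induction k generalizing n with
  | zero =>
    rw [pow_zero, one_smul] at hk
    exact ⟨0, by rw [map_zero, hk]⟩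
  | succ k ih =>
    obtain ⟨m, hm⟩ := ih (l • n) (by rwa [← mul_smul, ← pow_succ])
    obtain ⟨m, rfl⟩ := h' m n hm
    obtain ⟨m', hm'⟩ := h (n - φ m) (by rw [smul_sub, ← hm, map_nsmul, sub_self])
    exact ⟨m' + m, by rw [map_add, hm', sub_add_cancel]⟩

end alg

lemma div_app {X : Scheme.{0}} (l : ℕ) (F : Sh (Scheme.etaleTopology.over X)) (T : Over X) (s : F.obj.obj (op T)) :
    (l • 𝟙 F : F ⟶ F).hom.app (op T) s = l • s := by
  induction l with
  | zero => rw [zero_smul, zero_smul]; rfl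
  | succ l ih => rw [succ_nsmul, succ_nsmul, ← ih]; rfl

theorem div : DIV_s := by
  intro l X F A i δ hi hE hT hA b C K _ _ _ _ _ _ x y w s hC hl
  have := hC.shl
  have := aic_frac hC K
  have := (aic_field K).shl
  have p := pt_shl x
  have q := pt_shl y
  have ex {T : Over X} (h : ExPt T) {P Q R : Sh (Scheme.etaleTopology.over X)} {f : P ⟶ Q} {g : Q ⟶ R} (e : Ex f g)
      (z : Q.obj.obj (op T)) : g.hom.app (op T) z = 0 ↔ ∃ t, f.hom.app (op T) t = z :=
    h.exact e.2 z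
  have hs : ∀ b, Surjective ((F b).obj.map (sph _ w).op) := fun b => by
    refine div_surj l ((F b).obj.map (sph _ w).op).hom (hT b _ (isAffine_Spec _)) (fun n hn => ?_)
      fun m n h => ?_
    · obtain ⟨a, rfl⟩ := (ex q (hE b).1 n).1 ((div_app l _ _ n).trans hn)
      obtain ⟨a, rfl⟩ := (hA b C K x y w s hC hl).2 a
      exact ⟨_, (map_nat (i b).hom _ a).symm⟩
    · obtain ⟨m', hm'⟩ := (ex p (hE b).2.1 m).1 ((hA (b + 1) C K x y w s hC hl).1 (by
        rw [map_zero, ← map_nat]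
        exact (ex q (hE b).2.1 _).2 ⟨n, (div_app l _ _ n).trans h.symm⟩))
      exact ⟨m', (div_app l _ _ m').symm.trans hm'⟩
  refine ⟨div_inj l ((F b).obj.map (sph _ w).op).hom (hT b _ (isAffine_Spec _))
    fun m hm h => ?_, hs b⟩
  obtain ⟨a, rfl⟩ := (ex p (hE b).1 m).1 ((div_app l _ _ m).trans hm)
  have h1 := (map_nat (i b).hom (sph _ w) a).trans h
  cases b with
  | zero =>
    obtain rfl : a = 0 := (hA 0 C K x y w s hC hl).1
      (((E4.sec_exact (S := ShortComplex.mk _ _ (hE 0).1.1) (hE 0).1.2 _).1 (h1.trans (map_zero _).symm)).trans (map_zero _).symm)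
    exact map_zero _
  | succ b =>
    obtain ⟨n, hn⟩ := (ex q (hE b).2.2 _).1 h1
    obtain ⟨m, rfl⟩ := hs b n
    rw [map_nat] at hn
    exact (ex p (hE b).2.2 _).2 ⟨m, (hA (b + 1) C K x y w s hC hl).1 hn⟩

end Pool.Agent.MP_855f4c_ag.E.Vp

end

section

set_option autoImplicit false
set_option backward.isDefEq.respectTransparency false

open CategoryTheory Limits Abelian Opposite AlgebraicGeometry Polynomial

namespace Pool.Agent.MP_855f4c_ag.E.Vp

open E3 E4 Function U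

/-- A power of Frobenius fixes a finitely generated subring. -/
lemma ena_fix {l : ℕ} {k : Type} [Field k] {X : Scheme.{0}} {x : Spec (.of k) ⟶ X} {Q : ℕ}
    {ψ : k →+* k} (h : Fr l x Q ψ) (A : Subring k) [Algebra.FiniteType ℤ A] :
    ∃ m, 0 < m ∧ (ψ ^ m).comp A.subtype = A.subtype := by
  obtain ⟨s, hs⟩ := Spg.gens A
  choose n hn hz using h.alg
  have h1 (z : k) (i : ℕ) : (ψ ^ i) (z ^ Q ^ i) = z := by
    induction i with
    | zero => simp
    | succ i ih => rw [pow_succ ψ, pow_succ' Q, mul_comm, pow_mul, RingHom.coe_mul,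
        Function.comp_apply, map_pow, h.pow, ih]
  have h2 (z : k) (d : ℕ) : (ψ ^ (n z * d)) z = z := by
    have := h1 z (n z)
    rw [hz] at this
    rw [pow_mul, RingHom.coe_pow]
    exact iterate_fixed this d
  refine ⟨∏ z ∈ s, n z, Finset.prod_pos fun z _ => hn z, RingHom.ext fun z => ?_⟩
  refine hs k A.subtype ((ψ ^ _).eqLocus (RingHom.id k)) (fun z hz => ?_) z
  obtain ⟨d, hd⟩ := Finset.dvd_prod_of_mem (fun z : A => n z) hz
  rw [hd]
  exact h2 z d

theorem ena : ENA_s := by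
  intro l _ R _ _ w F h
  have hev := (h l rfl).2 R
  refine ⟨fun k _ _ x Q ψ e j => ?_, fun k _ _ x hk => ?_⟩
  · obtain ⟨ι, rfl⟩ := finp_surj x
    obtain ⟨A, _, α, rfl, hA⟩ := hev k ι (𝟙 _) e.ne
    obtain ⟨m, hm, hψ⟩ := ena_fix e A
    have hu : IsUnit (l : A) := by
      obtain ⟨n, hn, hz⟩ := e.alg l
      obtain ⟨d, hd⟩ := Nat.exists_eq_add_of_lt (Nat.one_lt_pow hn.ne' e.lt)
      refine IsUnit.of_mul_eq_one ((l : A) ^ d) (A.subtype_injective (mul_left_cancel₀ e.ne ?_))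
      rw [map_one, mul_one, map_mul, map_pow, map_natCast]
      linear_combination hz - congrArg ((l : k) ^ ·) hd
    have hy : spc (ψ ^ m) ≫ spc A.subtype = spc A.subtype := by rw [finp_comp, hψ]
    have h1 := (hA A (RingHom.id A) hu).2 k _ _ _ (ratp_fr (X := Spec (.of A)) e hm hy) j
    refine alg.pow l (rsec (sph ψ e.fix) (F l)) m _ j hm (by positivity) ?_
    rw [ratp_pow e.fix (F l) _ rfl]
    have key (y : Spec (.of k) ⟶ Spec (.of R)) (hy' : spc (ψ ^ m) ≫ y = y)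
        (e' : spc A.subtype ≫ spc ((RingHom.id A).comp α) ≫ 𝟙 _ = y) :
        Ev j (Set.Iic (((Q ^ m : ℕ) : ℝ) ^ w)) (rsec (sph (ψ ^ m) hy') (F l)) := by
      subst e'
      exact h1
    have := key _ (ratp_fix e.fix m) (by rw [Category.comp_id, finp_comp, RingHom.id_comp])
    rwa [Nat.cast_pow, pow_right_comm] at this
  · obtain ⟨ι, rfl⟩ := finp_surj x
    obtain ⟨A, _, α, rfl, hA⟩ := hev k ι (𝟙 _) hk
    have h1 := (ge'.lcf l _ (hA k A.subtype hk.isUnit).1).2.2 k (𝟙 _) hk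
    have key (y : Spec (.of k) ⟶ Spec (.of R)) (e' : 𝟙 _ ≫ spc (A.subtype.comp α) ≫ 𝟙 _ = y) :
        Cof l (sec (F l) (Over.mk y)) := by
      subst e'
      exact h1
    exact key _ (by simp)

end Pool.Agent.MP_855f4c_ag.E.Vp

end

section

/-! Section V, row FNA: finite push-forward. -/

set_option autoImplicit false
set_option backward.isDefEq.respectTransparency false

open CategoryTheory Limits Abelian Opposite AlgebraicGeometry Polynomial

namespace Pool.Agent.MP_855f4c_ag.E.Vp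

open E3 E4 Function U

theorem fna : FNA_s := by
  intro LL X Y c _ w F h l _ hl
  obtain ⟨htc, hev⟩ := h l hl
  refine ⟨E4.pf_tc c htc, ?_⟩
  intro A₀ Ω _ _ _ _ ι a hΩ
  obtain ⟨C, _, φ, e, hφ, hpb⟩ := finp_aff c a
  let _ : Algebra A₀ C := φ.toAlgebra
  have : Module.Finite A₀ C := hφ
  obtain ⟨A, _, α, n, τ, rfl, hτ, huniq⟩ := spf.2 A₀ C Ω ι
  have hτ' : ∀ i, (τ i).comp φ = α := hτ
  refine evt'.trans α A.subtype _ (evt'.mono _ _ _ ?_
    (evt'.all A.subtype _ fun i : Fin n => hev A Ω A.subtype (spc (τ i) ≫ e) hΩ))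
  intro B _ γ hB hu
  have hc : ∀ i, (spc γ ≫ spc (τ i) ≫ e) ≫ c = spc (γ.comp α) ≫ a := fun i => by
    rw [Category.assoc, Category.assoc, hpb.w, ← Category.assoc (spc (τ i)), finp_comp, hτ',
      ← Category.assoc, finp_comp]
  obtain ⟨u⟩ := fspl ntc l c (spc (γ.comp α) ≫ a) (fun i => spc γ ≫ spc (τ i) ≫ e) (F l)
    (Linv.spec hu) htc hc (by
      intro k _ _ s y hy
      obtain ⟨ψ, rfl⟩ := finp_surj s
      have hy' : y ≫ c = (spc ψ ≫ spc (γ.comp α)) ≫ a := by rw [hy, Category.assoc]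
      obtain ⟨χ, hχ⟩ := finp_surj (hpb.lift y _ hy')
      have h1 : spc χ ≫ e = y := by rw [hχ, hpb.lift_fst]
      have h2 : χ.comp φ = (ψ.comp γ).comp α := finp_inj (by
        rw [← finp_comp, hχ, hpb.lift_snd, finp_comp, RingHom.comp_assoc])
      have h3 : ∀ i, spc ψ ≫ spc γ ≫ spc (τ i) ≫ e = spc ((ψ.comp γ).comp (τ i)) ≫ e := fun i => by
        rw [← Category.assoc, finp_comp, ← Category.assoc, finp_comp]
      obtain ⟨i, hi, hi'⟩ := huniq k χ (ψ.comp γ) h2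
      refine ⟨i, ?_, fun j hj => hi' j (finp_inj (hpb.hom_ext ?_ ?_))⟩
      · show y = spc ψ ≫ spc γ ≫ spc (τ i) ≫ e
        rw [h3, ← hi, h1]
      · have hj' : y = spc ψ ≫ spc γ ≫ spc (τ j) ≫ e := hj
        rw [h1, hj', h3]
      · rw [finp_comp, finp_comp, h2, RingHom.comp_assoc _ (τ j), hτ'])
  exact ge'.cwIso l w ⟨u.symm⟩ (ge'.cwSum l w _ fun i => hB i hu)

end Pool.Agent.MP_855f4c_ag.E.Vp

end

section

/-! Row FRD: the pull-back along Frobenius changes nothing. -/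

set_option autoImplicit false
set_option backward.isDefEq.respectTransparency false

open CategoryTheory Limits Opposite AlgebraicGeometry

namespace Pool.Agent.MP_855f4c_ag.E.Vp

open E3 E4 U

namespace FRD


/-- The `q`-th power map is additive on all sections. -/
def Ad (q : ℕ) (T : Scheme.{0}) : Prop :=
  ∀ (U : T.Opens) (x y : Γ(T, U)), (x + y) ^ q = x ^ q + y ^ q

/-- The power map as a ring homomorphism. -/
def pw {E : Type} [CommRing E] {q : ℕ} (hq : q ≠ 0) (h : ∀ x y : E, (x + y) ^ q = x ^ q + y ^ q) :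
    E →+* E where
  toFun x := x ^ q
  map_one' := one_pow q
  map_mul' x y := mul_pow x y q
  map_zero' := zero_pow hq
  map_add' := h

/-- The power map on the structure sheaf. -/
noncomputable def fr0 {q : ℕ} (hq : q ≠ 0) {T : Scheme.{0}} (h : Ad q T) :
    T.toPresheafedSpace ⟶ T.toPresheafedSpace where
  base := 𝟙 _
  c := { app U := CommRingCat.ofHom (pw hq (h U.unop))
         naturality _ _ i := CommRingCat.hom_ext (RingHom.ext fun x =>
           (map_pow (T.presheaf.map i).hom x q).symm) }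

/-- The absolute Frobenius. -/
noncomputable def fr {q : ℕ} (hq : q ≠ 0) {T : Scheme.{0}} (h : Ad q T) : T ⟶ T :=
  ⟨⟨fr0 hq h, fun x => ⟨fun a ha => by
    obtain ⟨U, hx, s, rfl⟩ := T.presheaf.exists_germ_eq a
    have e := congrArg (fun f => f.hom s) (PresheafedSpace.stalkMap_germ (fr0 hq h) U x hx)
    have e' : ((fr0 hq h).stalkMap x).hom (T.presheaf.germ U x hx s) =
        T.presheaf.germ U x hx s ^ q := e.trans (map_pow (T.presheaf.germ U x hx).hom s q)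
    exact (isUnit_pow_iff hq).1 (e' ▸ ha)⟩⟩⟩

lemma fr_nat {q : ℕ} (hq : q ≠ 0) {T T' : Scheme.{0}} (h : Ad q T) (h' : Ad q T') (g : T' ⟶ T) :
    g ≫ fr hq h = fr hq h' ≫ g := by
  refine Scheme.Hom.ext rfl fun U => ?_
  refine Eq.trans (congrArg (_ ≫ ·) (T'.presheaf.map_id _)) ((Category.comp_id _).trans ?_)
  exact CommRingCat.hom_ext (RingHom.ext fun x => map_pow (g.app U).hom x q)

lemma fr_spec {q : ℕ} (hq : q ≠ 0) {E : Type} [CommRing E] (h : Ad q (Spec (.of E)))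
    (φ : E →+* E) (hφ : ∀ x, φ x = x ^ q) : fr hq h = Spec.map (CommRingCat.ofHom φ) := by
  refine ext_of_isAffine ?_
  rw [← cancel_mono (Scheme.ΓSpecIso (.of E)).hom, Scheme.ΓSpecIso_naturality]
  exact CommRingCat.hom_ext (RingHom.ext fun x =>
    (map_pow (Scheme.ΓSpecIso (.of E)).hom.hom x q).trans (hφ _).symm)

lemma ad {D : Type} [CommRing D] {q : ℕ}
    (h : ∀ (E : Type) [CommRing E], (D →+* E) → ∀ x y : E, (x + y) ^ q = x ^ q + y ^ q)
    {T : Scheme.{0}} (t : T ⟶ Spec (.of D)) : Ad q T := fun _ =>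
  h _ ((Scheme.ΓSpecIso (.of D)).inv ≫ t.appTop ≫ T.presheaf.map (homOfLE le_top).op).hom

/-- Frobenius as a natural transformation. -/
noncomputable def frN {D : Type} [CommRing D] {q : ℕ} (hq : q ≠ 0)
    (h : ∀ (E : Type) [CommRing E], (D →+* E) → ∀ x y : E, (x + y) ^ q = x ^ q + y ^ q)
    (φ : D →+* D) (hφ : ∀ x, φ x = x ^ q) :
    Over.map (Spec.map (CommRingCat.ofHom φ)) ⟶ 𝟭 (Over (Spec (.of D))) where
  app T := Over.homMk (fr hq (ad h T.hom)) ((fr_nat hq (ad h (𝟙 _)) _ T.hom).symm.trans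
    (congrArg (T.hom ≫ ·) (fr_spec hq _ φ hφ)))
  naturality _ _ g := Over.OverMorphism.ext (fr_nat hq _ _ g.left)

lemma frN_iso {D : Type} [CommRing D] {q : ℕ} (hq : q ≠ 0)
    (h : ∀ (E : Type) [CommRing E], (D →+* E) → ∀ x y : E, (x + y) ^ q = x ^ q + y ^ q)
    (φ : D →+* D) (hφ : ∀ x, φ x = x ^ q) (k : Type) [Field k] [IsAlgClosed k]
    (x : Spec (.of k) ⟶ Spec (.of D)) : IsIso ((frN hq h φ hφ).app (Over.mk x)) := by
  let ψ := pw hq (h k (Spec.preimage x).hom)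
  have b : Function.Bijective ψ := ⟨ψ.injective, fun z =>
    IsAlgClosed.exists_pow_nat_eq z (Nat.pos_of_ne_zero hq)⟩
  have : IsIso (CommRingCat.ofHom ψ) := (RingEquiv.ofBijective ψ b).toCommRingCatIso.isIso_hom
  have : IsIso ((Over.forget _).map ((frN hq h φ hφ).app (Over.mk x))) := by
    change IsIso (fr hq (ad h x))
    rw [fr_spec hq _ ψ fun _ => rfl]
    infer_instance
  exact isIso_of_reflects_iso _ (Over.forget _)

end FRD

theorem frd : FRD_s := by
  rintro l D _ φ ⟨q, hq, hφ, h⟩ hl F hF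
  let α : F ⟶ (PB (spc φ)).obj F :=
    ⟨Functor.whiskerRight (NatTrans.op (FRD.frN hq h φ hφ)) F.obj⟩
  have : IsIso α := ntc.pti l α (Linv.spec hl) hF (ntc.pb l _ F hF) fun k _ _ x => by
    have := FRD.frN_iso hq h φ hφ k x
    exact ConcreteCategory.bijective_of_isIso (F.obj.map ((FRD.frN hq h φ hφ).app (Over.mk x)).op)
  exact ⟨(asIso α).symm⟩

end Pool.Agent.MP_855f4c_ag.E.Vp

end

section

/-! Section V, row GAM: a generator of the monodromy of a Kummer cover. -/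

set_option autoImplicit false
set_option backward.isDefEq.respectTransparency false

open CategoryTheory Limits Abelian Opposite AlgebraicGeometry Polynomial

namespace Pool.Agent.MP_855f4c_ag.E.Vp

open Function

/-- An automorphism of an intermediate domain extends to the algebraic closure. -/
theorem gam_ext {R S Ω : Type} [CommRing R] [CommRing S] [IsDomain S] [Field Ω] [IsAlgClosed Ω]
    [Algebra R Ω] [FaithfulSMul R Ω] [Algebra.IsAlgebraic R Ω] (ψ : R →+* S) (φ : S →+* Ω)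
    (hφ : Injective φ) (h : ∀ r, φ (ψ r) = algebraMap R Ω r) (e : S ≃+* S) :
    ∃ g : Ω ≃+* Ω, ∀ s, g (φ s) = φ (e s) := by
  let _ := ψ.toAlgebra
  let _ := φ.toAlgebra
  have : IsScalarTower R S Ω := .of_algebraMap_eq fun r => (h r).symm
  have hψ : Injective (algebraMap R S) := fun a b hab =>
    FaithfulSMul.algebraMap_injective R Ω ((h a).symm.trans ((congrArg φ hab).trans (h b)))
  have : FaithfulSMul S Ω := (faithfulSMul_iff_algebraMap_injective _ _).2 hφ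
  have : IsAlgClosure S Ω := ⟨inferInstance, Algebra.IsAlgebraic.extendScalars hψ⟩
  exact ⟨IsAlgClosure.equivOfEquiv Ω Ω e, fun s => IsAlgClosure.equivOfEquiv_algebraMap Ω Ω e s⟩

/-- An element outside an algebraically closed subfield is transcendental over it. -/
theorem gam_inj {k Ω : Type} [Field k] [IsAlgClosed k] [Field Ω] (ι : k →+* Ω) (z : Ω)
    (hz : ∀ a, ι a ≠ z) : Injective (eval₂RingHom ι z) := by
  let _ := ι.toAlgebra
  rw [injective_iff_map_eq_zero]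
  intro q hq
  by_contra h0
  have hi : IsIntegral k z := (show IsAlgebraic k z from ⟨q, h0, hq⟩).isIntegral
  obtain ⟨a, ha⟩ := minpoly.mem_range_of_degree_eq_one k z
    (IsAlgClosed.degree_eq_one_of_irreducible k (minpoly.irreducible hi))
  exact hz a ha

theorem gam : GAM_s := by
  intro k Ω _ _ _ _ _ _ _ c N hN
  have : NeZero (N : k) := ⟨hN⟩
  have hN0 : N ≠ 0 := fun e => hN (by rw [e, Nat.cast_zero])
  have : NeZero N := ⟨hN0⟩
  obtain ⟨ζ, hζ⟩ := HasEnoughRootsOfUnity.exists_primitiveRoot k N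
  have hi := FaithfulSMul.algebraMap_injective k[X] Ω
  obtain ⟨z, hz⟩ := IsAlgClosed.exists_pow_nat_eq (algebraMap k[X] Ω (X - C c))
    (Nat.pos_of_ne_zero hN0)
  let ι : k →+* Ω := (algebraMap k[X] Ω).comp C
  have hι : ∀ a, ι a = algebraMap k[X] Ω (C a) := fun _ => rfl
  have hzk : ∀ a, ι a ≠ z := fun a e => by
    have h1 : (C (a ^ N) : k[X]) = X - C c := hi (by rw [← hz, ← e, ← hι, map_pow])
    have h2 := congrArg natDegree h1
    rw [natDegree_C, natDegree_X_sub_C] at h2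
    exact zero_ne_one h2
  have hz0 : z ≠ 0 := fun e => hzk 0 (by rw [map_zero, e])
  have hζ0 : ζ ≠ 0 := hζ.ne_zero hN0
  let _ : Invertible ζ := invertibleOfNonzero hζ0
  let ψ : k[X] →+* k[X] := eval₂RingHom C (X ^ N + C c)
  let φ : k[X] →+* Ω := eval₂RingHom ι z
  let e : k[X] ≃ₐ[k] k[X] := algEquivCMulXAddC ζ 0
  have φC : ∀ a, φ (C a) = ι a := fun a => eval₂_C _ _
  have φX : φ X = z := eval₂_X _ _
  have ψC : ∀ a, ψ (C a) = C a := fun a => eval₂_C _ _
  have ψX : ψ X = X ^ N + C c := eval₂_X _ _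
  have eC : ∀ a, e (C a) = C a := fun a => e.commutes a
  have eX : e X = C ζ * X := by simp [e]
  have h1 : φ.comp ψ = algebraMap k[X] Ω := by
    refine Polynomial.ringHom_ext (fun a => ?_) ?_
    · rw [RingHom.comp_apply, ψC, φC, hι]
    · rw [RingHom.comp_apply, ψX, map_add, map_pow, φX, φC, hz, hι, ← map_add, sub_add_cancel]
  have h2 : (e : k[X] →+* k[X]).comp ψ = ψ := by
    refine Polynomial.ringHom_ext (fun a => ?_) ?_
    · rw [RingHom.comp_apply, ψC]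
      exact eC a
    · rw [RingHom.comp_apply, ψX]
      change e _ = _
      rw [map_add, map_pow, eX, eC, mul_pow, ← map_pow, hζ.pow_eq_one, map_one, one_mul]
  obtain ⟨g₀, hg₀⟩ := gam_ext ψ φ (gam_inj ι z hzk) (fun r => RingHom.congr_fun h1 r)
    e.toRingEquiv
  let g : Ω ≃ₐ[k[X]] Ω := AlgEquiv.ofRingEquiv (f := g₀) fun q => by
    rw [← h1]
    exact (hg₀ (ψ q)).trans (congrArg φ (RingHom.congr_fun h2 q))
  have gz : g z = ι ζ * z := by
    have := hg₀ X
    rw [φX] at this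
    refine this.trans ?_
    change φ (e X) = _
    rw [eX, map_mul, φC, φX]
  have gp : ∀ i : ℕ, (g ^ i) z = ι ζ ^ i * z := fun i => by
    induction i with
    | zero => simp
    | succ i ih =>
      rw [pow_succ', AlgEquiv.mul_apply, ih, map_mul, map_pow, gz, hι, g.commutes, pow_succ,
        mul_assoc]
  have hξ : IsPrimitiveRoot (ι ζ) N := hζ.map_of_injective ι.injective
  refine ⟨z, g, hz, by rw [gp, hξ.pow_eq_one, one_mul], fun w hw => ?_⟩
  obtain ⟨i, hiN, hiw⟩ := hξ.eq_pow_of_pow_eq_one (ξ := w / z)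
    (by rw [div_pow, hw, ← hz, div_self (pow_ne_zero _ hz0)])
  have hwi : w = ι ζ ^ i * z := by rw [hiw, div_mul_cancel₀ _ hz0]
  refine ⟨⟨i, hiN⟩, hwi.trans (gp i).symm, fun j hj => Fin.ext ?_⟩
  exact (hξ.pow_inj hiN j.2 (mul_right_cancel₀ hz0 (hwi.symm.trans (hj.trans (gp j))))).symm

end Pool.Agent.MP_855f4c_ag.E.Vp

end

section

/-! Section V, row GCA: the formal closure properties. -/

set_option autoImplicit false
set_option backward.isDefEq.respectTransparency false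

open CategoryTheory Limits Abelian Opposite AlgebraicGeometry Polynomial

namespace Pool.Agent.MP_855f4c_ag.E.Vp

open E3 E4 Function U

theorem gca (hP : PBC_s) : GCA_s := fun LL => by
  have t := (tct hP ntc nez sq LL).1
  have tc : ∀ {X : Scheme.{0}} {w : ℕ} {F : Fam X}, GoodA LL X w F → TcF LL X w F :=
    fun h l _ hl => (h l hl).1
  have nul : ∀ (l : ℕ) [Fact l.Prime] (w : ℕ) {X : Scheme.{0}} (F : Sh (Scheme.etaleTopology.over X)), IsZero F →
      CW l w F := fun l _ w _ F h => (ge'.nul l w F (ge'.zero l F h)).2.1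
  refine ⟨fun h l _ hl => (h l hl).1, fun {X w w' F} hw h l _ hl => ?_,
    fun {X Y} g w F h l _ hl => ?_, fun {X w w₁ w₅} F₁ F₂ F₃ F₄ F₅ e a b c d l _ hl => ?_,
    fun {X} w F h l _ hl => ?_, fun {X w F G} e h l _ hl => ?_, fun {X w F G} e h l _ hl => ?_,
    fun {X} O w F h l _ hl => ?_⟩
  · exact ⟨(h l hl).1, fun A₀ Ω _ _ _ _ ι a h0 => evt'.mono ι _ _
      (fun B _ γ p hu => ⟨(p hu).1, ge'.wtMono l _ hw (p hu).2⟩) ((h l hl).2 A₀ Ω ι a h0)⟩
  · refine ⟨t.pb g (tc h) l hl, fun A₀ Ω _ _ _ _ ι a h0 => evt'.mono ι _ _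
      (fun B _ γ p hu => ge'.cwIso l w (gc_symm (pb_comp _ _ _)) ?_)
      ((h l hl).2 A₀ Ω ι (a ≫ g) h0)⟩
    rw [Category.assoc]
    exact p hu
  · refine ⟨t.five F₁ F₂ F₃ F₄ F₅ e (tc a) (tc b) (tc c) (tc d) l hl,
      fun A₀ Ω _ _ _ _ ι x h0 => evt'.mono ι _ _ (fun B _ γ p hu => ?_)
        (evt'.and ι _ _ (evt'.and ι _ _ ((a l hl).2 A₀ Ω ι x h0) ((b l hl).2 A₀ Ω ι x h0))
          (evt'.and ι _ _ ((c l hl).2 A₀ Ω ι x h0) ((d l hl).2 A₀ Ω ι x h0)))⟩
    exact ge'.cwFive l w _ _ _ _ _ (gc_ex5 (nrq.exa _) (e l hl)) (ge'.lcf l _ (p.1.1 hu).1)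
      (p.1.2 hu) (p.2.1 hu) (ge'.lcf l _ (p.2.2 hu).1)
  · exact ⟨t.zero w F h l hl, fun A₀ Ω _ _ _ _ ι a _ => evt_of ι
      fun B _ γ _ => nul l w _ (gc_zero (nrq.exa _) (h l hl))⟩
  · exact ⟨t.iso e (tc h) l hl, fun A₀ Ω _ _ _ _ ι a h0 => evt'.mono ι _ _
      (fun B _ γ p hu => ge'.cwIso l w (gc_map _ (e l hl)) (p hu)) ((h l hl).2 A₀ Ω ι a h0)⟩
  · exact ⟨t.loc e (tc h) l hl, fun A₀ Ω _ _ _ _ ι a h0 => evt'.mono ι _ _
      (fun B _ γ p hu => ge'.cwIso l w ((e l hl).2.2 B _ hu) (p hu)) ((h l hl).2 A₀ Ω ι a h0)⟩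
  · refine ⟨t.ez O (tc h) l hl, fun A₀ Ω _ _ _ _ ι a h0 => ?_⟩
    rcases spo A₀ Ω ι X a O with s | s
    · exact evt'.mono ι _ _ (fun B _ γ p hu => ge'.cwIso l w (gc_symm (nez.pin _ O _ p.1)) (p.2 hu))
        (evt'.and ι _ _ s ((h l hl).2 A₀ Ω ι a h0))
    · exact evt'.mono ι _ _ (fun B _ γ p _ => nul l w _ (nez.pout _ O _ p)) s

end Pool.Agent.MP_855f4c_ag.E.Vp

end

section

/-! Row GEN: a sheaf with finitely many generic sections and injective generization is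
generically lisse. -/

set_option autoImplicit false
set_option backward.isDefEq.respectTransparency false

open CategoryTheory Limits Abelian Opposite AlgebraicGeometry

namespace Pool.Agent.MP_855f4c_ag.E.Vp

open E3 E4 Function U

/-- If all generic sections come from the base, the sheaf is lisse. -/
lemma gen_lis {l : ℕ} {X : Scheme.{0}} {B : Type} [CommRing B] (u : Spec (.of B) ⟶ X) (Ω : Type)
    [Field Ω] [IsAlgClosed Ω] [Algebra B Ω] [FaithfulSMul B Ω] [Algebra.IsAlgebraic B Ω]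
    {F : Sh (Scheme.etaleTopology.over X)} (hF : Cc l F) (hi : Inj l F.obj)
    (hs : Surjective (rs u F.obj (Algebra.ofId B Ω))) : Lis l F.obj (ob u B) := by
  have : IsDomain B := (FaithfulSMul.algebraMap_injective B Ω).isDomain _
  have : IsFractionRing (integralClosure B Ω) Ω := integralClosure.isFractionRing_of_algebraic
    fun x hx => FaithfulSMul.algebraMap_injective B Ω (hx.trans (map_zero _).symm)
  refine lis_of_gen u Ω hF fun P _ hl => ⟨?_, fun m => ?_⟩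
  · let _ := (lgen P : Localization.AtPrime P →+* Ω).toAlgebra
    have : IsScalarTower (integralClosure B Ω) (Localization.AtPrime P) Ω :=
      IsScalarTower.of_algebraMap_eq fun x => (gen_alg P x).symm
    have : IsFractionRing (Localization.AtPrime P) Ω :=
      IsFractionRing.isFractionRing_of_isDomain_of_isLocalization P.primeCompl _ _
    exact hi (Localization.AtPrime P) Ω (ob u _).hom (ob u Ω).hom (Over.w (hm u (lgen P)))
      (loc_aic (B := B) (Ω := Ω) P.primeCompl (Localization.AtPrime P)) (unit_loc P hl)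
  · obtain ⟨s, rfl⟩ := hs m
    exact ⟨rs u F.obj (Algebra.ofId B _) s,
      (rs_rs _ _ _ _ s).trans (rs_congr u _ (Subsingleton.elim _ _) s)⟩

/-- Finitely many sections come from one finitely generated subalgebra. -/
lemma gen_fg {X : Scheme.{0}} {A : Type} [CommRing A] (u : Spec (.of A) ⟶ X) (Ω : Type)
    [Field Ω] [Algebra A Ω] {P : PSh X} (hP : LFP P) [Finite (P.obj (op (ob u Ω)))] :
    ∃ S : Subalgebra A Ω, S.FG ∧ Surjective (rs u P S.val) := by
  choose a t h using (lfp_fac u hP (Stage.fac_fp (R := A) (C := Ω))).1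
  let T : Set Ω := ⋃ m, Set.range fun i : Fin (a m).n =>
    (a m).φ (Ideal.Quotient.mk _ (MvPolynomial.X i))
  have hT : T.Finite := Set.finite_iUnion fun m => Set.finite_range _
  refine ⟨Algebra.adjoin A T, Subalgebra.fg_def.2 ⟨T, hT, rfl⟩, fun m => ?_⟩
  have hm (x : (a m).E) : (a m).φ x ∈ Algebra.adjoin A T := by
    obtain ⟨p, rfl⟩ := Ideal.Quotient.mk_surjective x
    induction p using MvPolynomial.induction_on with
    | C c => exact ((a m).φ.commutes c).symm ▸ Subalgebra.algebraMap_mem _ c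
    | add p q hp hq => rw [map_add, map_add]; exact add_mem hp hq
    | mul_X p i hp =>
      rw [map_mul, map_mul]
      exact mul_mem hp (Algebra.subset_adjoin (Set.mem_iUnion.2 ⟨m, i, rfl⟩))
  exact ⟨rs u P ((a m).φ.codRestrict _ hm) (t m), (rs_rs _ _ _ _ _).trans (h m)⟩

theorem gen : GEN_s := by
  intro l A Ω _ _ _ _ _ _ _ F hF hf hi
  let e : ob (𝟙 (Spec (.of A))) Ω ≅ Over.mk (spc (algebraMap A Ω)) :=
    Over.isoMk (Iso.refl _) (by simp)
  have : Finite (F.obj.obj (op (ob (𝟙 (Spec (.of A))) Ω))) :=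
    .of_surjective _ (ConcreteCategory.bijective_of_isIso (F.obj.map e.hom.op)).2
  obtain ⟨S, hS, hs⟩ := gen_fg (𝟙 (Spec (.of A))) Ω hF.1
  have hZ : Algebra.FiniteType ℤ S :=
    .trans (S := A) inferInstance ((Subalgebra.fg_iff_finiteType S).1 hS)
  have : Algebra.IsAlgebraic S Ω := .extendScalars (R := A) fun x y h =>
    FaithfulSMul.algebraMap_injective A Ω (congrArg Subtype.val h)
  have hL : Lis l F.obj (ob (ob (𝟙 (Spec (.of A))) S).hom S) := gen_lis _ Ω hF hi fun m => by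
    obtain ⟨m, rfl⟩ :=
      (ConcreteCategory.bijective_of_isIso (F.obj.map (tw (𝟙 (Spec (.of A))) S Ω).hom.op)).2 m
    obtain ⟨s, rfl⟩ := hs m
    exact ⟨_, (tw_rs _ _ (Algebra.ofId S Ω) s).symm⟩
  refine ⟨S.toSubring, hZ, algebraMap A S, rfl,
    fun B _ β => (Lis.map_iff _ F.obj _).2 (hL.mono (Over.homMk (spc β) ?_))⟩
  simp [spc, ← Spec.map_comp, ← CommRingCat.ofHom_comp]

end Pool.Agent.MP_855f4c_ag.E.Vp

end

section

/-! Section V, row GL1: generic lissity in degree one. -/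

set_option autoImplicit false
set_option backward.isDefEq.respectTransparency false

open CategoryTheory Limits Abelian Opposite AlgebraicGeometry Polynomial

namespace Pool.Agent.MP_855f4c_ag.E.Vp

open E3 E4 Function U

theorem gl1 (h1 : GEN_s) (h2 : RCW_s) (h3 : DEG_s) : GL1_s := by
  intro l _ A _ L r a _ Ω _ _ c G hG hl
  obtain ⟨-, _, hu, -, _, _, _⟩ := c
  obtain ⟨t, s⟩ := ((h2 l L a hu).1 G hG).1 1
  have : (js L (hp a)).Additive := (jsh'.exa L _).1
  have : (Rq L.π 1).Additive := (nrq.df L.π).1 1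
  have : (Rc L (hp a) 1).Additive := inferInstanceAs (js L (hp a) ⋙ Rq L.π 1).Additive
  have k : l • 𝟙 ((Rc L (hp a) 1).obj G) = 0 := by
    rw [← CategoryTheory.Functor.map_id, ← Functor.map_nsmul, hl, Functor.map_zero]
  refine (h1 l A Ω _ t.1 ?_ ?_).imp fun B _ γ h => ⟨ntc.pb l _ _ t, h, fun k _ _ x hk => s k _ hk⟩
  · refine Set.finite_univ_iff.1 ((s Ω _ (Linv.spec hu Ω (spc (algebraMap A Ω)))).2.subset fun m _ => ?_)
    exact congr(app $k _ m)
  · intro C K _ _ _ _ _ _ x y e hC hl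
    have := hC.shl
    have := aic_frac hC K
    refine Injective.of_comp_right ?_ (rqη_bij L.π ((js L (hp a)).obj G) 1 x).2
    have k := (rqη_bij L.π _ 1 y).1.comp
      (h3 l A L _ _ (rcl_lc a) (jsh'.gd l L _ G hG) C K x y e hC hl)
    rwa [show _ ∘ _ = _ from funext fun x => rqη_res L.π _ 1 _ x] at k

end Pool.Agent.MP_855f4c_ag.E.Vp

end
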